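import Mathlib

set_option autoImplicit false

namespace Pool.Agent.W301.Lin

open MvPolynomial Module

/-- Values and gradients at the points `x i` can be prescribed by polynomials of degree at most
`d`. -/
def JetSurj {k : Type*} [Field k] {r : ℕ} {D : Type*} (x : D → Fin r → k) (d : ℕ) : Prop :=
  ∀ (a : D → k) (b : D → Fin r → k), ∃ f : MvPolynomial (Fin r) k, f.totalDegree ≤ d ∧
    ∀ i, eval (x i) f = a i ∧ ∀ l, eval (x i) (pderiv l f) = b i l

lemma JetSurj.comp {k : Type*} [Field k] {r : ℕ} {D D' : Type*} {x : D → Fin r → k} {d : ℕ}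
    (h : JetSurj x d) (g : D' → D) (hg : Function.Injective g) : JetSurj (x ∘ g) d := by
  classical
  intro a b
  obtain ⟨f, hf, hf'⟩ := h (fun i => if h : ∃ j, g j = i then a h.choose else 0)
    (fun i => if h : ∃ j, g j = i then b h.choose else 0)
  refine ⟨f, hf, fun j => ?_⟩
  have hj : ∃ j', g j' = g j := ⟨j, rfl⟩
  have hc : hj.choose = j := hg hj.choose_spec
  have := hf' (g j)
  rw [dif_pos hj, dif_pos hj, hc] at this
  exact this

section

variable {k : Type*} [Field k]

/-- the affine function with prescribed value and gradient at `p` -/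
lemma exists_affine {r : ℕ} (p : Fin r → k) (A : k) (B : Fin r → k) :
    ∃ f : MvPolynomial (Fin r) k, f.totalDegree ≤ 1 ∧ eval p f = A ∧
      ∀ l, eval p (pderiv l f) = B l := by
  refine ⟨C A + ∑ l, C (B l) * (X l - C (p l)), ?_, ?_, ?_⟩
  · refine (totalDegree_add _ _).trans (max_le (by simp) ?_)
    refine (totalDegree_finsetSum _ _).trans (Finset.sup_le fun l _ => ?_)
    refine (totalDegree_mul _ _).trans ?_
    rw [totalDegree_C, zero_add]
    refine (totalDegree_sub _ _).trans (max_le ?_ (by simp))
    exact (totalDegree_X _).le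
  · simp
  · intro l
    rw [map_add, map_sum, pderiv_C, zero_add, map_sum]
    rw [Finset.sum_eq_single l]
    · simp
    · intro j _ hj
      rw [pderiv_C_mul, map_sub, pderiv_C, sub_zero, pderiv_X_of_ne hj]
      simp
    · intro h; exact absurd (Finset.mem_univ l) h

lemma jet_extend [Infinite k] {r d q : ℕ} (x : Fin q → Fin r → k) (hx : JetSurj x (d + 1))
    (hq : (r + 1) * q < (r + d).choose r) :
    ∃ x' : Fin (q + 1) → Fin r → k, JetSurj x' (d + 1) := by
  classical
  set A := (Finset.univ : Finset (Fin (r + 1))).finsuppAntidiag d with hA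
  have hcard : A.card = (r + d).choose r := by
    rw [hA, Finset.card_finsuppAntidiag_nat_eq_choose]
    rw [Finset.card_univ, Fintype.card_fin]
    have : r + 1 + d - 1 = r + d := by omega
    rw [this]
    exact (Nat.choose_symm_add).symm
  have hsum : ∀ a ∈ A, ∑ i, a i = d := by
    intro a ha
    rw [hA, Finset.mem_finsuppAntidiag] at ha
    exact ha.1
  have htail : Set.InjOn (fun a : Fin (r + 1) →₀ ℕ => a.tail) A := by
    intro a ha b hb hab
    have h1 := hsum a ha
    have h2 := hsum b hb
    rw [Fin.sum_univ_succ] at h1 h2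
    have h3 : ∀ i : Fin r, a i.succ = b i.succ := fun i => by
      have := DFunLike.congr_fun hab i
      simpa [Finsupp.tail_apply] using this
    have h4 : ∑ i : Fin r, a i.succ = ∑ i : Fin r, b i.succ :=
      Finset.sum_congr rfl fun i _ => h3 i
    ext i
    refine Fin.cases ?_ (fun i => h3 i) i
    omega
  -- the linear family of polynomials
  let f : (A → k) →ₗ[k] MvPolynomial (Fin r) k :=
    Fintype.linearCombination k (fun a : A => monomial (a.1.tail) (1 : k))
  have hf : ∀ c, f c = ∑ a : A, c a • monomial (a.1.tail) (1 : k) := fun c => rfl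
  have hcoeff : ∀ c (a : A), coeff a.1.tail (f c) = c a := by
    intro c a
    rw [hf, coeff_sum, Finset.sum_eq_single a]
    · simp
    · intro b _ hb
      rw [coeff_smul, coeff_monomial, if_neg, smul_zero]
      intro h
      exact hb (Subtype.ext (htail b.2 a.2 h))
    · intro h; exact absurd (Finset.mem_univ a) h
  have hdeg : ∀ c, (f c).totalDegree ≤ d := by
    intro c
    rw [hf]
    refine (totalDegree_finsetSum _ _).trans (Finset.sup_le fun a _ => ?_)
    refine (totalDegree_smul_le _ _).trans ?_
    rw [totalDegree_monomial _ one_ne_zero]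
    have h1 := hsum a.1 a.2
    rw [Fin.sum_univ_succ] at h1
    have h2 : (a.1.tail.sum fun _ e => e) = ∑ i : Fin r, a.1 i.succ := by
      rw [Finsupp.sum_fintype _ _ (fun _ => rfl)]
      rfl
    rw [h2]
    omega
  let Φ : (A → k) →ₗ[k] (Fin q → k × (Fin r → k)) :=
    { toFun := fun c i => (eval (x i) (f c), fun l => eval (x i) (pderiv l (f c)))
      map_add' := by
        intro c c'
        funext i
        simp only [map_add, Pi.add_apply, Prod.mk_add_mk]
        rfl
      map_smul' := by
        intro a c
        funext i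
        simp only [map_smul, Derivation.map_smul, smul_eval, RingHom.id_apply, Pi.smul_apply,
          Prod.smul_mk]
        rfl }
  have hker : LinearMap.ker Φ ≠ ⊥ := by
    apply LinearMap.ker_ne_bot_of_finrank_lt
    rw [Module.finrank_pi_fintype, Module.finrank_fintype_fun_eq_card, Fintype.card_coe, hcard]
    simp only [Module.finrank_prod, Module.finrank_self, Module.finrank_fin_fun, Finset.sum_const,
      Finset.card_univ, Fintype.card_fin, smul_eq_mul]
    calc q * (1 + r) = (r + 1) * q := by ring
      _ < _ := hq
  obtain ⟨c, hc, hc0⟩ := Submodule.exists_mem_ne_zero_of_ne_bot hker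
  have hf0 : f c ≠ 0 := by
    intro h
    apply hc0
    funext a
    rw [← hcoeff c a, h]
    simp
  obtain ⟨p, hp⟩ : ∃ p, eval p (f c) ≠ 0 := by
    by_contra hne
    push Not at hne
    apply hf0
    apply MvPolynomial.funext
    intro p
    rw [hne p, map_zero]
  have hΦ : ∀ i, eval (x i) (f c) = 0 ∧ ∀ l, eval (x i) (pderiv l (f c)) = 0 := by
    intro i
    have h1 := congrFun (LinearMap.mem_ker.1 hc) i
    have h2 := congrArg Prod.fst h1
    have h3 := congrArg Prod.snd h1
    constructor
    · exact h2
    · intro l
      exact congrFun h3 l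
  -- the extended configuration
  refine ⟨Fin.snoc x p, ?_⟩
  intro a b
  obtain ⟨g, hg, hg'⟩ := hx (fun i => a i.castSucc) (fun i => b i.castSucc)
  obtain ⟨ℓ, hℓ, hℓ1, hℓ2⟩ := exists_affine p ((a (Fin.last q) - eval p g) / eval p (f c))
    (fun l => (b (Fin.last q) l - eval p (pderiv l g)
      - (a (Fin.last q) - eval p g) / eval p (f c) * eval p (pderiv l (f c))) / eval p (f c))
  refine ⟨g + f c * ℓ, ?_, ?_⟩
  · refine (totalDegree_add _ _).trans (max_le hg ?_)
    refine (totalDegree_mul _ _).trans ?_
    have := hdeg c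
    omega
  · intro i
    refine Fin.lastCases ?_ (fun i => ?_) i
    · rw [Fin.snoc_last]
      constructor
      · rw [map_add, map_mul, hℓ1]
        field_simp
        ring
      · intro l
        rw [map_add, map_add, Derivation.leibniz, map_add, smul_eq_mul, smul_eq_mul, map_mul,
          map_mul, hℓ1, hℓ2]
        field_simp
        ring
    · rw [Fin.snoc_castSucc]
      obtain ⟨h1, h2⟩ := hΦ i
      obtain ⟨h3, h4⟩ := hg' i
      constructor
      · rw [map_add, map_mul, h1, h3]; ring
      · intro l
        rw [map_add, map_add, Derivation.leibniz, map_add, smul_eq_mul, smul_eq_mul, map_mul,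
          map_mul, h1, h2, h4]
        ring

/-- the interpolation statement for double points -/
lemma exists_jet [Infinite k] {r d : ℕ} (q : ℕ) (hq : (r + 1) * q ≤ (r + d).choose r) :
    ∃ x : Fin q → Fin r → k, JetSurj x (d + 1) := by
  induction q with
  | zero =>
    refine ⟨fun i => i.elim0, fun a b => ⟨0, by simp, fun i => i.elim0⟩⟩
  | succ q ih =>
    obtain ⟨x, hx⟩ := ih (by
      calc (r + 1) * q ≤ (r + 1) * (q + 1) := by gcongr; omega
        _ ≤ _ := hq)
    exact jet_extend x hx (by
      calc (r + 1) * q < (r + 1) * (q + 1) := by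
            apply Nat.mul_lt_mul_of_pos_left <;> omega
        _ ≤ _ := hq)

end

end Pool.Agent.W301.Lin
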