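import Mathlib
import Pool.Agent.W301.LinC

set_option autoImplicit false

namespace Pool.Agent.W301.Lin

open MvPolynomial Module

/-- the exponents of bidegree at most `(d, e)` -/
def Expo (r u d e : ℕ) : Set ((Fin r ⊕ Fin u) →₀ ℕ) :=
  {a | ∑ l, a (Sum.inl l) ≤ d ∧ ∑ l, a (Sum.inr l) ≤ e}

section

variable {k : Type*} [Field k] {r u : ℕ}

lemma supp_mul {d e : ℕ} (f : MvPolynomial (Fin r) k) (g : MvPolynomial (Fin u) k)
    (hf : f.totalDegree ≤ d) (hg : g.totalDegree ≤ e) :
    rename (Sum.inl : _ → Fin r ⊕ Fin u) f * rename Sum.inr g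
      ∈ restrictSupport k (Expo r u d e) := by
  classical
  rw [mem_restrictSupport_iff]
  intro a ha
  rw [Finset.mem_coe] at ha
  have h0 := support_mul _ _ ha
  obtain ⟨a1, h1, a2, h2, rfl⟩ := Finset.mem_add.1 h0
  clear h0
  rw [support_rename_of_injective Sum.inl_injective, Finset.mem_image] at h1
  rw [support_rename_of_injective Sum.inr_injective, Finset.mem_image] at h2
  obtain ⟨b1, hb1, rfl⟩ := h1
  obtain ⟨b2, hb2, rfl⟩ := h2
  have e1 : (b1.sum fun _ e => e) ≤ d := (le_totalDegree hb1).trans hf
  have e2 : (b2.sum fun _ e => e) ≤ e := (le_totalDegree hb2).trans hg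
  rw [Finsupp.sum_fintype _ _ (fun _ => rfl)] at e1 e2
  constructor
  · have : ∀ l : Fin r, (Finsupp.mapDomain (Sum.inl : _ → Fin r ⊕ Fin u) b1
        + Finsupp.mapDomain Sum.inr b2 : (Fin r ⊕ Fin u) →₀ ℕ) (Sum.inl l) = b1 l := by
      intro l
      rw [Finsupp.add_apply, Finsupp.mapDomain_apply Sum.inl_injective,
        Finsupp.mapDomain_of_notMem_range _ _ (by simp), add_zero]
    rw [Finset.sum_congr rfl (fun l _ => this l)]
    exact e1
  · have : ∀ l : Fin u, (Finsupp.mapDomain (Sum.inl : _ → Fin r ⊕ Fin u) b1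
        + Finsupp.mapDomain Sum.inr b2 : (Fin r ⊕ Fin u) →₀ ℕ) (Sum.inr l) = b2 l := by
      intro l
      rw [Finsupp.add_apply, Finsupp.mapDomain_apply Sum.inr_injective,
        Finsupp.mapDomain_of_notMem_range _ _ (by simp), zero_add]
    rw [Finset.sum_congr rfl (fun l _ => this l)]
    exact e2

/-- the point of the cube with a given code -/
def code (w : Fin u → Bool) : Fin u → k := fun l => if w l then 1 else 0

/-- the indicator polynomial of a vertex of the cube -/
noncomputable def vert (w : Fin u → Bool) : MvPolynomial (Fin u) k :=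
  ∏ l, if w l then X l else 1 - X l

lemma vert_degree (w : Fin u → Bool) : (vert w : MvPolynomial (Fin u) k).totalDegree ≤ u := by
  unfold vert
  refine (totalDegree_finsetProd _ _).trans ?_
  calc ∑ l : Fin u, (if w l then (X l : MvPolynomial (Fin u) k) else 1 - X l).totalDegree
      ≤ ∑ _l : Fin u, 1 := by
        apply Finset.sum_le_sum
        intro l _
        split_ifs
        · exact (totalDegree_X _).le
        · refine (totalDegree_sub _ _).trans (max_le (by simp) (totalDegree_X _).le)
    _ = u := by simp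

lemma eval_vert (w w' : Fin u → Bool) :
    eval (code w') (vert w : MvPolynomial (Fin u) k) = if w' = w then 1 else 0 := by
  unfold vert
  rw [map_prod]
  have h : ∀ l, eval (code w' : Fin u → k) (if w l then (X l : MvPolynomial (Fin u) k) else 1 - X l)
      = if w' l = w l then 1 else 0 := by
    intro l
    cases h1 : w l <;> cases h2 : w' l <;> simp [code, h2]
  rw [Finset.prod_congr rfl (fun l _ => h l)]
  split_ifs with hw
  · subst hw; simp
  · have : ∃ l, w' l ≠ w l := by
      by_contra hne
      push Not at hne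
      exact hw (funext hne)
    obtain ⟨l, hl⟩ := this
    exact Finset.prod_eq_zero (Finset.mem_univ l) (if_neg hl)

lemma pderiv_inl (f : MvPolynomial (Fin r) k) (g : MvPolynomial (Fin u) k) (l : Fin r)
    (x : Fin r → k) (y : Fin u → k) :
    eval (Sum.elim x y) (pderiv (Sum.inl l)
      (rename (Sum.inl : _ → Fin r ⊕ Fin u) f * rename Sum.inr g))
      = eval x (pderiv l f) * eval y g := by
  classical
  rw [Derivation.leibniz, pderiv_rename Sum.inl_injective]
  have : pderiv (Sum.inl l) (rename (Sum.inr : _ → Fin r ⊕ Fin u) g) = 0 := by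
    apply pderiv_eq_zero_of_notMem_vars
    intro h
    have := vars_rename (Sum.inr : _ → Fin r ⊕ Fin u) g h
    rw [Finset.mem_image] at this
    obtain ⟨_, _, h⟩ := this
    cases h
  rw [this]
  simp only [smul_eq_mul, mul_zero, zero_add, map_mul, eval_rename, Sum.elim_comp_inl,
    Sum.elim_comp_inr]
  ring

lemma pderiv_inr (f : MvPolynomial (Fin r) k) (g : MvPolynomial (Fin u) k) (l : Fin u)
    (x : Fin r → k) (y : Fin u → k) :
    eval (Sum.elim x y) (pderiv (Sum.inr l)
      (rename (Sum.inl : _ → Fin r ⊕ Fin u) f * rename Sum.inr g))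
      = eval x f * eval y (pderiv l g) := by
  classical
  rw [Derivation.leibniz, pderiv_rename Sum.inr_injective]
  have : pderiv (Sum.inr l) (rename (Sum.inl : _ → Fin r ⊕ Fin u) f) = 0 := by
    apply pderiv_eq_zero_of_notMem_vars
    intro h
    have := vars_rename (Sum.inl : _ → Fin r ⊕ Fin u) f h
    rw [Finset.mem_image] at this
    obtain ⟨_, _, h⟩ := this
    cases h
  rw [this]
  simp only [smul_eq_mul, mul_zero, add_zero, map_mul, eval_rename, Sum.elim_comp_inl,
    Sum.elim_comp_inr]

lemma eval_pderiv_sq (w : Fin u → Bool) (w' : Fin u → Bool) (hw : w' ≠ w) (l : Fin u) :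
    eval (code w') (pderiv l ((vert w : MvPolynomial (Fin u) k) ^ 2)) = 0 := by
  rw [Derivation.leibniz_pow]
  simp [eval_vert, hw]

lemma eval_pderiv_lin (w w' : Fin u → Bool) (l l' : Fin u) :
    eval (code w') (pderiv l ((X l' - C (code w l')) * (vert w : MvPolynomial (Fin u) k) ^ 2))
      = if w' = w ∧ l = l' then 1 else 0 := by
  rw [Derivation.leibniz, Derivation.leibniz_pow]
  by_cases hw : w' = w
  · subst hw
    by_cases hl : l = l'
    · subst hl
      simp [eval_vert]
    · simp [eval_vert, hl, pderiv_X_of_ne (Ne.symm hl)]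
  · simp [eval_vert, hw]

/-- all gradients are realised by polynomials of small bidegree -/
lemma exists_gradient {E : Type*} {d : ℕ} (c : E → Fin u → Bool) (x : E → Fin r → k)
    (h : ∀ w, JetSurj (fun i : {i // c i = w} => x i) d) (G : E → (Fin r ⊕ Fin u) → k) :
    ∃ F ∈ restrictSupport k (Expo r u d (2 * u + 1)),
      ∀ i l, eval (Sum.elim (x i) (code (c i))) (pderiv l F) = G i l := by
  classical
  have hf : ∀ w, ∃ f : MvPolynomial (Fin r) k, f.totalDegree ≤ d ∧
      ∀ i : {i // c i = w}, eval (x i) f = 0 ∧ ∀ l, eval (x i) (pderiv l f) = G i (Sum.inl l) :=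
    fun w => h w (fun _ => 0) (fun i l => G i (Sum.inl l))
  have hg : ∀ w (l : Fin u), ∃ g : MvPolynomial (Fin r) k, g.totalDegree ≤ d ∧
      ∀ i : {i // c i = w}, eval (x i) g = G i (Sum.inr l) := by
    intro w l
    obtain ⟨g, hg1, hg2⟩ := h w (fun i => G i (Sum.inr l)) (fun _ _ => 0)
    exact ⟨g, hg1, fun i => (hg2 i).1⟩
  choose f hf1 hf2 using hf
  choose g hg1 hg2 using hg
  refine ⟨∑ w, (rename (Sum.inl : _ → Fin r ⊕ Fin u) (f w) * rename Sum.inr ((vert w) ^ 2)
    + ∑ l, rename (Sum.inl : _ → Fin r ⊕ Fin u) (g w l)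
      * rename Sum.inr ((X l - C (code w l)) * (vert w) ^ 2)), ?_, ?_⟩
  · refine Submodule.sum_mem _ fun w _ => Submodule.add_mem _ ?_ (Submodule.sum_mem _ fun l _ => ?_)
    · apply supp_mul _ _ (hf1 w)
      refine (totalDegree_pow _ _).trans ?_
      have := vert_degree (k := k) w
      omega
    · apply supp_mul _ _ (hg1 w l)
      refine (totalDegree_mul _ _).trans ?_
      have h1 : (X l - C (code w l) : MvPolynomial (Fin u) k).totalDegree ≤ 1 :=
        (totalDegree_sub _ _).trans (max_le (totalDegree_X _).le (by simp))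
      have h2 := totalDegree_pow (vert w : MvPolynomial (Fin u) k) 2
      have := vert_degree (k := k) w
      omega
  · intro i l
    rw [map_sum, map_sum]
    rw [Finset.sum_eq_single (c i)]
    · rcases l with l | l
      · rw [map_add, map_add, pderiv_inl, map_sum, map_sum]
        rw [Finset.sum_eq_zero]
        · rw [(hf2 (c i) ⟨i, rfl⟩).2 l]
          simp [eval_vert]
        · intro l' _
          rw [pderiv_inl]
          simp [code]
      · rw [map_add, map_add, pderiv_inr, map_sum, map_sum]
        rw [(hf2 (c i) ⟨i, rfl⟩).1, zero_mul, zero_add]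
        rw [Finset.sum_eq_single l]
        · rw [pderiv_inr, eval_pderiv_lin, hg2 (c i) l ⟨i, rfl⟩]
          simp
        · intro l' _ hl'
          rw [pderiv_inr, eval_pderiv_lin, if_neg (by rintro ⟨_, h⟩; exact hl' h.symm), mul_zero]
        · intro h; exact absurd (Finset.mem_univ _) h
    · intro w _ hw
      have hw' : c i ≠ w := fun h => hw h.symm
      rcases l with l | l
      · rw [map_add, map_add, pderiv_inl, map_sum, map_sum]
        rw [Finset.sum_eq_zero]
        · simp [eval_vert, hw']
        · intro l' _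
          rw [pderiv_inl]
          simp [eval_vert, hw']
      · rw [map_add, map_add, pderiv_inr, map_sum, map_sum, eval_pderiv_sq _ _ hw', mul_zero,
          zero_add]
        apply Finset.sum_eq_zero
        intro l' _
        rw [pderiv_inr, eval_pderiv_lin, if_neg (by rintro ⟨h, _⟩; exact hw' h), mul_zero]
    · intro h; exact absurd (Finset.mem_univ _) h

end

end Pool.Agent.W301.Lin
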