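import Mathlib

set_option autoImplicit false

namespace Pool.Agent.W301.Lin

open MeasureTheory Metric Module
open scoped ENNReal Pointwise

/-- A set of points of a ball with pairwise distances at least one is small. -/
lemma card_le_of_sep {E : Type*} [NormedAddCommGroup E] [NormedSpace ℝ E]
    [FiniteDimensional ℝ E] (s : Finset E) (R : ℝ) (hR : 0 ≤ R) (hs : ∀ c ∈ s, ‖c‖ ≤ R)
    (h : ∀ c ∈ s, ∀ d ∈ s, c ≠ d → 1 ≤ ‖c - d‖) :
    (s.card : ℝ) ≤ (2 * R + 1) ^ finrank ℝ E := by
  borelize E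
  let μ : Measure E := Measure.addHaar
  let δ : ℝ := (1 : ℝ) / 2
  let ρ : ℝ := R + 1 / 2
  have ρpos : 0 < ρ := by positivity
  set A := ⋃ c ∈ s, ball (c : E) δ with hA
  have D : Set.Pairwise (s : Set E) (Function.onFun Disjoint fun c => ball (c : E) δ) := by
    rintro c hc d hd hcd
    apply ball_disjoint_ball
    rw [dist_eq_norm]
    have := h c hc d hd hcd
    simp only [δ]
    linarith
  have A_subset : A ⊆ ball (0 : E) ρ := by
    refine Set.iUnion₂_subset fun x hx => ?_
    apply ball_subset_ball'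
    rw [dist_zero_right]
    have := hs x hx
    simp only [δ, ρ]
    linarith
  have I :
    (s.card : ℝ≥0∞) * ENNReal.ofReal (δ ^ finrank ℝ E) * μ (ball 0 1) ≤
      ENNReal.ofReal (ρ ^ finrank ℝ E) * μ (ball 0 1) :=
    calc
      (s.card : ℝ≥0∞) * ENNReal.ofReal (δ ^ finrank ℝ E) * μ (ball 0 1) = μ A := by
        rw [hA, measure_biUnion_finset D fun c _ => measurableSet_ball]
        have I : 0 < δ := by norm_num [δ]
        simp only [μ.addHaar_ball_of_pos _ I]
        simp only [Finset.sum_const, nsmul_eq_mul, mul_assoc]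
      _ ≤ μ (ball (0 : E) ρ) := measure_mono A_subset
      _ = ENNReal.ofReal (ρ ^ finrank ℝ E) * μ (ball 0 1) := by
        simp only [μ.addHaar_ball_of_pos _ ρpos]
  have J : (s.card : ℝ≥0∞) * ENNReal.ofReal (δ ^ finrank ℝ E) ≤
      ENNReal.ofReal (ρ ^ finrank ℝ E) :=
    (ENNReal.mul_le_mul_iff_left (measure_ball_pos _ _ zero_lt_one).ne' measure_ball_lt_top.ne).1 I
  have K := ENNReal.toReal_le_of_le_ofReal (pow_nonneg ρpos.le _) J
  rw [ENNReal.toReal_mul, ENNReal.toReal_natCast, ENNReal.toReal_ofReal (by positivity)] at K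
  have hδ : δ ^ finrank ℝ E * 2 ^ finrank ℝ E = 1 := by
    rw [← mul_pow]; norm_num [δ]
  calc (s.card : ℝ) = s.card * δ ^ finrank ℝ E * 2 ^ finrank ℝ E := by
        rw [mul_assoc, hδ, mul_one]
    _ ≤ ρ ^ finrank ℝ E * 2 ^ finrank ℝ E := by gcongr
    _ = (2 * R + 1) ^ finrank ℝ E := by
        rw [← mul_pow]; congr 1; simp only [ρ]; ring

/-- Blichfeldt's principle with multiplicities. -/
lemma blichfeldt {E : Type*} [AddCommGroup E] [MeasurableSpace E] [MeasurableAdd E]
    {μ : Measure E} (Λ : AddSubgroup E) [Countable Λ] {F s : Set E}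
    [Measure.IsAddLeftInvariant μ]
    (fund : IsAddFundamentalDomain Λ F μ) (hs : MeasurableSet s) (T : Finset Λ)
    (hT : ∀ l : Λ, ∀ x ∈ s, ∀ y ∈ s, x - y = l → l ∈ T) :
    μ s ≤ T.card * μ F := by
  classical
  have h1 : μ s = ∑' g : Λ, ∫⁻ x in F, Set.indicator (g +ᵥ s) 1 x ∂μ := by
    rw [fund.measure_eq_tsum s]
    congr 1
    ext g
    have hm : MeasurableSet (g +ᵥ s) := hs.const_vadd g
    rw [lintegral_indicator_one hm, Measure.restrict_apply hm]
  rw [h1, ← lintegral_tsum (fun g => (measurable_one.indicator (hs.const_vadd g)).aemeasurable)]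
  have h2 : ∀ x, ∑' g : Λ, Set.indicator (g +ᵥ s) (1 : E → ℝ≥0∞) x ≤ T.card := by
    intro x
    by_cases hx : ∃ g0 : Λ, x ∈ g0 +ᵥ s
    · obtain ⟨g0, hg0⟩ := hx
      obtain ⟨b, hb, hb'⟩ := hg0
      rw [tsum_eq_sum (s := T.image (fun l => g0 - l))]
      · calc ∑ g ∈ T.image (fun l => g0 - l), Set.indicator (g +ᵥ s) (1 : E → ℝ≥0∞) x
            ≤ ∑ g ∈ T.image (fun l => g0 - l), (1 : ℝ≥0∞) := by
              apply Finset.sum_le_sum
              intro g _
              exact Set.indicator_le_self' (fun _ _ => bot_le) x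
          _ ≤ T.card := by
              rw [Finset.sum_const, nsmul_eq_mul, mul_one]
              exact_mod_cast Finset.card_image_le
      · intro g hg
        apply Set.indicator_of_notMem
        rintro ⟨a, ha, ha'⟩
        apply hg
        rw [Finset.mem_image]
        refine ⟨g0 - g, ?_, by abel⟩
        apply hT _ a ha b hb
        have e1 : (g : E) + a = x := ha'
        have e2 : (g0 : E) + b = x := hb'
        push_cast
        have : a = x - g := by rw [← e1]; abel
        have : b = x - g0 := by rw [← e2]; abel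
        subst a b
        abel
    · push Not at hx
      have : ∀ g : Λ, Set.indicator (g +ᵥ s) (1 : E → ℝ≥0∞) x = 0 :=
        fun g => Set.indicator_of_notMem (hx g) _
      simp [this]
  calc ∫⁻ x in F, ∑' g : Λ, Set.indicator (g +ᵥ s) (1 : E → ℝ≥0∞) x ∂μ
      ≤ ∫⁻ x in F, (T.card : ℝ≥0∞) ∂μ := lintegral_mono h2
    _ = T.card * μ F := by simp

end Pool.Agent.W301.Lin
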