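import Mathlib
import Pool.Agent.W301.LinA

set_option autoImplicit false

namespace Pool.Agent.W301.Lin

open NumberField NumberField.InfinitePlace NumberField.mixedEmbedding Module MeasureTheory
open scoped ENNReal NNReal

section

open scoped Classical

variable (L : Type*) [Field L] [NumberField L]

lemma place_le_house (x : L) (w : InfinitePlace L) : w x ≤ house x := by
  rw [← norm_embedding_eq]
  exact norm_embedding_le_house x _

lemma norm_mixed (x : L) : ‖mixedEmbedding L x‖ = house x := by
  rw [norm_eq_sup'_normAtPlace]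
  apply le_antisymm
  · apply Finset.sup'_le
    intro w _
    rw [normAtPlace_apply]
    exact place_le_house L x w
  · rw [house, NumberField.canonicalEmbedding.norm_le_iff]
    intro φ
    have h1 : normAtPlace (InfinitePlace.mk φ) (mixedEmbedding L x) = ‖φ x‖ := by
      rw [normAtPlace_apply, InfinitePlace.apply]
    rw [← h1]
    exact Finset.le_sup' (fun w => normAtPlace w (mixedEmbedding L x)) (Finset.mem_univ _)

lemma card_small_le (V : Submodule ℚ L) (H : ℝ) (hH : 0 ≤ H) (s : Finset L)
    (hs : ∀ x ∈ s, IsIntegral ℤ x ∧ house x ≤ H ∧ x ∈ V) :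
    (s.card : ℝ) ≤ (2 * H + 1) ^ finrank ℚ V := by
  set W : Submodule ℝ (mixedSpace L) := Submodule.span ℝ (mixedEmbedding L '' V) with hW
  have hfin : finrank ℝ W ≤ finrank ℚ V := by
    set b := Module.finBasis ℚ V with hb
    have h1 : W ≤ Submodule.span ℝ (Set.range fun i => mixedEmbedding L (b i : L)) := by
      rw [hW, Submodule.span_le]
      rintro _ ⟨x, hx, rfl⟩
      have h2 : x = ∑ i, (b.repr ⟨x, hx⟩ i) • (b i : L) := by
        have := congrArg (Submodule.subtype V) (b.sum_repr ⟨x, hx⟩)
        rw [map_sum] at this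
        simpa using this.symm
      rw [h2, map_sum]
      refine Submodule.sum_mem _ fun i _ => ?_
      rw [map_rat_smul]
      have h3 : ((b.repr ⟨x, hx⟩ i) • mixedEmbedding L (b i : L))
          = ((b.repr ⟨x, hx⟩ i : ℚ) : ℝ) • mixedEmbedding L (b i : L) := by
        rw [Rat.cast_smul_eq_qsmul]
      rw [h3]
      exact Submodule.smul_mem _ _ (Submodule.subset_span ⟨i, rfl⟩)
    calc finrank ℝ W ≤ finrank ℝ (Submodule.span ℝ
          (Set.range fun i => mixedEmbedding L (b i : L))) := Submodule.finrank_mono h1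
      _ ≤ Fintype.card (Fin (finrank ℚ V)) := finrank_range_le_card _
      _ = finrank ℚ V := by simp
  have hmem : ∀ x : L, x ∈ V → mixedEmbedding L x ∈ W := fun x hx =>
    Submodule.subset_span ⟨x, hx, rfl⟩
  set f : {x // x ∈ s} → W := fun x => ⟨mixedEmbedding L x.1, hmem _ (hs _ x.2).2.2⟩ with hf
  have hinj : Function.Injective f := by
    intro x y hxy
    have := congrArg Subtype.val hxy
    exact Subtype.ext (mixedEmbedding_injective L this)
  have h1 : (Finset.univ.image f).card = s.card := by
    rw [Finset.card_image_of_injective _ hinj]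
    simp
  have h2 := card_le_of_sep (Finset.univ.image f) H hH (by
    intro c hc
    obtain ⟨x, _, rfl⟩ := Finset.mem_image.1 hc
    have : ‖f x‖ = house x.1 := norm_mixed L x.1
    rw [this]
    exact (hs _ x.2).2.1) (by
    intro c hc d hd hcd
    obtain ⟨x, _, rfl⟩ := Finset.mem_image.1 hc
    obtain ⟨y, _, rfl⟩ := Finset.mem_image.1 hd
    have : ‖f x - f y‖ = house (x.1 - y.1) := by
      rw [← norm_mixed L, map_sub]
      rfl
    rw [this]
    apply one_le_house_of_isIntegral ((hs _ x.2).1.sub (hs _ y.2).1)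
    intro h
    apply hcd
    have : x = y := Subtype.ext (sub_eq_zero.1 h)
    rw [this])
  rw [h1] at h2
  refine h2.trans ?_
  exact pow_le_pow_right₀ (by linarith) hfin

lemma finite_small (H : ℝ) : {x : L | IsIntegral ℤ x ∧ house x ≤ H}.Finite := by
  refine (Embeddings.finite_of_norm_le L ℂ H).subset ?_
  rintro x ⟨h1, h2⟩
  exact ⟨h1, fun φ => (norm_embedding_le_house x φ).trans h2⟩

/-- the number of integers with bounded house -/
lemma le_card_small (H : ℝ) (hH : 0 ≤ H) (s : Finset L)
    (hs : ∀ x : L, IsIntegral ℤ x → house x ≤ H → x ∈ s) :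
    (H / 2) ^ finrank ℚ L ≤ s.card * √|(discr L : ℝ)| := by
  set ρ : ℝ≥0 := ⟨H / 2, by positivity⟩ with hρ
  set S : Set (mixedSpace L) := convexBodyLT L (fun _ => ρ) with hS
  have hSm : MeasurableSet S := by
    rw [hS]
    apply MeasurableSet.prod <;>
    exact MeasurableSet.univ_pi (fun _ => measurableSet_ball)
  have fund := fundamentalDomain_integerLattice L
  -- the finite set of lattice points
  have hex : ∀ l : (mixedEmbedding.integerLattice L), ∃ x : 𝓞 L, mixedEmbedding L x = l.1 := by
    intro l
    obtain ⟨x, hx⟩ := l.2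
    exact ⟨x, hx⟩
  choose g hg using hex
  have hgi : Function.Injective (fun l => ((g l : 𝓞 L) : L)) := by
    intro a b hab
    apply Subtype.ext
    rw [← hg a, ← hg b]
    exact congrArg _ hab
  set T : Finset (mixedEmbedding.integerLattice L).toAddSubgroup :=
    s.preimage (fun l => ((g l : 𝓞 L) : L)) hgi.injOn with hT
  have hTc : T.card ≤ s.card := by
    apply Finset.card_le_card_of_injOn (fun l => ((g l : 𝓞 L) : L))
    · intro l hl
      rw [Finset.mem_coe, hT, Finset.mem_preimage] at hl
      exact hl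
    · exact hgi.injOn
  have hcount : Countable (mixedEmbedding.integerLattice L).toAddSubgroup := by
    rw [← span_latticeBasis]
    exact inferInstanceAs (Countable (Submodule.span ℤ (Set.range (latticeBasis L))))
  have key := blichfeldt (μ := volume) (mixedEmbedding.integerLattice L).toAddSubgroup
    (F := ZSpan.fundamentalDomain (latticeBasis L)) (s := S) fund hSm T (by
      intro l x hx y hy hxy
      rw [hT, Finset.mem_preimage]
      apply hs ((g l : 𝓞 L) : L) (RingOfIntegers.isIntegral_coe (g l))
      rw [← norm_mixed L, hg l]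
      have hxy' : (l : mixedSpace L) = x - y := hxy.symm
      rw [hxy']
      have h1 : ‖x‖ ≤ H / 2 := by
        rw [Prod.norm_def]
        apply max_le
        · rw [pi_norm_le_iff_of_nonneg (by positivity)]
          intro w
          have := (Set.mem_prod.1 hx).1 w (Set.mem_univ _)
          rw [mem_ball_zero_iff] at this
          exact this.le
        · rw [pi_norm_le_iff_of_nonneg (by positivity)]
          intro w
          have := (Set.mem_prod.1 hx).2 w (Set.mem_univ _)
          rw [mem_ball_zero_iff] at this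
          exact this.le
      have h2 : ‖y‖ ≤ H / 2 := by
        rw [Prod.norm_def]
        apply max_le
        · rw [pi_norm_le_iff_of_nonneg (by positivity)]
          intro w
          have := (Set.mem_prod.1 hy).1 w (Set.mem_univ _)
          rw [mem_ball_zero_iff] at this
          exact this.le
        · rw [pi_norm_le_iff_of_nonneg (by positivity)]
          intro w
          have := (Set.mem_prod.1 hy).2 w (Set.mem_univ _)
          rw [mem_ball_zero_iff] at this
          exact this.le
      calc ‖x - y‖ ≤ ‖x‖ + ‖y‖ := norm_sub_le _ _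
        _ ≤ H := by linarith)
  have hvolS : ((ρ : ℝ≥0∞)) ^ finrank ℚ L ≤ volume S := by
    rw [hS, convexBodyLT_volume]
    have h1 : ∏ w : InfinitePlace L, ρ ^ (mult w) = ρ ^ finrank ℚ L := by
      rw [Finset.prod_pow_eq_pow_sum, sum_mult_eq]
    rw [← ENNReal.coe_mul, ← ENNReal.coe_pow, ENNReal.coe_le_coe, h1]
    calc ρ ^ finrank ℚ L = 1 * ρ ^ finrank ℚ L := (one_mul _).symm
      _ ≤ convexBodyLTFactor L * ρ ^ finrank ℚ L := by
        gcongr
        exact one_le_convexBodyLTFactor L
  have hF : volume (ZSpan.fundamentalDomain (latticeBasis L)) ≤ (NNReal.sqrt ‖discr L‖₊ : ℝ≥0∞) := by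
    rw [volume_fundamentalDomain_latticeBasis]
    calc (2 : ℝ≥0∞)⁻¹ ^ nrComplexPlaces L * (NNReal.sqrt ‖discr L‖₊ : ℝ≥0∞)
        ≤ 1 * (NNReal.sqrt ‖discr L‖₊ : ℝ≥0∞) := by
          gcongr
          apply pow_le_one'
          rw [ENNReal.inv_le_one]
          norm_num
      _ = _ := one_mul _
  have h3 : ((ρ : ℝ≥0∞)) ^ finrank ℚ L ≤ s.card * (NNReal.sqrt ‖discr L‖₊ : ℝ≥0∞) := by
    calc ((ρ : ℝ≥0∞)) ^ finrank ℚ L ≤ volume S := hvolS
      _ ≤ T.card * volume (ZSpan.fundamentalDomain (latticeBasis L)) := key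
      _ ≤ s.card * (NNReal.sqrt ‖discr L‖₊ : ℝ≥0∞) := by
        gcongr
  have h4 : ρ ^ finrank ℚ L ≤ s.card * NNReal.sqrt ‖discr L‖₊ := by
    exact_mod_cast h3
  have h5 : ((ρ ^ finrank ℚ L : ℝ≥0) : ℝ) ≤ ((s.card * NNReal.sqrt ‖discr L‖₊ : ℝ≥0) : ℝ) := by
    exact_mod_cast h4
  push_cast at h5
  have h6 : ((ρ : ℝ≥0) : ℝ) = H / 2 := rfl
  rw [h6] at h5
  convert h5 using 3
  simp [Int.norm_eq_abs]

end

end Pool.Agent.W301.Lin
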