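import Mathlib
import Pool.Agent.W301.LinA2

set_option autoImplicit false

namespace Pool.Agent.W301.Lin

open NumberField Module

lemma card_int_le (K : Type*) [Field K] [NumberField K] (T : ℝ) (hT : 0 ≤ T) :
    (Set.ncard {x : K | IsIntegral ℤ x ∧ house x ≤ T} : ℝ) ≤ (2 * T + 1) ^ finrank ℚ K := by
  have hf := finite_small K T
  rw [Set.ncard_eq_toFinset_card _ hf]
  have := card_small_le K ⊤ T hT hf.toFinset (by
    intro x hx
    rw [Set.Finite.mem_toFinset] at hx
    exact ⟨hx.1, hx.2, Submodule.mem_top⟩)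
  rwa [finrank_top] at this

section

variable (K L : Type*) [Field K] [NumberField K] [Field L] [NumberField L] [Algebra K L]

/-- the `K`-span of the integers with house at most `H` -/
def smallSpan (H : ℝ) : Submodule K L :=
  Submodule.span K {x : L | IsIntegral ℤ x ∧ house x ≤ H}

lemma le_finrank_smallSpan (t : ℕ) (ht : t ≤ finrank K L) (H : ℝ) (hH : 1 ≤ H)
    (hbig : 6 ^ (finrank ℚ L) * √|(discr L : ℝ)| < H ^ (finrank ℚ K * (finrank K L + 1 - t))) :
    t ≤ finrank K (smallSpan K L H) := by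
  by_contra hlt
  push Not at hlt
  have hf := finite_small L H
  set V := smallSpan K L H with hV
  set VQ : Submodule ℚ L := V.restrictScalars ℚ with hVQ
  have hfin : finrank ℚ VQ = finrank ℚ K * finrank K V := by
    rw [Module.finrank_mul_finrank ℚ K V]
    rfl
  have hN : finrank ℚ L = finrank ℚ K * finrank K L := (Module.finrank_mul_finrank ℚ K L).symm
  have h1 := card_small_le L VQ H (by linarith) hf.toFinset (by
    intro x hx
    rw [Set.Finite.mem_toFinset] at hx
    exact ⟨hx.1, hx.2, Submodule.subset_span hx⟩)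
  have h2 := le_card_small L H (by linarith) hf.toFinset (by
    intro x hx1 hx2
    rw [Set.Finite.mem_toFinset]
    exact ⟨hx1, hx2⟩)
  rw [hfin] at h1
  set k0 := finrank ℚ K with hk0
  set n := finrank K L with hn
  set v := finrank K V with hv
  have hH0 : (0 : ℝ) < H := by linarith
  have hD : 0 ≤ √|(discr L : ℝ)| := Real.sqrt_nonneg _
  have hk : k0 * v ≤ k0 * (t - 1) := Nat.mul_le_mul_left _ (by omega)
  have hk' : k0 * v ≤ k0 * n := Nat.mul_le_mul_left _ (by omega)
  have h3 : (2 * H + 1) ^ (k0 * v) ≤ 3 ^ (k0 * n) * H ^ (k0 * (t - 1)) := by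
    calc (2 * H + 1) ^ (k0 * v) ≤ (3 * H) ^ (k0 * v) := by
          apply pow_le_pow_left₀ (by positivity); linarith
      _ = 3 ^ (k0 * v) * H ^ (k0 * v) := mul_pow _ _ _
      _ ≤ 3 ^ (k0 * n) * H ^ (k0 * (t - 1)) := by
        apply mul_le_mul
        · exact pow_le_pow_right₀ (by norm_num) hk'
        · exact pow_le_pow_right₀ hH hk
        · positivity
        · positivity
  have hsplit : H ^ (k0 * n) = H ^ (k0 * (n + 1 - t)) * H ^ (k0 * (t - 1)) := by
    rw [← pow_add, ← Nat.mul_add]
    congr 2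
    omega
  rw [hN, div_pow, div_le_iff₀ (by positivity)] at h2
  rw [hN] at hbig
  have h4 : H ^ (k0 * n) ≤ 6 ^ (k0 * n) * √|(discr L : ℝ)| * H ^ (k0 * (t - 1)) := by
    calc H ^ (k0 * n) ≤ hf.toFinset.card * √|(discr L : ℝ)| * 2 ^ (k0 * n) := h2
      _ ≤ (3 ^ (k0 * n) * H ^ (k0 * (t - 1))) * √|(discr L : ℝ)| * 2 ^ (k0 * n) := by
        gcongr
        exact h1.trans h3
      _ = 6 ^ (k0 * n) * √|(discr L : ℝ)| * H ^ (k0 * (t - 1)) := by
        rw [show (6 : ℝ) = 3 * 2 by norm_num, mul_pow]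
        ring
  rw [hsplit] at h4
  have h5 : 0 < H ^ (k0 * (t - 1)) := by positivity
  have := le_of_mul_le_mul_right h4 h5
  linarith

/-- a subspace of more than half the dimension generates the field multiplicatively -/
lemma span_mul_eq_top (U : Submodule K L) (hU : finrank K L < 2 * finrank K U) :
    Submodule.span K {x : L | ∃ u ∈ U, ∃ v ∈ U, x = u * v} = ⊤ := by
  by_contra hne
  obtain ⟨φ, hφ, hφ'⟩ := Submodule.exists_le_ker_of_lt_top _ (lt_top_iff_ne_top.2 hne)
  -- the functionals `x ↦ φ (u x)`, `u ∈ U`, vanish on `U`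
  have hφ0 : ∀ u v, u ∈ U → v ∈ U → φ (u * v) = 0 := fun u v hu hv =>
    hφ' (Submodule.subset_span ⟨u, hu, v, hv, rfl⟩)
  let ψ : L →ₗ[K] Module.Dual K L := (LinearMap.mul K L).compr₂ φ
  have hψ : ∀ u x, ψ u x = φ (u * x) := fun u x => rfl
  have hinj : Function.Injective ψ := by
    rw [← LinearMap.ker_eq_bot, LinearMap.ker_eq_bot']
    intro u hu
    by_contra hu0
    apply hφ
    ext x
    have := LinearMap.congr_fun hu (u⁻¹ * x)
    rw [hψ] at this
    rw [mul_inv_cancel_left₀ hu0] at this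
    simpa using this
  have hle : (U.map ψ) ≤ U.dualAnnihilator := by
    rintro _ ⟨u, hu, rfl⟩
    rw [Submodule.mem_dualAnnihilator]
    intro v hv
    exact hφ0 u v hu hv
  have : FiniteDimensional K L := Module.Finite.of_restrictScalars_finite ℚ K L
  have h1 : finrank K (U.map ψ) = finrank K U :=
    (Submodule.equivMapOfInjective ψ hinj U).finrank_eq.symm
  have h2 := Submodule.finrank_mono hle
  have h3 := Subspace.finrank_add_finrank_dualAnnihilator_eq U
  omega

end

end Pool.Agent.W301.Lin
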