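import Mathlib
import Pool.Agent.W301.LinA3

set_option autoImplicit false

namespace Pool.Agent.W301.Lin

open NumberField Module
open scoped Pointwise

/-- choose independent vectors inside a spanning set -/
lemma exists_fin_indep {K V : Type*} [Field K] [AddCommGroup V] [Module K V]
    [FiniteDimensional K V] (S : Set V) (t : ℕ) (ht : t ≤ finrank K (Submodule.span K S)) :
    ∃ v : Fin t → V, (∀ j, v j ∈ S) ∧ LinearIndependent K v := by
  obtain ⟨b, hbS, hb, hli⟩ := exists_linearIndependent K S
  have hfin : Finite b := hli.finite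
  have : Fintype b := Fintype.ofFinite b
  have hcard : Fintype.card b = finrank K (Submodule.span K S) := by
    rw [← hb]
    have := finrank_span_eq_card hli
    rw [Subtype.range_coe] at this
    exact this.symm
  have hle : t ≤ Fintype.card b := by rw [hcard]; exact ht
  obtain ⟨f⟩ : Nonempty (Fin t ↪ b) := by
    rw [Function.Embedding.nonempty_iff_card_le]
    simpa using hle
  exact ⟨fun j => (f j : V), fun j => hbS (f j).2, hli.comp f f.injective⟩

section

variable (K L : Type*) [Field K] [NumberField K] [Field L] [NumberField L] [Algebra K L]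

/-- many independent small integers -/
lemma exists_small_indep (t : ℕ) (ht : t ≤ finrank K L) (H : ℝ) (hH : 1 ≤ H)
    (hbig : 6 ^ (finrank ℚ L) * √|(discr L : ℝ)| < H ^ (finrank ℚ K * (finrank K L + 1 - t))) :
    ∃ v : Fin t → L, (∀ j, IsIntegral ℤ (v j) ∧ house (v j) ≤ H) ∧ LinearIndependent K v := by
  have : FiniteDimensional K L := Module.Finite.of_restrictScalars_finite ℚ K L
  have h1 := le_finrank_smallSpan K L t ht H hH hbig
  exact exists_fin_indep _ t h1

/-- a small basis consisting of integers -/
lemma exists_small_basis (H : ℝ) (hH : 1 ≤ H)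
    (hbig : 6 ^ (finrank ℚ L) * √|(discr L : ℝ)| < H ^ (finrank ℚ K * ((finrank K L + 1) / 2))) :
    ∃ w : Fin (finrank K L) → L, (∀ j, IsIntegral ℤ (w j) ∧ house (w j) ≤ H ^ 2) ∧
      LinearIndependent K w := by
  have : FiniteDimensional K L := Module.Finite.of_restrictScalars_finite ℚ K L
  set n := finrank K L with hn
  have hn0 : 0 < n := Module.finrank_pos
  have h1 := le_finrank_smallSpan K L (n / 2 + 1) (by omega) H hH (by
    have : n + 1 - (n / 2 + 1) = (n + 1) / 2 := by omega
    rw [this]
    exact hbig)
  set S : Set L := {x : L | IsIntegral ℤ x ∧ house x ≤ H} with hS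
  have h2 := span_mul_eq_top K L (smallSpan K L H) (by omega)
  have h3 : Submodule.span K (S * S) = ⊤ := by
    rw [eq_top_iff, ← h2, ← Submodule.span_mul_span, Submodule.span_le]
    rintro _ ⟨u, hu, v, hv, rfl⟩
    exact Submodule.mul_mem_mul hu hv
  obtain ⟨w, hw, hli⟩ := exists_fin_indep (K := K) (S * S) n (by rw [h3, finrank_top])
  refine ⟨w, fun j => ?_, hli⟩
  obtain ⟨a, ha, b, hb, hab⟩ := hw j
  simp only at hab
  rw [← hab]
  refine ⟨ha.1.mul hb.1, (house_mul_le a b).trans ?_⟩
  rw [sq]
  exact mul_le_mul ha.2 hb.2 (house_nonneg b) (by linarith)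

end

end Pool.Agent.W301.Lin
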