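import Mathlib
import Pool.Agent.W301.LinB

set_option autoImplicit false

namespace Pool.Agent.W301.Lin

open Module

section cover

/-- averaging over a transitive group of permutations -/
lemma exists_perm_inter {E : Type*} [Fintype E] [DecidableEq E] (G : Subgroup (Equiv.Perm E))
    (htrans : ∀ s u : E, ∃ π ∈ G, π s = u) (S U : Finset E) :
    ∃ π ∈ G, U.card * S.card ≤ Fintype.card E * (U ∩ S.image π).card := by
  classical
  have : Fintype G := Fintype.ofFinite G
  -- the number of group elements sending `s` to `u`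
  set c : E → E → ℕ := fun s u => (Finset.univ.filter (fun π : G => π.1 s = u)).card with hc
  have hcu : ∀ s u u', c s u = c s u' := by
    intro s u u'
    obtain ⟨ρ, hρ, hρu⟩ := htrans u u'
    apply Finset.card_bij (fun π _ => (⟨ρ, hρ⟩ : G) * π)
    · intro π hπ
      rw [Finset.mem_filter] at hπ ⊢
      refine ⟨Finset.mem_univ _, ?_⟩
      rw [Subgroup.coe_mul, Equiv.Perm.mul_apply, hπ.2, hρu]
    · intro a _ b _ hab
      exact mul_left_cancel hab
    · intro π hπ
      rw [Finset.mem_filter] at hπ
      refine ⟨(⟨ρ, hρ⟩ : G)⁻¹ * π, ?_, by simp⟩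
      rw [Finset.mem_filter]
      refine ⟨Finset.mem_univ _, ?_⟩
      rw [Subgroup.coe_mul, Equiv.Perm.mul_apply, hπ.2, ← hρu]
      simp
  have hsum : ∀ s, ∑ u, c s u = Fintype.card G := by
    intro s
    simp only [hc]
    rw [← Finset.card_eq_sum_card_fiberwise (f := fun π : G => π.1 s) (t := Finset.univ)
      (fun _ _ => Finset.mem_coe.2 (Finset.mem_univ _))]
    rfl
  have hcn : ∀ s u, Fintype.card E * c s u = Fintype.card G := by
    intro s u
    rw [← hsum s, Finset.sum_congr rfl (fun u' _ => hcu s u' u), Finset.sum_const,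
      Finset.card_univ, smul_eq_mul]
  have htot : ∑ π : G, (U ∩ S.image π.1).card = ∑ u ∈ U, ∑ s ∈ S, c s u := by
    have h1 : ∀ π : G, (U ∩ S.image π.1).card = ∑ u ∈ U, ∑ s ∈ S, if π.1 s = u then 1 else 0 := by
      intro π
      rw [← Finset.filter_mem_eq_inter, Finset.card_filter]
      apply Finset.sum_congr rfl
      intro u _
      have h2 : ∀ s : E, (π.1 s = u) ↔ (s = π.1.symm u) := fun s =>
        ⟨fun h => by rw [← h]; simp, fun h => by rw [h]; simp⟩
      have h3 : (u ∈ S.image π.1) ↔ π.1.symm u ∈ S := by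
        rw [Finset.mem_image]
        constructor
        · rintro ⟨s, hs, hsu⟩
          rw [← (h2 s).1 hsu]; exact hs
        · intro h
          exact ⟨_, h, by simp⟩
      simp only [h2, h3, Finset.sum_ite_eq']
    rw [Finset.sum_congr rfl (fun π _ => h1 π), Finset.sum_comm]
    apply Finset.sum_congr rfl
    intro u _
    rw [Finset.sum_comm]
    apply Finset.sum_congr rfl
    intro s _
    simp only [hc]
    rw [Finset.card_filter]
  by_contra hne
  push Not at hne
  have hlt : ∑ π : G, Fintype.card E * (U ∩ S.image π.1).card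
      < ∑ _π : G, U.card * S.card := by
    apply Finset.sum_lt_sum_of_nonempty
    · exact ⟨1, Finset.mem_univ _⟩
    · intro π _
      exact hne π.1 π.2
  rw [← Finset.mul_sum, htot, Finset.sum_const, Finset.card_univ, smul_eq_mul] at hlt
  rw [Finset.mul_sum] at hlt
  have h2 : ∀ u ∈ U, Fintype.card E * ∑ s ∈ S, c s u = S.card * Fintype.card G := by
    intro u _
    rw [Finset.mul_sum, Finset.sum_congr rfl (fun s _ => hcn s u), Finset.sum_const, smul_eq_mul]
  rw [Finset.sum_congr rfl h2, Finset.sum_const, smul_eq_mul] at hlt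
  have : U.card * (S.card * Fintype.card G) = Fintype.card G * (U.card * S.card) := by ring
  omega

/-- few translates of a set cover everything -/
lemma exists_cover {E : Type*} [Fintype E] [DecidableEq E] (G : Subgroup (Equiv.Perm E))
    (htrans : ∀ s u : E, ∃ π ∈ G, π s = u) (S : Finset E) (m : ℕ) :
    ∃ π : Fin m → Equiv.Perm E, (∀ j, π j ∈ G) ∧
      (Fintype.card E) ^ m * (Finset.univ.filter (fun i : E => ∀ j, i ∉ S.image (π j))).card
        ≤ Fintype.card E * (Fintype.card E - S.card) ^ m := by
  classical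
  induction m with
  | zero =>
    refine ⟨fun j => j.elim0, fun j => j.elim0, ?_⟩
    simp only [pow_zero, one_mul, mul_one]
    exact (Finset.card_le_univ _)
  | succ m ih =>
    obtain ⟨π, hπ, hm⟩ := ih
    set U := Finset.univ.filter (fun i : E => ∀ j, i ∉ S.image (π j)) with hU
    obtain ⟨ρ, hρ, hρU⟩ := exists_perm_inter G htrans S U
    refine ⟨Fin.snoc π ρ, ?_, ?_⟩
    · intro j
      refine Fin.lastCases ?_ (fun j => ?_) j
      · rw [Fin.snoc_last]; exact hρ
      · rw [Fin.snoc_castSucc]; exact hπ j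
    · have h1 : (Finset.univ.filter (fun i : E => ∀ j, i ∉ S.image (Fin.snoc (α := fun _ => Equiv.Perm E) π ρ j)))
          = U \ (U ∩ S.image ρ) := by
        ext i
        simp only [hU, Finset.mem_filter, Finset.mem_univ, true_and, Finset.mem_sdiff,
          Finset.mem_inter]
        constructor
        · intro h
          have ha : ∀ j, i ∉ S.image (π j) := fun j => by
            have := h j.castSucc
            rwa [Fin.snoc_castSucc] at this
          have hb := h (Fin.last m)
          rw [Fin.snoc_last] at hb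
          exact ⟨ha, fun h' => hb h'.2⟩
        · rintro ⟨ha, hb⟩ j
          refine Fin.lastCases ?_ (fun j => ?_) j
          · rw [Fin.snoc_last]
            intro h'
            exact hb ⟨ha, h'⟩
          · rw [Fin.snoc_castSucc]
            exact ha j
      rw [h1, Finset.card_sdiff_of_subset Finset.inter_subset_left]
      set n := Fintype.card E
      set a := U.card
      set b := (U ∩ S.image ρ).card
      have hS : S.card ≤ n := Finset.card_le_univ _
      have hba : b ≤ a := Finset.card_le_card Finset.inter_subset_left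
      have h2 : n * (a - b) ≤ a * (n - S.card) := by
        zify [hba, hS]
        have : (a : ℤ) * S.card ≤ n * b := by exact_mod_cast hρU
        nlinarith
      calc n ^ (m + 1) * (a - b) = n ^ m * (n * (a - b)) := by ring
        _ ≤ n ^ m * (a * (n - S.card)) := Nat.mul_le_mul_left _ h2
        _ = (n ^ m * a) * (n - S.card) := by ring
        _ ≤ (n * (n - S.card) ^ m) * (n - S.card) := Nat.mul_le_mul_right _ hm
        _ = n * (n - S.card) ^ (m + 1) := by ring

/-- the covering function -/
lemma exists_colour {E : Type*} [Fintype E] [DecidableEq E] (G : Subgroup (Equiv.Perm E))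
    (htrans : ∀ s u : E, ∃ π ∈ G, π s = u) (S : Finset E) (m : ℕ)
    (hm : Fintype.card E * (Fintype.card E - S.card) ^ m < (Fintype.card E) ^ m) :
    ∃ (π : Fin m → Equiv.Perm E) (c : E → Fin m), (∀ j, π j ∈ G) ∧ ∀ i, i ∈ S.image (π (c i)) := by
  classical
  obtain ⟨π, hπ, h⟩ := exists_cover G htrans S m
  have h0 : (Finset.univ.filter (fun i : E => ∀ j, i ∉ S.image (π j))).card = 0 := by
    by_contra hne
    have h1 : 1 ≤ (Finset.univ.filter (fun i : E => ∀ j, i ∉ S.image (π j))).card :=
      Nat.one_le_iff_ne_zero.2 hne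
    have := Nat.mul_le_mul_left ((Fintype.card E) ^ m) h1
    omega
  rw [Finset.card_eq_zero] at h0
  have h1 : ∀ i, ∃ j, i ∈ S.image (π j) := by
    intro i
    by_contra hne
    push Not at hne
    have : i ∈ Finset.univ.filter (fun i : E => ∀ j, i ∉ S.image (π j)) :=
      Finset.mem_filter.2 ⟨Finset.mem_univ _, hne⟩
    rw [h0] at this
    exact absurd this (Finset.notMem_empty _)
  choose c hc using h1
  exact ⟨π, c, hπ, hc⟩

end cover

section rows

variable {K L Ω : Type*} [Field K] [Field L] [Field Ω] [Algebra K L] [Algebra K Ω]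

/-- the rows of the matrix of conjugates -/
def row {t : ℕ} (v : Fin t → L) (σ : L →ₐ[K] Ω) : Fin t → Ω := fun j => σ (v j)

variable [FiniteDimensional K L] [Algebra.IsSeparable K L] [IsAlgClosed Ω]

lemma eq_zero_of_forall {t : ℕ} (v : Fin t → L) (hv : LinearIndependent K v) (T : Fin t → Ω)
    (hT : ∀ σ : L →ₐ[K] Ω, ∑ j, T j * σ (v j) = 0) : T = 0 := by
  classical
  set b := Basis.sumExtend hv with hb
  have : Finite (Fin t ⊕ Basis.sumExtendIndex hv) := Module.Finite.finite_basis b
  have hfi : Finite (Basis.sumExtendIndex hv) :=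
    Finite.of_injective (Sum.inr : _ → Fin t ⊕ Basis.sumExtendIndex hv) Sum.inr_injective
  have : Fintype (Basis.sumExtendIndex hv) := Fintype.ofFinite _
  have hbv : ∀ j, b (Sum.inl j) = v j := by
    intro j
    rw [hb]
    simp only [Basis.sumExtend, Basis.coe_reindex, Function.comp_apply, Basis.coe_extend]
    rfl
  have hcard : Fintype.card (Fin t ⊕ Basis.sumExtendIndex hv) = Fintype.card (L →ₐ[K] Ω) := by
    rw [AlgHom.card, finrank_eq_card_basis b]
  set e := Fintype.equivOfCardEq hcard with he
  set M := Algebra.embeddingsMatrixReindex K Ω b e with hM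
  have hdet : M.det ≠ 0 := by
    intro h0
    have h1 := Algebra.discr_eq_det_embeddingsMatrixReindex_pow_two K Ω b e
    rw [← hM, h0, zero_pow two_ne_zero] at h1
    have h2 := Algebra.discr_not_zero_of_basis K b
    apply h2
    exact (algebraMap K Ω).injective (by rw [h1, map_zero])
  have h3 : Matrix.vecMul (Sum.elim T 0) M = 0 := by
    funext i
    rw [Matrix.vecMul, dotProduct]
    have h4 : ∀ j, M j i = e i (b j) := fun j => rfl
    simp only [h4]
    rw [Fintype.sum_sum_type]
    simp only [Sum.elim_inl, Sum.elim_inr, Pi.zero_apply, zero_mul, Finset.sum_const_zero,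
      add_zero]
    rw [← hT (e i)]
    exact Finset.sum_congr rfl (fun j _ => by rw [hbv])
  have h5 := Matrix.eq_zero_of_vecMul_eq_zero hdet h3
  funext j
  exact congrFun h5 (Sum.inl j)

lemma span_row {t : ℕ} (v : Fin t → L) (hv : LinearIndependent K v) :
    Submodule.span Ω (Set.range (row (K := K) (Ω := Ω) v)) = ⊤ := by
  by_contra hne
  obtain ⟨φ, hφ, hφ'⟩ := Submodule.exists_le_ker_of_lt_top _ (lt_top_iff_ne_top.2 hne)
  apply hφ
  have h1 : ∀ x : Fin t → Ω, φ x = ∑ j, φ (Pi.single j 1) * x j := by
    intro x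
    rw [LinearMap.pi_apply_eq_sum_univ φ x]
    apply Finset.sum_congr rfl
    intro j _
    rw [smul_eq_mul, mul_comm]
    congr 2
    funext i
    simp [Pi.single_apply, eq_comm]
  have h2 : (fun j => φ (Pi.single j 1)) = 0 := by
    apply eq_zero_of_forall v hv
    intro σ
    have h3 : φ (row v σ) = 0 := hφ' (Submodule.subset_span ⟨σ, rfl⟩)
    rw [h1] at h3
    exact h3
  have h4 : ∀ j, φ (Pi.single j 1) = 0 := fun j => congrFun h2 j
  apply LinearMap.ext
  intro x
  rw [h1]
  simp [h4]

/-- an independent set of rows -/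
lemma exists_indep_rows {t : ℕ} (v : Fin t → L) (hv : LinearIndependent K v) :
    ∃ S : Finset (L →ₐ[K] Ω), S.card = t ∧ LinearIndepOn Ω (row v) (S : Set (L →ₐ[K] Ω)) := by
  classical
  obtain ⟨f, hf, hli⟩ := exists_fin_indep (K := Ω) (Set.range (row (K := K) (Ω := Ω) v)) t (by
    rw [span_row v hv, finrank_top, Module.finrank_fin_fun])
  choose σ hσ using hf
  have hinj : Function.Injective σ := by
    intro i j hij
    apply hli.injective
    rw [← hσ i, ← hσ j, hij]
  refine ⟨Finset.univ.image σ, ?_, ?_⟩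
  · rw [Finset.card_image_of_injective _ hinj, Finset.card_univ, Fintype.card_fin]
  · have h1 : LinearIndepOn Ω (row v ∘ σ) Set.univ := by
      have : row v ∘ σ = f := funext hσ
      rw [this]
      exact linearIndepOn_univ_iff.2 hli
    have := h1.image_of_comp
    simpa using this

end rows

section galois

variable {K L Ω : Type*} [Field K] [Field L] [Field Ω] [Algebra K L] [Algebra K Ω]

lemma exists_galois [Normal K Ω] (σ τ : L →ₐ[K] Ω) : ∃ g : Ω ≃ₐ[K] Ω, ∀ x, g (σ x) = τ x := by
  let e1 : L ≃ₐ[K] σ.fieldRange := AlgEquiv.ofInjectiveField σ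
  let e2 : L ≃ₐ[K] τ.fieldRange := AlgEquiv.ofInjectiveField τ
  let χ : σ.fieldRange ≃ₐ[K] τ.fieldRange := e1.symm.trans e2
  refine ⟨χ.liftNormal Ω, fun x => ?_⟩
  have h1 : σ x = algebraMap σ.fieldRange Ω (e1 x) := rfl
  have h2 : χ (e1 x) = e2 x := by
    simp [χ]
  rw [h1, AlgEquiv.liftNormal_commutes, h2]
  rfl

lemma row_comp {t : ℕ} (v : Fin t → L) (g : Ω ≃ₐ[K] Ω) (S : Set (L →ₐ[K] Ω))
    (hS : LinearIndepOn Ω (row v) S) :
    LinearIndepOn Ω (row v) ((fun σ : L →ₐ[K] Ω => (g : Ω →ₐ[K] Ω).comp σ) '' S) := by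
  apply LinearIndepOn.image_of_comp
  have h1 := LinearIndependent.map_of_injective_injective (R := Ω) (R' := Ω)
    (M := Fin t → Ω) (M' := Fin t → Ω) hS (fun r => g.symm r)
    { toFun := fun x j => g (x j)
      map_zero' := by funext j; simp
      map_add' := by intro x y; funext j; simp }
    (by intro r hr; simpa using hr)
    (by
      intro m hm
      funext j
      have := congrFun hm j
      simpa using this)
    (by
      intro r m
      funext j
      simp)
  exact h1

/-- the group of permutations of the embeddings which preserve independence of rows -/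
def rowGroup {t : ℕ} (v : Fin t → L) : Subgroup (Equiv.Perm (L →ₐ[K] Ω)) where
  carrier := {π | ∀ S : Set (L →ₐ[K] Ω), LinearIndepOn Ω (row v) S ↔
    LinearIndepOn Ω (row v) (π '' S)}
  mul_mem' := by
    intro a b ha hb S
    rw [hb S, ha (b '' S), ← Set.image_comp]
    rfl
  one_mem' := by
    intro S
    simp
  inv_mem' := by
    intro a ha S
    rw [ha ((a⁻¹ : Equiv.Perm (L →ₐ[K] Ω)) '' S), ← Set.image_comp]
    have : (a ∘ (a⁻¹ : Equiv.Perm (L →ₐ[K] Ω))) = id := by
      funext x; simp
    rw [this, Set.image_id]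

lemma rowGroup_trans [Normal K Ω] {t : ℕ} (v : Fin t → L) (s u : L →ₐ[K] Ω) :
    ∃ π ∈ rowGroup (Ω := Ω) v, π s = u := by
  obtain ⟨g, hg⟩ := exists_galois s u
  let π : Equiv.Perm (L →ₐ[K] Ω) :=
    { toFun := fun σ => (g : Ω →ₐ[K] Ω).comp σ
      invFun := fun σ => (g.symm : Ω →ₐ[K] Ω).comp σ
      left_inv := by intro σ; ext x; simp
      right_inv := by intro σ; ext x; simp }
  refine ⟨π, ?_, ?_⟩
  · intro S
    constructor
    · intro h
      exact row_comp v g S h
    · intro h
      have h1 := row_comp v g.symm _ h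
      have h2 : ((fun σ : L →ₐ[K] Ω => (g.symm : Ω →ₐ[K] Ω).comp σ) '' (π '' S)) = S := by
        rw [← Set.image_comp]
        have : ((fun σ : L →ₐ[K] Ω => (g.symm : Ω →ₐ[K] Ω).comp σ) ∘ π) = id := by
          funext σ
          exact π.left_inv σ
        rw [this, Set.image_id]
      rw [h2] at h1
      exact h1
  · ext x
    exact hg x

variable [FiniteDimensional K L] [Algebra.IsSeparable K L] [IsAlgClosed Ω] [Normal K Ω]

/-- the embeddings are coloured with few colours such that rows of the same colour are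
independent -/
lemma exists_row_colour {t : ℕ} (v : Fin t → L) (hv : LinearIndependent K v) (m : ℕ)
    (hm : finrank K L * (finrank K L - t) ^ m < (finrank K L) ^ m) :
    ∃ c : (L →ₐ[K] Ω) → Fin m, ∀ j, LinearIndepOn Ω (row v) {σ | c σ = j} := by
  classical
  obtain ⟨S, hSt, hS⟩ := exists_indep_rows (Ω := Ω) v hv
  have hcard : Fintype.card (L →ₐ[K] Ω) = finrank K L := AlgHom.card K L Ω
  obtain ⟨π, c, hπ, hc⟩ := exists_colour (rowGroup (Ω := Ω) v) (rowGroup_trans v) S m (by
    rw [hcard, hSt]; exact hm)
  refine ⟨c, fun j => ?_⟩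
  have h1 := (hπ j S).1 hS
  apply h1.mono
  intro σ hσ
  have h2 := hc σ
  rw [Set.mem_ofPred_eq] at hσ
  rw [hσ] at h2
  rw [← Finset.mem_coe, Finset.coe_image] at h2
  exact h2

end galois

end Pool.Agent.W301.Lin
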