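import Mathlib
import Pool.Agent.W301.LinD
import Pool.Agent.W301.LinE

set_option autoImplicit false

namespace Pool.Agent.W301.Lin

open MvPolynomial Module

section degree

variable {k : Type*} [Field k] {ρ Θ : Type*} [Fintype ρ]

lemma totalDegree_aeval_le (Z : ρ → MvPolynomial Θ k) (hZ : ∀ l, (Z l).totalDegree ≤ 1)
    (f : MvPolynomial ρ k) : (aeval Z f).totalDegree ≤ f.totalDegree := by
  rw [aeval_def, eval₂_eq']
  refine (totalDegree_finsetSum _ _).trans (Finset.sup_le fun a ha => ?_)
  refine (totalDegree_mul _ _).trans ?_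
  rw [algebraMap_eq, totalDegree_C, zero_add]
  refine (totalDegree_finsetProd _ _).trans ?_
  calc ∑ i, (Z i ^ a i).totalDegree ≤ ∑ i, a i := by
        apply Finset.sum_le_sum
        intro i _
        refine (totalDegree_pow _ _).trans ?_
        calc a i * (Z i).totalDegree ≤ a i * 1 := Nat.mul_le_mul_left _ (hZ i)
          _ = a i := mul_one _
    _ = a.sum fun _ e => e := by rw [Finsupp.sum_fintype _ _ (fun _ => rfl)]
    _ ≤ f.totalDegree := le_totalDegree ha

lemma totalDegree_pderiv_le (f : MvPolynomial ρ k) (l : ρ) :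
    (pderiv l f).totalDegree ≤ f.totalDegree := by
  classical
  conv_lhs => rw [f.as_sum]
  rw [map_sum]
  refine (totalDegree_finsetSum _ _).trans (Finset.sup_le fun a ha => ?_)
  rw [pderiv_monomial]
  refine (totalDegree_monomial_le _ _).trans ?_
  calc ((a - Finsupp.single l 1).sum fun _ e => e) ≤ a.sum fun _ e => e := by
        rw [Finsupp.sum_fintype _ _ (fun _ => rfl), Finsupp.sum_fintype _ _ (fun _ => rfl)]
        apply Finset.sum_le_sum
        intro i _
        rw [Finsupp.tsub_apply]
        exact Nat.sub_le _ _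
    _ ≤ f.totalDegree := le_totalDegree ha

lemma totalDegree_det_le {ι : Type*} [Fintype ι] [DecidableEq ι] (M : Matrix ι ι (MvPolynomial Θ k))
    (δ : ℕ) (hM : ∀ i j, (M i j).totalDegree ≤ δ) :
    M.det.totalDegree ≤ Fintype.card ι * δ := by
  rw [Matrix.det_apply]
  refine (totalDegree_finsetSum _ _).trans (Finset.sup_le fun π _ => ?_)
  have h1 : (Equiv.Perm.sign π • ∏ i, M (π i) i).totalDegree ≤ (∏ i, M (π i) i).totalDegree := by
    rcases Int.units_eq_one_or (Equiv.Perm.sign π) with h | h
    · rw [h, one_smul]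
    · rw [h, Units.neg_smul, one_smul, totalDegree_neg]
  refine h1.trans ((totalDegree_finsetProd _ _).trans ?_)
  calc ∑ i, (M (π i) i).totalDegree ≤ ∑ _i : ι, δ := Finset.sum_le_sum fun i _ => hM _ _
    _ = Fintype.card ι * δ := by simp

end degree

section selection

variable {k : Type*} [Field k] {ρ Θ ι : Type*}

/-- every vector of values of the given functionals is attained -/
def Surj (z : ι → ρ → k) (op : ι → MvPolynomial ρ k →ₗ[k] MvPolynomial ρ k)
    (A : Set (ρ →₀ ℕ)) : Prop :=
  ∀ τ : ι → k, ∃ F ∈ restrictSupport k A, ∀ j, eval (z j) (op j F) = τ j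

variable [Fintype ι] [DecidableEq ι]

/-- the matrix of the functionals on selected monomials, with coordinates depending on
parameters -/
noncomputable def selMat (Z : ι → ρ → MvPolynomial Θ k)
    (op : ι → MvPolynomial ρ k →ₗ[k] MvPolynomial ρ k) (s : ι → ρ →₀ ℕ) :
    Matrix ι ι (MvPolynomial Θ k) :=
  Matrix.of fun i j => aeval (Z j) (op j (monomial (s i) 1))

omit [Fintype ι] [DecidableEq ι] in
lemma eval_aeval (Z : ρ → MvPolynomial Θ k) (T : Θ → k) (f : MvPolynomial ρ k) :
    eval T (aeval Z f) = eval (fun l => eval T (Z l)) f := by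
  have h : (eval T).comp (aeval Z : MvPolynomial ρ k →ₐ[k] MvPolynomial Θ k).toRingHom
      = (eval (fun l => eval T (Z l))) := by
    apply MvPolynomial.ringHom_ext
    · intro r; simp
    · intro i; simp
  exact RingHom.congr_fun h f

lemma eval_selMat_det (Z : ι → ρ → MvPolynomial Θ k)
    (op : ι → MvPolynomial ρ k →ₗ[k] MvPolynomial ρ k) (s : ι → ρ →₀ ℕ) (T : Θ → k) :
    eval T (selMat Z op s).det
      = (Matrix.of fun i j => eval (fun l => eval T (Z j l)) (op j (monomial (s i) 1))).det := by
  rw [RingHom.map_det]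
  congr 1
  ext i j
  simp only [RingHom.mapMatrix_apply, Matrix.map_apply, selMat, Matrix.of_apply]
  exact eval_aeval _ _ _

/-- selection of monomials -/
lemma exists_sel (z : ι → ρ → k) (op : ι → MvPolynomial ρ k →ₗ[k] MvPolynomial ρ k)
    (A : Set (ρ →₀ ℕ)) (h : Surj z op A) :
    ∃ s : ι → ρ →₀ ℕ, (∀ i, s i ∈ A) ∧
      (Matrix.of fun i j => eval (z j) (op j (monomial (s i) 1))).det ≠ 0 := by
  classical
  set W : Set (ι → k) := {τ | ∃ a ∈ A, τ = fun j => eval (z j) (op j (monomial a 1))} with hW
  have hspan : Submodule.span k W = ⊤ := by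
    rw [eq_top_iff]
    intro τ _
    obtain ⟨F, hF, hFτ⟩ := h τ
    have h1 : τ = ∑ a ∈ F.support, coeff a F • (fun j => eval (z j) (op j (monomial a 1))) := by
      funext j
      rw [← hFτ j]
      conv_lhs => rw [F.as_sum]
      rw [map_sum, map_sum, Finset.sum_apply]
      apply Finset.sum_congr rfl
      intro a _
      have : (monomial a) (coeff a F) = coeff a F • (monomial a (1 : k)) := by
        rw [smul_monomial, smul_eq_mul, mul_one]
      rw [this, map_smul, smul_eval]
      rfl
    rw [h1]
    refine Submodule.sum_mem _ fun a ha => Submodule.smul_mem _ _ (Submodule.subset_span ?_)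
    rw [mem_restrictSupport_iff] at hF
    exact ⟨a, hF ha, rfl⟩
  obtain ⟨f, hf, hli⟩ := exists_fin_indep (K := k) W (Fintype.card ι) (by
    rw [hspan, finrank_top, Module.finrank_fintype_fun_eq_card])
  choose a haA ha using hf
  set e := Fintype.equivFin ι with he
  refine ⟨fun i => a (e i), fun i => haA _, ?_⟩
  have h2 : LinearIndependent k
      (Matrix.of fun i j => eval (z j) (op j (monomial (a (e i)) 1))).row := by
    have h3 := hli.comp e e.injective
    convert! h3 using 1
    funext i
    rw [Function.comp_apply, ha (e i)]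
    rfl
  rw [Matrix.linearIndependent_rows_iff_isUnit, Matrix.isUnit_iff_isUnit_det] at h2
  exact h2.ne_zero

lemma surj_of_det (z : ι → ρ → k) (op : ι → MvPolynomial ρ k →ₗ[k] MvPolynomial ρ k)
    (A : Set (ρ →₀ ℕ)) (s : ι → ρ →₀ ℕ) (hs : ∀ i, s i ∈ A)
    (h : (Matrix.of fun i j => eval (z j) (op j (monomial (s i) 1))).det ≠ 0) :
    Surj z op A := by
  classical
  intro τ
  set M : Matrix ι ι k := Matrix.of fun i j => eval (z j) (op j (monomial (s i) 1)) with hM
  set c : ι → k := Matrix.vecMul τ M⁻¹ with hc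
  have h1 : Matrix.vecMul c M = τ := by
    rw [hc, Matrix.vecMul_vecMul, Matrix.nonsing_inv_mul _ (Ne.isUnit h), Matrix.vecMul_one]
  refine ⟨∑ i, c i • monomial (s i) 1, ?_, ?_⟩
  · refine Submodule.sum_mem _ fun i _ => Submodule.smul_mem _ _ ?_
    rw [mem_restrictSupport_iff]
    intro b hb
    rw [Finset.mem_coe] at hb
    have := support_monomial_subset hb
    rw [Finset.mem_singleton] at this
    rw [this]
    exact hs i
  · intro j
    rw [map_sum, map_sum, ← h1]
    simp only [Matrix.vecMul, dotProduct]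
    apply Finset.sum_congr rfl
    intro i _
    rw [map_smul, smul_eval]
    rfl

end selection

end Pool.Agent.W301.Lin
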