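import Mathlib
import Pool.Agent.W301.LinF

set_option autoImplicit false

namespace Pool.Agent.W301.Lin

open MvPolynomial Module

section jets

variable {k : Type*} [Field k] {r : ℕ}

/-- value and partial derivatives -/
noncomputable def opJ : Option (Fin r) → (MvPolynomial (Fin r) k →ₗ[k] MvPolynomial (Fin r) k)
  | none => LinearMap.id
  | some l => (pderiv l).toLinearMap

/-- exponents of degree at most `d` -/
def Expd (r d : ℕ) : Set (Fin r →₀ ℕ) := {a | (a.sum fun _ e => e) ≤ d}

lemma mem_Expd_iff (f : MvPolynomial (Fin r) k) (d : ℕ) :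
    f ∈ restrictSupport k (Expd r d) ↔ f.totalDegree ≤ d := by
  rw [mem_restrictSupport_iff, totalDegree, Finset.sup_le_iff]
  rfl

lemma jetSurj_iff {D : Type*} (x : D → Fin r → k) (d : ℕ) :
    JetSurj x d ↔ Surj (fun j : D × Option (Fin r) => x j.1) (fun j => opJ j.2) (Expd r d) := by
  constructor
  · intro h τ
    obtain ⟨f, hf, hf'⟩ := h (fun i => τ (i, none)) (fun i l => τ (i, some l))
    refine ⟨f, (mem_Expd_iff f d).2 hf, ?_⟩
    rintro ⟨i, _ | l⟩
    · exact (hf' i).1
    · exact (hf' i).2 l
  · intro h a b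
    obtain ⟨f, hf, hf'⟩ := h (fun j => match j.2 with
      | none => a j.1
      | some l => b j.1 l)
    refine ⟨f, (mem_Expd_iff f d).1 hf, fun i => ⟨hf' (i, none), fun l => hf' (i, some l)⟩⟩

end jets

/-- values on independent vectors can be prescribed -/
lemma exists_solve {k : Type*} [Field k] {D : Type*} {t : ℕ} (R : D → Fin t → k)
    (hR : LinearIndependent k R) (τ : D → k) : ∃ T : Fin t → k, ∀ i, ∑ j, T j * R i j = τ i := by
  obtain ⟨φ, hφ⟩ := LinearMap.exists_extend ((Basis.span hR).constr k τ)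
  have h1 : ∀ i, φ (R i) = τ i := by
    intro i
    have h2 := LinearMap.congr_fun hφ (Basis.span hR i)
    rw [Basis.constr_basis, LinearMap.comp_apply, Submodule.subtype_apply, Basis.span_apply] at h2
    exact h2
  refine ⟨fun j => φ (fun i => if j = i then 1 else 0), fun i => ?_⟩
  rw [← h1 i, LinearMap.pi_apply_eq_sum_univ φ (R i)]
  apply Finset.sum_congr rfl
  intro j _
  rw [smul_eq_mul, mul_comm]

section config

variable {K L Ω : Type*} [Field K] [Field L] [Field Ω] [Algebra K L] [Algebra K Ω]

/-- linear forms in the parameters -/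
noncomputable def linForm {Θ : Type*} {r t : ℕ} (emb : Fin r → Fin t → Θ) (y : Fin t → Ω) (l : Fin r) :
    MvPolynomial Θ Ω := ∑ j, X (emb l j) * C (y j)

lemma linForm_degree {Θ : Type*} {r t : ℕ} (emb : Fin r → Fin t → Θ) (y : Fin t → Ω) (l : Fin r) :
    (linForm emb y l).totalDegree ≤ 1 := by
  unfold linForm
  refine (totalDegree_finsetSum _ _).trans (Finset.sup_le fun j _ => ?_)
  refine (totalDegree_mul _ _).trans ?_
  rw [totalDegree_C, add_zero]
  exact (totalDegree_X _).le

lemma eval_linForm {Θ : Type*} {r t : ℕ} (emb : Fin r → Fin t → Θ) (y : Fin t → Ω) (l : Fin r)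
    (T : Θ → Ω) : eval T (linForm emb y l) = ∑ j, T (emb l j) * y j := by
  unfold linForm
  simp

/-- one choice of the first coordinates is good for all colours -/
lemma exists_common [IsAlgClosed Ω] {t r d n u : ℕ} (v : Fin t → L) (c : Fin n → Fin u → Bool)
    (e : Fin n ≃ (L →ₐ[K] Ω)) (hrd : (r + 1) * n ≤ (r + d).choose r)
    (hc : ∀ w, LinearIndependent Ω (fun i : {i // c i = w} => row v (e i))) :
    ∃ T : Fin r × Fin t → Ω, ∀ w,
      JetSurj (fun i : {i // c i = w} => fun l => ∑ j, T (l, j) * e i (v j)) (d + 1) := by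
  classical
  -- one colour
  have h1 : ∀ w, ∃ p : MvPolynomial (Fin r × Fin t) Ω, p ≠ 0 ∧ ∀ T, eval T p ≠ 0 →
      JetSurj (fun i : {i // c i = w} => fun l => ∑ j, T (l, j) * e i (v j)) (d + 1) := by
    intro w
    set D := {i // c i = w} with hD
    have hDn : Fintype.card D ≤ n := by
      have := Fintype.card_subtype_le (fun i : Fin n => c i = w)
      simpa using this
    obtain ⟨x, hx⟩ := exists_jet (k := Ω) (r := r) (d := d) (Fintype.card D)
      ((Nat.mul_le_mul_left _ hDn).trans hrd)
    have hx' := hx.comp (Fintype.equivFin D) (Fintype.equivFin D).injective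
    set x' := x ∘ (Fintype.equivFin D) with hx'd
    have h2 : ∀ l : Fin r, ∃ T : Fin t → Ω, ∀ i : D, ∑ j, T j * row v (e i) j = x' i l :=
      fun l => exists_solve _ (hc w) (fun i => x' i l)
    choose T0 hT0 using h2
    set Z : D × Option (Fin r) → Fin r → MvPolynomial (Fin r × Fin t) Ω :=
      fun j => linForm (fun l j => (l, j)) (fun j' => e j.1 (v j')) with hZ
    have hZT : ∀ (T : Fin r × Fin t → Ω) (j : D × Option (Fin r)) (l : Fin r),
        eval T (Z j l) = ∑ j', T (l, j') * e j.1 (v j') := fun T j l => eval_linForm _ _ _ _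
    have h3 : Surj (fun j : D × Option (Fin r) => x' j.1) (fun j => opJ j.2) (Expd r (d + 1)) :=
      (jetSurj_iff x' (d + 1)).1 hx'
    obtain ⟨s, hs, hdet⟩ := exists_sel _ _ _ h3
    refine ⟨(selMat Z (fun j => opJ j.2) s).det, ?_, ?_⟩
    · intro h0
      apply hdet
      have h4 := eval_selMat_det Z (fun j => opJ j.2) s (fun p => T0 p.1 p.2)
      rw [h0, map_zero] at h4
      rw [h4]
      congr 1
      ext i j
      simp only [Matrix.of_apply]
      congr 2
      funext l
      rw [hZT]
      exact (hT0 l j.1).symm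
    · intro T hT
      rw [eval_selMat_det] at hT
      rw [jetSurj_iff]
      have h5 := surj_of_det (fun j l => eval T (Z j l)) (fun j => opJ j.2) (Expd r (d + 1)) s hs hT
      convert! h5 using 1
      funext j l
      rw [hZT]
  choose p hp0 hp using h1
  have h2 : ∏ w, p w ≠ 0 := Finset.prod_ne_zero_iff.2 fun w _ => hp0 w
  obtain ⟨T, hT⟩ : ∃ T, eval T (∏ w, p w) ≠ 0 := by
    by_contra hne
    push Not at hne
    apply h2
    apply MvPolynomial.funext
    intro T
    rw [hne T, map_zero]
  refine ⟨T, fun w => hp w T ?_⟩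
  rw [map_prod] at hT
  exact Finset.prod_ne_zero_iff.1 hT w (Finset.mem_univ _)

end config

end Pool.Agent.W301.Lin
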