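import Mathlib
import Pool.Agent.W301.LinF2

set_option autoImplicit false

namespace Pool.Agent.W301.Lin

open MvPolynomial Module

section

variable {K L Ω : Type*} [Field K] [Field L] [Field Ω] [Algebra K L] [Algebra K Ω]

/-- the integral combinations of the given vectors -/
def combo {t r n u : ℕ} (v : Fin t → L) (w : Fin n → L)
    (T : (Fin r × Fin t) ⊕ (Fin u × Fin n) → ℕ) : Fin r ⊕ Fin u → L :=
  Sum.elim (fun l => ∑ j, (T (Sum.inl (l, j)) : L) * v j)
    (fun l => ∑ j, (T (Sum.inr (l, j)) : L) * w j)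

/-- the coordinates as polynomials in the parameters -/
noncomputable def Zpoly {t r n u : ℕ} (y : Fin t → Ω) (y' : Fin n → Ω) : (Fin r ⊕ Fin u) →
    MvPolynomial ((Fin r × Fin t) ⊕ (Fin u × Fin n)) Ω :=
  Sum.elim (linForm (fun l j' => Sum.inl (l, j')) y) (linForm (fun l j' => Sum.inr (l, j')) y')

lemma Zpoly_degree {t r n u : ℕ} (y : Fin t → Ω) (y' : Fin n → Ω) (l : Fin r ⊕ Fin u) :
    (Zpoly y y' l).totalDegree ≤ 1 := by
  rcases l with l | l
  · exact linForm_degree (fun (l : Fin r) j' => Sum.inl (l, j')) y l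
  · exact linForm_degree (fun (l : Fin u) j' => Sum.inr (l, j')) y' l

lemma eval_Zpoly_inl {t r n u : ℕ} (y : Fin t → Ω) (y' : Fin n → Ω) (l : Fin r)
    (T : (Fin r × Fin t) ⊕ (Fin u × Fin n) → Ω) :
    eval T (Zpoly y y' (Sum.inl l)) = ∑ j, T (Sum.inl (l, j)) * y j :=
  eval_linForm (fun (l : Fin r) j' => Sum.inl (l, j')) y l T

lemma eval_Zpoly_inr {t r n u : ℕ} (y : Fin t → Ω) (y' : Fin n → Ω) (l : Fin u)
    (T : (Fin r × Fin t) ⊕ (Fin u × Fin n) → Ω) :
    eval T (Zpoly y y' (Sum.inr l)) = ∑ j, T (Sum.inr (l, j)) * y' j :=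
  eval_linForm (fun (l : Fin u) j' => Sum.inr (l, j')) y' l T

/-- the gradient operators -/
noncomputable def opG {r u n : ℕ} (j : Fin n × (Fin r ⊕ Fin u)) :
    MvPolynomial (Fin r ⊕ Fin u) Ω →ₗ[Ω] MvPolynomial (Fin r ⊕ Fin u) Ω :=
  (pderiv j.2).toLinearMap

lemma exists_classes [FiniteDimensional K L] [Algebra.IsSeparable K L] [IsAlgClosed Ω]
    [Normal K Ω] {t n u m : ℕ} (v : Fin t → L) (hv : LinearIndependent K v)
    (hn : finrank K L = n) (e : Fin n ≃ (L →ₐ[K] Ω))
    (hm : n * (n - t) ^ m < n ^ m) (hmu : m ≤ 2 ^ u) :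
    ∃ c' : Fin n → Fin u → Bool,
      ∀ w, LinearIndependent Ω (fun i : {i // c' i = w} => row v (e i)) := by
  classical
  obtain ⟨c, hc⟩ := exists_row_colour (Ω := Ω) v hv m (by rw [hn]; exact hm)
  obtain ⟨g⟩ : Nonempty (Fin m ↪ (Fin u → Bool)) := by
    rw [Function.Embedding.nonempty_iff_card_le]
    simpa using hmu
  refine ⟨fun i => g (c (e i)), fun w => ?_⟩
  rcases isEmpty_or_nonempty {i // g (c (e i)) = w} with hemp | ⟨⟨i0, hi0⟩⟩
  · exact linearIndependent_empty_type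
  · set Sj : Set (L →ₐ[K] Ω) := {σ | c σ = c (e i0)} with hSj
    have h1 : ∀ i : {i // g (c (e i)) = w}, e i.1 ∈ Sj := by
      intro i
      rw [hSj, Set.mem_ofPred_eq]
      apply g.injective
      rw [i.2, hi0]
    have h2 : LinearIndependent Ω (fun σ : Sj => row v σ.1) := hc (c (e i0))
    let f : {i // g (c (e i)) = w} → Sj := fun i => ⟨e i.1, h1 i⟩
    have hf : Function.Injective f := by
      intro a b hab
      have := congrArg Subtype.val hab
      exact Subtype.ext (e.injective this)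
    exact h2.comp f hf

lemma exists_code [FiniteDimensional K L] [Algebra.IsSeparable K L] [IsAlgClosed Ω]
    {n u : ℕ} (w : Fin n → L) (hw : LinearIndependent K w)
    (e : Fin n ≃ (L →ₐ[K] Ω)) (c' : Fin n → Fin u → Bool) :
    ∃ U : Fin u → Fin n → Ω, ∀ l i, ∑ j, U l j * e i (w j) = code (c' i) l := by
  have hRw : LinearIndependent Ω (fun i => row w (e i)) := by
    apply linearIndependent_of_top_le_span_of_card_eq_finrank
    · have h1 : Set.range (fun i => row w (e i)) = Set.range (row (K := K) (Ω := Ω) w) := by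
        ext y
        constructor
        · rintro ⟨i, rfl⟩; exact ⟨e i, rfl⟩
        · rintro ⟨σ, rfl⟩; exact ⟨e.symm σ, by simp⟩
      rw [h1, span_row w hw]
    · rw [Module.finrank_fin_fun, Fintype.card_fin]
  have hU : ∀ l : Fin u, ∃ U : Fin n → Ω, ∀ i, ∑ j, U j * row w (e i) j = code (c' i) l :=
    fun l => exists_solve _ hRw (fun i => code (c' i) l)
  choose U1 hU1 using hU
  exact ⟨U1, hU1⟩

/-- the determinant is a nonzero polynomial in the coordinates -/
lemma exists_poly [FiniteDimensional K L] [Algebra.IsSeparable K L] [IsAlgClosed Ω]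
    [Normal K Ω] {t r d n u m : ℕ} (v : Fin t → L) (hv : LinearIndependent K v)
    (w : Fin n → L) (hw : LinearIndependent K w) (hn : finrank K L = n)
    (e : Fin n ≃ (L →ₐ[K] Ω)) (hrd : (r + 1) * n ≤ (r + d).choose r)
    (hm : n * (n - t) ^ m < n ^ m) (hmu : m ≤ 2 ^ u) :
    ∃ s : (Fin n × (Fin r ⊕ Fin u)) → (Fin r ⊕ Fin u →₀ ℕ),
      (∀ i, s i ∈ Expo r u (d + 1) (2 * u + 1)) ∧
      (selMat (fun j => Zpoly (fun j' => e j.1 (v j')) (fun j' => e j.1 (w j'))) opG s).det ≠ 0 := by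
  classical
  obtain ⟨c', hcw⟩ := exists_classes v hv hn e hm hmu
  obtain ⟨T1, hT1⟩ := exists_common (r := r) (d := d) v c' e hrd hcw
  obtain ⟨U1, hU1⟩ := exists_code w hw e c'
  set x : Fin n → Fin r → Ω := fun i l => ∑ j, T1 (l, j) * e i (v j) with hx
  have hgrad := exists_gradient c' x hT1
  set z : Fin n × (Fin r ⊕ Fin u) → (Fin r ⊕ Fin u) → Ω :=
    fun j => Sum.elim (x j.1) (code (c' j.1)) with hz
  have hsurj : Surj z opG (Expo r u (d + 1) (2 * u + 1)) := by
    intro τ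
    obtain ⟨F, hF, hF'⟩ := hgrad (fun i l => τ (i, l))
    exact ⟨F, hF, fun j => hF' j.1 j.2⟩
  obtain ⟨s, hs, hdet⟩ := exists_sel z opG _ hsurj
  refine ⟨s, hs, ?_⟩
  intro h0
  apply hdet
  have h4 := eval_selMat_det
    (fun j => Zpoly (fun j' => e j.1 (v j')) (fun j' => e j.1 (w j'))) opG s
    (Sum.elim T1 (fun p => U1 p.1 p.2))
  rw [h0, map_zero] at h4
  rw [h4]
  have h5 : ∀ j : Fin n × (Fin r ⊕ Fin u), z j = fun l =>
      eval (Sum.elim T1 (fun p => U1 p.1 p.2))
        (Zpoly (fun j' => e j.1 (v j')) (fun j' => e j.1 (w j')) l) := by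
    intro j
    funext l
    rcases l with l | l
    · rw [eval_Zpoly_inl]
      rfl
    · rw [eval_Zpoly_inr]
      exact (hU1 l j.1).symm
  congr 1
  ext i j
  simp only [Matrix.of_apply]
  rw [h5 j]

end

end Pool.Agent.W301.Lin
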