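import Mathlib
import Pool.Agent.W301.LinF3

set_option autoImplicit false

namespace Pool.Agent.W301.Lin

open MvPolynomial Module

section

variable {K L Ω : Type*} [Field K] [Field L] [Field Ω] [Algebra K L] [Algebra K Ω]

/-- a nonzero polynomial is nonzero at a point with small natural coordinates -/
lemma exists_nat_point {Θ : Type*} [Finite Θ] [CharZero Ω] (P : MvPolynomial Θ Ω) (hP : P ≠ 0)
    (B : ℕ) (hB : P.totalDegree ≤ B) :
    ∃ T : Θ → ℕ, (∀ p, T p ≤ B) ∧ eval (fun p => (T p : Ω)) P ≠ 0 := by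
  classical
  obtain ⟨T, hT, hTP⟩ : ∃ T : Θ → Ω,
      (∀ p, T p ∈ (Finset.range (B + 1)).image (Nat.cast : ℕ → Ω)) ∧ eval T P ≠ 0 := by
    by_contra hne
    push Not at hne
    apply hP
    apply MvPolynomial.eq_zero_of_eval_zero_at_prod_finset P
      (fun _ => (Finset.range (B + 1)).image (Nat.cast : ℕ → Ω))
    · intro p
      rw [Finset.card_image_of_injective _ Nat.cast_injective, Finset.card_range]
      exact Nat.lt_succ_of_le ((degreeOf_le_totalDegree _ _).trans hB)
    · exact hne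
  choose T' hT'1 hT'2 using fun p => Finset.mem_image.1 (hT p)
  refine ⟨T', fun p => ?_, ?_⟩
  · have := Finset.mem_range.1 (hT'1 p)
    omega
  · have : (fun p => (T' p : Ω)) = T := funext hT'2
    rw [this]
    exact hTP

lemma selMat_degree {t r n u : ℕ} (y : Fin n → Fin t → Ω) (y' : Fin n → Fin n → Ω) (d δ : ℕ)
    (s : (Fin n × (Fin r ⊕ Fin u)) → (Fin r ⊕ Fin u →₀ ℕ)) (hs : ∀ i, s i ∈ Expo r u d δ) :
    (selMat (fun j : Fin n × (Fin r ⊕ Fin u) => Zpoly (y j.1) (y' j.1)) opG s).det.totalDegree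
      ≤ (n * (r + u)) * (d + δ) := by
  have h1 := totalDegree_det_le
    (selMat (fun j : Fin n × (Fin r ⊕ Fin u) => Zpoly (y j.1) (y' j.1)) opG s) (d + δ) (by
    intro i j
    refine (totalDegree_aeval_le _ (Zpoly_degree _ _) _).trans ?_
    refine (totalDegree_pderiv_le _ _).trans ?_
    refine (totalDegree_monomial_le _ _).trans ?_
    rw [Finsupp.sum_fintype _ _ (fun _ => rfl), Fintype.sum_sum_type]
    exact Nat.add_le_add (hs i).1 (hs i).2)
  simpa using h1

theorem exists_config [FiniteDimensional K L] [Algebra.IsSeparable K L] [IsAlgClosed Ω]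
    [Normal K Ω] [CharZero Ω] {t r d n u m : ℕ} (v : Fin t → L) (hv : LinearIndependent K v)
    (w : Fin n → L) (hw : LinearIndependent K w) (hn : finrank K L = n)
    (e : Fin n ≃ (L →ₐ[K] Ω)) (hrd : (r + 1) * n ≤ (r + d).choose r)
    (hm : n * (n - t) ^ m < n ^ m) (hmu : m ≤ 2 ^ u) :
    ∃ (T : (Fin r × Fin t) ⊕ (Fin u × Fin n) → ℕ)
      (s : (Fin n × (Fin r ⊕ Fin u)) → (Fin r ⊕ Fin u →₀ ℕ)),
      (∀ p, T p ≤ (n * (r + u)) * (d + 1 + (2 * u + 1))) ∧
      (∀ i, s i ∈ Expo r u (d + 1) (2 * u + 1)) ∧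
      (Matrix.of fun (i j : Fin n × (Fin r ⊕ Fin u)) =>
        eval (fun l => e j.1 (combo v w T l)) (pderiv j.2 (monomial (s i) (1 : Ω)))).det ≠ 0 := by
  obtain ⟨s, hs, hP⟩ := exists_poly (r := r) (d := d) v hv w hw hn e hrd hm hmu
  obtain ⟨T, hT, hTP⟩ := exists_nat_point _ hP ((n * (r + u)) * (d + 1 + (2 * u + 1)))
    (selMat_degree (fun i j' => e i (v j')) (fun i j' => e i (w j')) _ _ s hs)
  refine ⟨T, s, hT, hs, ?_⟩
  rw [eval_selMat_det] at hTP
  have h5 : ∀ j : Fin n × (Fin r ⊕ Fin u), (fun l => e j.1 (combo v w T l)) = fun l =>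
      eval (fun p => (T p : Ω))
        (Zpoly (fun j' => e j.1 (v j')) (fun j' => e j.1 (w j')) l) := by
    intro j
    funext l
    rcases l with l | l
    · rw [eval_Zpoly_inl]
      simp only [combo, Sum.elim_inl]
      rw [map_sum]
      apply Finset.sum_congr rfl
      intro j' _
      rw [map_mul, map_natCast]
    · rw [eval_Zpoly_inr]
      simp only [combo, Sum.elim_inr]
      rw [map_sum]
      apply Finset.sum_congr rfl
      intro j' _
      rw [map_mul, map_natCast]
  have h6 : (Matrix.of fun (i j : Fin n × (Fin r ⊕ Fin u)) =>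
        eval (fun l => e j.1 (combo v w T l)) (pderiv j.2 (monomial (s i) (1 : Ω))))
      = (Matrix.of fun (i j : Fin n × (Fin r ⊕ Fin u)) =>
        eval (fun l => eval (fun p => (T p : Ω))
          (Zpoly (fun j' => e j.1 (v j')) (fun j' => e j.1 (w j')) l))
          (opG j (monomial (s i) (1 : Ω)))) := by
    ext i j
    simp only [Matrix.of_apply]
    rw [h5 j]
    rfl
  rw [h6]
  exact hTP

end

end Pool.Agent.W301.Lin
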