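import Mathlib

set_option autoImplicit false

namespace Pool.Agent.W301.Lin

open MvPolynomial

section fibre

variable {ι : Type} [Fintype ι] [DecidableEq ι]

/-- the differential of a polynomial function -/
noncomputable def gradL (q : MvPolynomial ι ℂ) (z : ι → ℂ) : (ι → ℂ) →L[ℂ] ℂ :=
  ∑ j, (eval z (pderiv j q)) • (ContinuousLinearMap.proj j : (ι → ℂ) →L[ℂ] ℂ)

omit [DecidableEq ι] in
lemma gradL_apply (q : MvPolynomial ι ℂ) (z v : ι → ℂ) :
    gradL q z v = ∑ j, eval z (pderiv j q) * v j := by
  unfold gradL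
  rw [sum_apply]
  rfl

omit [DecidableEq ι] in
lemma hasStrictFDerivAt_eval (q : MvPolynomial ι ℂ) (z : ι → ℂ) :
    HasStrictFDerivAt (fun z : ι → ℂ => eval z q) (gradL q z) z := by
  classical
  induction q using MvPolynomial.induction_on with
  | C a =>
    have h1 : gradL (C a : MvPolynomial ι ℂ) z = 0 := by
      ext v
      rw [gradL_apply]
      simp
    rw [h1]
    simp only [eval_C]
    exact hasStrictFDerivAt_const _ _
  | add p q hp hq =>
    have h1 : gradL (p + q) z = gradL p z + gradL q z := by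
      ext v
      rw [add_apply, gradL_apply, gradL_apply, gradL_apply,
        ← Finset.sum_add_distrib]
      apply Finset.sum_congr rfl
      intro j _
      rw [map_add, map_add, add_mul]
    rw [h1]
    simp only [map_add]
    exact hp.add hq
  | mul_X p i hp =>
    have h2 : HasStrictFDerivAt (fun z : ι → ℂ => z i)
        (ContinuousLinearMap.proj i : (ι → ℂ) →L[ℂ] ℂ) z :=
      (ContinuousLinearMap.proj i : (ι → ℂ) →L[ℂ] ℂ).hasStrictFDerivAt
    have h3 := hp.mul h2
    have h1 : gradL (p * X i) z = eval z p • (ContinuousLinearMap.proj i : (ι → ℂ) →L[ℂ] ℂ)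
        + z i • gradL p z := by
      ext v
      rw [gradL_apply, add_apply, smul_apply,
        smul_apply, gradL_apply, ContinuousLinearMap.proj_apply, smul_eq_mul,
        smul_eq_mul, Finset.mul_sum]
      have h4 : ∀ j, eval z (pderiv j (p * X i)) * v j
          = (if j = i then eval z p * v j else 0) + z i * (eval z (pderiv j p) * v j) := by
        intro j
        rw [Derivation.leibniz, pderiv_X, smul_eq_mul, smul_eq_mul, map_add, map_mul, map_mul,
          eval_X, Pi.single_apply]
        by_cases hj : j = i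
        · subst hj; simp; ring
        · have : ¬ i = j := fun h => hj h.symm
          simp [hj, this]; ring
      rw [Finset.sum_congr rfl (fun j _ => h4 j), Finset.sum_add_distrib,
        Finset.sum_ite_eq' Finset.univ i (fun j => eval z p * v j), if_pos (Finset.mem_univ i)]
    rw [h1]
    simp only [map_mul, eval_X]
    exact h3

/-- the polynomial map -/
noncomputable def pmap (Q : ι → MvPolynomial ι ℂ) (z : ι → ℂ) : ι → ℂ := fun j => eval z (Q j)

lemma pmap_nhds (Q : ι → MvPolynomial ι ℂ) (z : ι → ℂ)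
    (hz : (Matrix.of fun i j => eval z (pderiv j (Q i))).det ≠ 0) :
    Filter.map (pmap Q) (nhds z) = nhds (pmap Q z) := by
  set M : Matrix ι ι ℂ := Matrix.of fun i j => eval z (pderiv j (Q i)) with hM
  have hunit : IsUnit M.det := Ne.isUnit hz
  let e : (ι → ℂ) ≃ₗ[ℂ] (ι → ℂ) := Matrix.toLinearEquiv' M
    ((Matrix.isUnit_iff_isUnit_det M).2 hunit).invertible
  let e' : (ι → ℂ) ≃L[ℂ] (ι → ℂ) := e.toContinuousLinearEquiv
  have h1 : HasStrictFDerivAt (pmap Q) (e' : (ι → ℂ) →L[ℂ] (ι → ℂ)) z := by
    rw [hasStrictFDerivAt_pi']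
    intro i
    have h2 : (ContinuousLinearMap.proj i : (ι → ℂ) →L[ℂ] ℂ).comp
        (e' : (ι → ℂ) →L[ℂ] (ι → ℂ)) = gradL (Q i) z := by
      ext v
      rw [gradL_apply]
      rfl
    rw [h2]
    exact hasStrictFDerivAt_eval (Q i) z
  exact h1.map_nhds_eq_of_equiv

omit [DecidableEq ι] in
/-- an algebraic relation between the `Q j` and a coordinate -/
lemma exists_relation (Q : ι → MvPolynomial ι ℂ) (i : ι) :
    ∃ R : MvPolynomial (Option ι) ℂ, R ≠ 0 ∧
      aeval (fun o : Option ι => o.elim (X i) Q) R = (0 : MvPolynomial ι ℂ) := by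
  by_contra hne
  push Not at hne
  have h1 : AlgebraicIndependent ℂ (fun o : Option ι => o.elim (X i) Q) := by
    rw [algebraicIndependent_iff]
    intro p hp
    by_contra h0
    exact hne p h0 hp
  have h2 := h1.cardinalMk_le_trdeg
  rw [MvPolynomial.trdeg_of_isDomain] at h2
  simp only [Cardinal.mk_fintype, Fintype.card_option, Cardinal.lift_natCast] at h2
  have h3 : Fintype.card ι + 1 ≤ Fintype.card ι := by exact_mod_cast h2
  omega

omit [Fintype ι] [DecidableEq ι] in
/-- bounding one coordinate on the generic fibre -/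
lemma exists_coord [Finite ι] (Q : ι → MvPolynomial ι ℂ) (i : ι) :
    ∃ (ℓ : MvPolynomial ι ℂ) (b : ℕ), ℓ ≠ 0 ∧ ∀ c : ι → ℂ, eval c ℓ ≠ 0 →
      ∃ Z : Finset ℂ, Z.card ≤ b ∧ ∀ z : ι → ℂ, pmap Q z = c → z i ∈ Z := by
  classical
  have : Fintype ι := Fintype.ofFinite ι
  obtain ⟨R, hR, hR0⟩ := exists_relation Q i
  set p : Polynomial (MvPolynomial ι ℂ) := optionEquivLeft ℂ ι R with hp
  have hp0 : p ≠ 0 := by
    intro h
    apply hR
    exact (optionEquivLeft ℂ ι).injective (by rw [← hp, h, map_zero])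
  refine ⟨p.leadingCoeff, p.natDegree, Polynomial.leadingCoeff_ne_zero.2 hp0, ?_⟩
  intro c hc
  set pc : Polynomial ℂ := p.map (eval c) with hpc
  have hpc0 : pc ≠ 0 := by
    intro h
    apply hc
    have := congrArg (fun q => Polynomial.coeff q p.natDegree) h
    rw [hpc, Polynomial.coeff_map] at this
    simpa using this
  refine ⟨pc.roots.toFinset, ?_, ?_⟩
  · calc pc.roots.toFinset.card ≤ pc.roots.card := Multiset.toFinset_card_le _
      _ ≤ pc.natDegree := Polynomial.card_roots' _
      _ ≤ p.natDegree := Polynomial.natDegree_map_le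
  · intro z hz
    rw [Multiset.mem_toFinset, Polynomial.mem_roots hpc0, Polynomial.IsRoot.def]
    have h1 : ∀ S : MvPolynomial (Option ι) ℂ,
        ((optionEquivLeft ℂ ι S).map (eval c)).eval (z i)
          = eval z (aeval (fun o : Option ι => o.elim (X i) Q) S) := by
      intro S
      have h2 : ((Polynomial.evalRingHom (z i)).comp ((Polynomial.mapRingHom (eval c)).comp
          (optionEquivLeft ℂ ι : MvPolynomial (Option ι) ℂ →+* _)))
          = (eval z).comp (aeval (fun o : Option ι => o.elim (X i) Q) :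
            MvPolynomial (Option ι) ℂ →ₐ[ℂ] MvPolynomial ι ℂ).toRingHom := by
        apply MvPolynomial.ringHom_ext
        · intro r
          simp
        · rintro (_ | j)
          · simp
          · simp [← hz, pmap]
      exact RingHom.congr_fun h2 S
    rw [hpc, hp, h1, hR0, map_zero]

omit [DecidableEq ι] in
/-- a nonzero polynomial does not vanish on a neighbourhood -/
lemma exists_mem_nhds (P : MvPolynomial ι ℂ) (hP : P ≠ 0) (c : ι → ℂ) (W : Set (ι → ℂ))
    (hW : W ∈ nhds c) : ∃ c' ∈ W, eval c' P ≠ 0 := by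
  by_contra hne
  push Not at hne
  obtain ⟨ε, hε, hball⟩ := Metric.mem_nhds_iff.1 hW
  apply hP
  apply MvPolynomial.funext_set (fun j => Metric.ball (c j) ε)
    (fun j => infinite_of_mem_nhds (c j) (Metric.ball_mem_nhds _ hε))
  intro x hx
  rw [map_zero]
  apply hne
  apply hball
  rw [ball_pi _ hε]
  exact hx

/-- the number of nondegenerate points in a fibre is bounded independently of the fibre -/
theorem exists_fibre_bound (Q : ι → MvPolynomial ι ℂ) :
    ∃ B : ℕ, ∀ (c : ι → ℂ) (S : Finset (ι → ℂ)),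
      (∀ z ∈ S, pmap Q z = c ∧ (Matrix.of fun i j => eval z (pderiv j (Q i))).det ≠ 0) →
      S.card ≤ B := by
  classical
  choose ℓ b hℓ hb using fun i => exists_coord Q i
  refine ⟨∏ i, b i, fun c S hS => ?_⟩
  have hP : ∏ i, ℓ i ≠ 0 := Finset.prod_ne_zero_iff.2 fun i _ => hℓ i
  obtain ⟨U, hU, hdisj⟩ := (S.finite_toSet).t2_separation
  have h1 : ∀ z ∈ S, pmap Q '' U z ∈ nhds c := by
    intro z hz
    have h2 := pmap_nhds Q z (hS z hz).2
    rw [(hS z hz).1] at h2
    rw [← h2]
    exact Filter.image_mem_map ((hU z).2.mem_nhds (hU z).1)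
  have h2 : (⋂ z ∈ S, pmap Q '' U z) ∈ nhds c := (Filter.biInter_finset_mem S).2 h1
  obtain ⟨c', hc', hPc'⟩ := exists_mem_nhds _ hP c _ h2
  rw [map_prod, Finset.prod_ne_zero_iff] at hPc'
  have h3 : ∀ z : S, ∃ z' ∈ U z.1, pmap Q z' = c' := by
    intro z
    have := Set.mem_iInter₂.1 hc' z.1 z.2
    exact this
  choose g hgU hg using h3
  have hginj : Function.Injective g := by
    intro z1 z2 h
    by_contra hne
    have h4 : (z1 : ι → ℂ) ≠ z2 := fun h => hne (Subtype.ext h)
    have h5 := hdisj z1.2 z2.2 h4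
    exact Set.disjoint_left.1 h5 (hgU z1) (h ▸ hgU z2)
  choose Z hZ1 hZ2 using fun i => hb i c' (hPc' i (Finset.mem_univ i))
  calc S.card = (Finset.univ.image g).card := by
        rw [Finset.card_image_of_injective _ hginj, Finset.card_univ, Fintype.card_coe]
    _ ≤ (Fintype.piFinset Z).card := by
        apply Finset.card_le_card
        intro z' hz'
        obtain ⟨z, _, rfl⟩ := Finset.mem_image.1 hz'
        rw [Fintype.mem_piFinset]
        exact fun i => hZ2 i _ (hg z)
    _ = ∏ i, (Z i).card := Fintype.card_piFinset _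
    _ ≤ ∏ i, b i := Finset.prod_le_prod' fun i _ => hZ1 i

end fibre

end Pool.Agent.W301.Lin
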