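import Mathlib
import Pool.Agent.W301.LinG

set_option autoImplicit false

namespace Pool.Agent.W301.Lin

open MvPolynomial

section

variable {n r u : ℕ}

/-- the power sums -/
noncomputable def Qs (s : (Fin n × (Fin r ⊕ Fin u)) → (Fin r ⊕ Fin u →₀ ℕ)) :
    (Fin n × (Fin r ⊕ Fin u)) → MvPolynomial (Fin n × (Fin r ⊕ Fin u)) ℂ :=
  fun i => ∑ a, rename (fun l => (a, l)) (monomial (s i) (1 : ℂ))

lemma eval_Qs (s : (Fin n × (Fin r ⊕ Fin u)) → (Fin r ⊕ Fin u →₀ ℕ))
    (z : Fin n × (Fin r ⊕ Fin u) → ℂ) (i : Fin n × (Fin r ⊕ Fin u)) :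
    eval z (Qs s i) = ∑ a, eval (fun l => z (a, l)) (monomial (s i) (1 : ℂ)) := by
  unfold Qs
  rw [map_sum]
  apply Finset.sum_congr rfl
  intro a _
  rw [eval_rename]
  rfl

lemma eval_pderiv_Qs (s : (Fin n × (Fin r ⊕ Fin u)) → (Fin r ⊕ Fin u →₀ ℕ))
    (z : Fin n × (Fin r ⊕ Fin u) → ℂ) (i j : Fin n × (Fin r ⊕ Fin u)) :
    eval z (pderiv j (Qs s i))
      = eval (fun l => z (j.1, l)) (pderiv j.2 (monomial (s i) (1 : ℂ))) := by
  classical
  unfold Qs
  rw [map_sum, map_sum, Finset.sum_eq_single j.1]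
  · obtain ⟨a, l⟩ := j
    have hinj : Function.Injective (fun l : Fin r ⊕ Fin u => (a, l)) := fun x y h => by
      simpa using h
    have h1 := pderiv_rename hinj l (monomial (s i) (1 : ℂ))
    simp only
    rw [h1, eval_rename]
    rfl
  · intro a _ ha
    have : pderiv j (rename (fun l : Fin r ⊕ Fin u => (a, l)) (monomial (s i) (1 : ℂ))) = 0 := by
      apply pderiv_eq_zero_of_notMem_vars
      intro h
      have := vars_rename (fun l : Fin r ⊕ Fin u => (a, l)) (monomial (s i) (1 : ℂ)) h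
      rw [Finset.mem_image] at this
      obtain ⟨l, _, hl⟩ := this
      exact ha (by rw [← hl])
    rw [this, map_zero]
  · intro h; exact absurd (Finset.mem_univ _) h

lemma map_eval_monomial {Ω : Type*} [Field Ω] (f : Ω →+* ℂ) {ρ : Type*} (x : ρ → Ω) (a : ρ →₀ ℕ) :
    f (eval x (monomial a (1 : Ω))) = eval (fun l => f (x l)) (monomial a (1 : ℂ)) := by
  rw [eval_monomial, eval_monomial, one_mul, one_mul, Finsupp.prod, Finsupp.prod, map_prod]
  simp

lemma map_eval_pderiv {Ω : Type*} [Field Ω] (f : Ω →+* ℂ) {ρ : Type*} (x : ρ → Ω) (a : ρ →₀ ℕ)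
    (l : ρ) : f (eval x (pderiv l (monomial a (1 : Ω))))
      = eval (fun l => f (x l)) (pderiv l (monomial a (1 : ℂ))) := by
  rw [pderiv_monomial, pderiv_monomial, eval_monomial, eval_monomial, one_mul, one_mul,
    map_mul, map_natCast, Finsupp.prod, Finsupp.prod, map_prod]
  simp

/-- the nondegenerate points with given power sums are boundedly many -/
theorem exists_sel_bound (n r u : ℕ) (A : Finset (Fin r ⊕ Fin u →₀ ℕ)) :
    ∃ B : ℕ, ∀ s : (Fin n × (Fin r ⊕ Fin u)) → (Fin r ⊕ Fin u →₀ ℕ), (∀ i, s i ∈ A) →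
      ∀ (c : Fin n × (Fin r ⊕ Fin u) → ℂ) (S : Finset (Fin n × (Fin r ⊕ Fin u) → ℂ)),
      (∀ z ∈ S, (∀ i, ∑ a, eval (fun l => z (a, l)) (monomial (s i) (1 : ℂ)) = c i) ∧
        (Matrix.of fun (i j : Fin n × (Fin r ⊕ Fin u)) =>
          eval (fun l => z (j.1, l)) (pderiv j.2 (monomial (s i) (1 : ℂ)))).det ≠ 0) →
      S.card ≤ B := by
  classical
  choose B hB using fun s : (Fin n × (Fin r ⊕ Fin u)) → A =>
    exists_fibre_bound (Qs (fun i => (s i : Fin r ⊕ Fin u →₀ ℕ)))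
  refine ⟨∑ s, B s, fun s hs c S hS => ?_⟩
  set s' : (Fin n × (Fin r ⊕ Fin u)) → A := fun i => ⟨s i, hs i⟩ with hs'
  calc S.card ≤ B s' := by
        apply hB s' c S
        intro z hz
        obtain ⟨h1, h2⟩ := hS z hz
        constructor
        · funext i
          rw [pmap, eval_Qs]
          exact h1 i
        · convert! h2 using 3
          ext i j
          rw [eval_pderiv_Qs]
    _ ≤ ∑ s, B s := Finset.single_le_sum (fun _ _ => Nat.zero_le _) (Finset.mem_univ s')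

end

end Pool.Agent.W301.Lin
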