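import Mathlib
import Pool.Agent.W301.LinF4
import Pool.Agent.W301.LinH1

set_option autoImplicit false

namespace Pool.Agent.W301.Lin

open MvPolynomial Module NumberField

section

variable {K L : Type} [Field K] [NumberField K] [Field L] [NumberField L] [Algebra K L]

/-- the house of a trace -/
lemma house_trace_le (x : L) :
    house (Algebra.trace K L x) ≤ (finrank K L : ℝ) * house x := by
  have : FiniteDimensional K L := Module.Finite.of_restrictScalars_finite ℚ K L
  rw [house, canonicalEmbedding.norm_le_iff]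
  intro φ
  let _ := φ.toAlgebra
  have h1 : φ (Algebra.trace K L x) = ∑ σ : L →ₐ[K] ℂ, σ x :=
    trace_eq_sum_embeddings ℂ (K := K) (L := L) (x := x)
  rw [h1]
  calc ‖∑ σ : L →ₐ[K] ℂ, σ x‖ ≤ ∑ σ : L →ₐ[K] ℂ, ‖σ x‖ := norm_sum_le _ _
    _ ≤ ∑ _σ : L →ₐ[K] ℂ, house x := by
      apply Finset.sum_le_sum
      intro σ _
      exact norm_embedding_le_house x (σ : L →+* ℂ)
    _ = (finrank K L : ℝ) * house x := by
      rw [Finset.sum_const, Finset.card_univ, AlgHom.card, nsmul_eq_mul]

omit [NumberField K] [Algebra K L] in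
lemma house_prod_pow_le {ρ : Type} [Fintype ρ] (x : ρ → L) (a : ρ → ℕ) :
    house (∏ l, x l ^ a l) ≤ ∏ l, house (x l) ^ a l := by
  classical
  have : ∀ s : Finset ρ, house (∏ l ∈ s, x l ^ a l) ≤ ∏ l ∈ s, house (x l) ^ a l := by
    intro s
    induction s using Finset.induction_on with
    | empty =>
      simp only [Finset.prod_empty]
      have := house_intCast (K := L) 1
      simp at this
      exact this.le
    | insert l s hl ih =>
      rw [Finset.prod_insert hl, Finset.prod_insert hl]
      refine (house_mul_le _ _).trans ?_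
      exact mul_le_mul (house_pow_le _ _) ih (house_nonneg _) (pow_nonneg (house_nonneg _) _)
  exact this Finset.univ

omit [NumberField K] [Algebra K L] in
lemma house_comb_le {t : ℕ} (v : Fin t → L) (T : Fin t → ℕ) (B : ℕ) (H : ℝ)
    (hT : ∀ j, T j ≤ B) (hv : ∀ j, house (v j) ≤ H) :
    house (∑ j, (T j : L) * v j) ≤ t * B * H := by
  refine (house_sum_le_sum_house _ _).trans ?_
  calc ∑ j, house ((T j : L) * v j) ≤ ∑ _j : Fin t, (B : ℝ) * H := by
        apply Finset.sum_le_sum
        intro j _
        rw [house_nat_mul]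
        have : (T j : ℝ) ≤ B := by exact_mod_cast hT j
        exact mul_le_mul this (hv j) (house_nonneg _) (Nat.cast_nonneg _)
    _ = t * B * H := by
      rw [Finset.sum_const, Finset.card_univ, Fintype.card_fin, nsmul_eq_mul]; ring

omit [NumberField K] [NumberField L] [Algebra K L] in
lemma integral_comb {t : ℕ} (v : Fin t → L) (T : Fin t → ℕ) (hv : ∀ j, IsIntegral ℤ (v j)) :
    IsIntegral ℤ (∑ j, (T j : L) * v j) := by
  apply IsIntegral.sum
  intro j _
  apply IsIntegral.mul _ (hv j)
  have : ((T j : ℕ) : L) = algebraMap ℤ L (T j : ℤ) := by simp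
  rw [this]
  exact isIntegral_algebraMap

end

end Pool.Agent.W301.Lin
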