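import Mathlib
import Pool.Agent.W301.LinH2

set_option autoImplicit false

namespace Pool.Agent.W301.Lin

open MvPolynomial Module NumberField

/-- the bound for the houses -/
noncomputable def Hf (k0 n q : ℕ) (X : ℝ) : ℝ := (7 ^ (k0 * n) * √X) ^ ((1 : ℝ) / (k0 * q : ℕ))

lemma Hf_pow (k0 n q : ℕ) (X : ℝ) (hq : 0 < k0 * q) :
    (Hf k0 n q X) ^ (k0 * q) = 7 ^ (k0 * n) * √X := by
  unfold Hf
  rw [← Real.rpow_natCast, ← Real.rpow_mul (by positivity), one_div, inv_mul_cancel₀, Real.rpow_one]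
  exact_mod_cast hq.ne'

lemma one_le_Hf (k0 n q : ℕ) (X : ℝ) (hX : 1 ≤ X) : 1 ≤ Hf k0 n q X := by
  unfold Hf
  apply Real.one_le_rpow
  · have h1 : (1 : ℝ) ≤ 7 ^ (k0 * n) := one_le_pow₀ (by norm_num)
    have h2 : 1 ≤ √X := by rw [Real.one_le_sqrt]; exact hX
    nlinarith
  · positivity

section

variable {K : Type} [Field K] [NumberField K] {L : Type} [Field L] [NumberField L] [Algebra K L]

lemma Hf_spec {n k0 : ℕ} (hn : finrank K L = n) (hk0 : finrank ℚ K = k0) (q : ℕ) (hq : 0 < q)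
    (X : ℝ) (hX : 1 ≤ X) (hD : |(discr L : ℝ)| ≤ X) :
    6 ^ (finrank ℚ L) * √|(discr L : ℝ)| < (Hf k0 n q X) ^ (k0 * q) := by
  have : FiniteDimensional K L := Module.Finite.of_restrictScalars_finite ℚ K L
  have hk : 0 < k0 := by rw [← hk0]; exact Module.finrank_pos
  have hn0 : 0 < n := by rw [← hn]; exact Module.finrank_pos
  rw [Hf_pow _ _ _ _ (Nat.mul_pos hk hq), ← Module.finrank_mul_finrank ℚ K L, hn, hk0]
  have h1 : √|(discr L : ℝ)| ≤ √X := Real.sqrt_le_sqrt hD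
  have h2 : 0 < √X := Real.sqrt_pos.2 (by linarith)
  have h3 : (6 : ℝ) ^ (k0 * n) < 7 ^ (k0 * n) :=
    pow_lt_pow_left₀ (by norm_num) (by norm_num) (Nat.mul_pos hk hn0).ne'
  calc (6 : ℝ) ^ (k0 * n) * √|(discr L : ℝ)| ≤ 6 ^ (k0 * n) * √X := by gcongr
    _ < 7 ^ (k0 * n) * √X := by gcongr

variable {Ω : Type} [Field Ω] [Algebra K Ω] [IsAlgClosed Ω] [Normal K Ω] [CharZero Ω]

theorem exists_data {n k0 t r d u m : ℕ} (hn : finrank K L = n) (hk0 : finrank ℚ K = k0)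
    (ht : t ≤ n) (e : Fin n ≃ (L →ₐ[K] Ω)) (hrd : (r + 1) * n ≤ (r + d).choose r)
    (hm : n * (n - t) ^ m < n ^ m) (hmu : m ≤ 2 ^ u) (X : ℝ) (hX : 1 ≤ X)
    (hD : |(discr L : ℝ)| ≤ X) :
    ∃ (α : Fin r ⊕ Fin u → L) (s : (Fin n × (Fin r ⊕ Fin u)) → (Fin r ⊕ Fin u →₀ ℕ)),
      (∀ l, IsIntegral ℤ (α l)) ∧
      (∀ l, house (α (Sum.inl l))
        ≤ t * ((n * (r + u)) * (d + 1 + (2 * u + 1)) : ℕ) * Hf k0 n (n + 1 - t) X) ∧
      (∀ l, house (α (Sum.inr l))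
        ≤ n * ((n * (r + u)) * (d + 1 + (2 * u + 1)) : ℕ) * Hf k0 n ((n + 1) / 2) X ^ 2) ∧
      (∀ i, s i ∈ Expo r u (d + 1) (2 * u + 1)) ∧
      (Matrix.of fun (i j : Fin n × (Fin r ⊕ Fin u)) =>
        eval (fun l => e j.1 (α l)) (pderiv j.2 (monomial (s i) (1 : Ω)))).det ≠ 0 := by
  have : FiniteDimensional K L := Module.Finite.of_restrictScalars_finite ℚ K L
  have hn0 : 0 < n := by rw [← hn]; exact Module.finrank_pos
  obtain ⟨v, hv1, hv2⟩ := exists_small_indep K L t (by rw [hn]; exact ht)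
    (Hf k0 n (n + 1 - t) X) (one_le_Hf _ _ _ X hX) (by
      have := Hf_spec (K := K) (L := L) hn hk0 (n + 1 - t) (by omega) X hX hD
      rw [hk0, hn]
      exact this)
  obtain ⟨w', hw1', hw2'⟩ := exists_small_basis K L
    (Hf k0 n ((n + 1) / 2) X) (one_le_Hf _ _ _ X hX) (by
      have := Hf_spec (K := K) (L := L) hn hk0 ((n + 1) / 2) (by omega) X hX hD
      rw [hk0, hn]
      exact this)
  subst hn
  obtain ⟨T, s, hT, hs, hdet⟩ := exists_config (Ω := Ω) v hv2 w' hw2' rfl e hrd hm hmu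
  refine ⟨combo v w' T, s, ?_, ?_, ?_, hs, hdet⟩
  · rintro (l | l)
    · exact integral_comb v (fun j => T (Sum.inl (l, j))) (fun j => (hv1 j).1)
    · exact integral_comb w' (fun j => T (Sum.inr (l, j))) (fun j => (hw1' j).1)
  · intro l
    exact house_comb_le v (fun j => T (Sum.inl (l, j))) _ _ (fun j => hT _) (fun j => (hv1 j).2)
  · intro l
    exact house_comb_le w' (fun j => T (Sum.inr (l, j))) _ _ (fun j => hT _)
      (fun j => (hw1' j).2)

end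

end Pool.Agent.W301.Lin
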