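import Mathlib
import Pool.Agent.W301.LinH3

set_option autoImplicit false

namespace Pool.Agent.W301.Lin

open MvPolynomial Module NumberField

lemma finite_Expo (r u d e : ℕ) : (Expo r u d e).Finite := by
  apply Set.Finite.subset (Set.finite_Iic
    (Finsupp.equivFunOnFinite.symm (fun _ : Fin r ⊕ Fin u => d + e)))
  intro a ha
  rw [Set.mem_Iic]
  intro l
  simp only [Finsupp.equivFunOnFinite_symm_apply_apply]
  rcases l with l | l
  · have := Finset.single_le_sum (f := fun l => a (Sum.inl l)) (fun _ _ => Nat.zero_le _)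
      (Finset.mem_univ l)
    have h1 := ha.1
    omega
  · have := Finset.single_le_sum (f := fun l => a (Sum.inr l)) (fun _ _ => Nat.zero_le _)
      (Finset.mem_univ l)
    have h1 := ha.2
    omega

section

variable {K Ω : Type} [Field K] [Field Ω] [Algebra K Ω] [IsAlgClosed Ω] [CharZero K]

/-- a tuple which separates the embeddings generates the field -/
lemma adjoin_eq (L : IntermediateField K Ω) [FiniteDimensional K L] {ρ : Type} {n : ℕ}
    (α : ρ → L) (e : Fin n ≃ (L →ₐ[K] Ω))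
    (hdist : ∀ a b, (∀ l, e a (α l) = e b (α l)) → a = b) :
    IntermediateField.adjoin K (Set.range fun l => (α l : Ω)) = L := by
  set F := IntermediateField.adjoin K (Set.range fun l => (α l : Ω)) with hF
  have hle : F ≤ L := by
    rw [hF, IntermediateField.adjoin_le_iff]
    rintro _ ⟨l, rfl⟩
    exact (α l).2
  have hfinF : FiniteDimensional K F :=
    FiniteDimensional.of_injective (IntermediateField.inclusion hle).toLinearMap
      (IntermediateField.inclusion hle).injective
  have hmem : ∀ l, (α l : Ω) ∈ F := fun l => IntermediateField.subset_adjoin _ _ ⟨l, rfl⟩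
  have hinj : Function.Injective
      (fun σ : L →ₐ[K] Ω => σ.comp (IntermediateField.inclusion hle)) := by
    intro σ τ h
    obtain ⟨a, rfl⟩ := e.surjective σ
    obtain ⟨b, rfl⟩ := e.surjective τ
    congr 1
    apply hdist
    intro l
    exact DFunLike.congr_fun h (⟨α l, hmem l⟩ : F)
  have h1 : finrank K L ≤ finrank K F := by
    rw [← AlgHom.card K L Ω, ← AlgHom.card K F Ω]
    exact Fintype.card_le_of_injective _ hinj
  exact IntermediateField.eq_of_le_of_finrank_le hle h1

omit [CharZero K] [IsAlgClosed Ω] in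
lemma dist_of_det (L : IntermediateField K Ω) {n r u : ℕ}
    (α : Fin r ⊕ Fin u → L) (e : Fin n ≃ (L →ₐ[K] Ω)) (l0 : Fin r ⊕ Fin u)
    (s : (Fin n × (Fin r ⊕ Fin u)) → (Fin r ⊕ Fin u →₀ ℕ))
    (hdet : (Matrix.of fun (i j : Fin n × (Fin r ⊕ Fin u)) =>
        eval (fun l => e j.1 (α l)) (pderiv j.2 (monomial (s i) (1 : Ω)))).det ≠ 0) (a b : Fin n)
    (hab : ∀ l, e a (α l) = e b (α l)) : a = b := by
  by_contra hne
  apply hdet
  apply Matrix.det_zero_of_column_eq (i := (a, l0)) (j := (b, l0))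
  · intro h
    exact hne (congrArg Prod.fst h)
  · intro i
    simp only [Matrix.of_apply]
    have : (fun l => e a (α l)) = fun l => e b (α l) := funext hab
    rw [this]

end

/-- the fields which are counted -/
def FS (K : Type) [Field K] [NumberField K] (n : ℕ) (X : ℝ) :
    Set (IntermediateField K (AlgebraicClosure K)) :=
  {L | finrank K L = n ∧ ∃ h : NumberField L, ((|@NumberField.discr L _ h| : ℤ) : ℝ) ≤ X}

/-- the bound for the traces -/
noncomputable def Tb (k0 n t r u d : ℕ) (X : ℝ) : ℝ :=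
  n * (((n * ((n * (r + u)) * (d + 1 + (2 * u + 1))) + 1 : ℕ) * Hf k0 n (n + 1 - t) X) ^ (d + 1)
    * ((n * ((n * (r + u)) * (d + 1 + (2 * u + 1))) + 1 : ℕ) * Hf k0 n ((n + 1) / 2) X ^ 2)
      ^ (2 * u + 1))

lemma house_mono_le {L : Type} [Field L] [NumberField L] {r u d e : ℕ} (α : Fin r ⊕ Fin u → L)
    (A B : ℝ) (hA : 1 ≤ A) (hB : 1 ≤ B) (h1 : ∀ l, house (α (Sum.inl l)) ≤ A)
    (h2 : ∀ l, house (α (Sum.inr l)) ≤ B) (s : Fin r ⊕ Fin u →₀ ℕ) (hs : s ∈ Expo r u d e) :
    house (∏ l, α l ^ s l) ≤ A ^ d * B ^ e := by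
  refine (house_prod_pow_le α s).trans ?_
  rw [Fintype.prod_sum_type]
  apply mul_le_mul
  · calc ∏ l, house (α (Sum.inl l)) ^ s (Sum.inl l) ≤ ∏ l : Fin r, A ^ s (Sum.inl l) :=
          Finset.prod_le_prod (fun _ _ => pow_nonneg (house_nonneg _) _)
            (fun l _ => pow_le_pow_left₀ (house_nonneg _) (h1 l) _)
      _ = A ^ (∑ l, s (Sum.inl l)) := Finset.prod_pow_eq_pow_sum _ _ _
      _ ≤ A ^ d := pow_le_pow_right₀ hA hs.1
  · calc ∏ l, house (α (Sum.inr l)) ^ s (Sum.inr l) ≤ ∏ l : Fin u, B ^ s (Sum.inr l) :=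
          Finset.prod_le_prod (fun _ _ => pow_nonneg (house_nonneg _) _)
            (fun l _ => pow_le_pow_left₀ (house_nonneg _) (h2 l) _)
      _ = B ^ (∑ l, s (Sum.inr l)) := Finset.prod_pow_eq_pow_sum _ _ _
      _ ≤ B ^ e := pow_le_pow_right₀ hB hs.2
  · exact Finset.prod_nonneg fun _ _ => pow_nonneg (house_nonneg _) _
  · positivity

end Pool.Agent.W301.Lin
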