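import Mathlib
import Pool.Agent.W301.LinH4

set_option autoImplicit false

namespace Pool.Agent.W301.Lin

open MvPolynomial Module NumberField

section

variable (K : Type) [Field K] [NumberField K]

/-- the integers of `K` that can occur as traces -/
noncomputable def Box (T : ℝ) : Finset K := (finite_small K T).toFinset

lemma mem_Box (T : ℝ) (x : K) : x ∈ Box K T ↔ IsIntegral ℤ x ∧ house x ≤ T := by
  unfold Box
  rw [Set.Finite.mem_toFinset]
  rfl

lemma card_Box (T : ℝ) (hT : 0 ≤ T) : ((Box K T).card : ℝ) ≤ (2 * T + 1) ^ finrank ℚ K := by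
  have := card_int_le K T hT
  rw [Set.ncard_eq_toFinset_card _ (finite_small K T)] at this
  exact this

lemma exists_embedding : Nonempty (AlgebraicClosure K →+* ℂ) := by
  obtain ⟨τ⟩ : Nonempty (K →+* ℂ) := inferInstance
  let _ := τ.toAlgebra
  exact ⟨((IsAlgClosed.lift : AlgebraicClosure K →ₐ[K] ℂ) : AlgebraicClosure K →+* ℂ)⟩

variable {K}

/-- the nondegenerate points with given power sums -/
def Zset {n r u : ℕ} (s : (Fin n × (Fin r ⊕ Fin u)) → (Fin r ⊕ Fin u →₀ ℕ))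
    (c : Fin n × (Fin r ⊕ Fin u) → ℂ) : Set (Fin n × (Fin r ⊕ Fin u) → ℂ) :=
  {z | (∀ i, ∑ a, eval (fun l => z (a, l)) (monomial (s i) (1 : ℂ)) = c i) ∧
        (Matrix.of fun (i j : Fin n × (Fin r ⊕ Fin u)) =>
          eval (fun l => z (j.1, l)) (pderiv j.2 (monomial (s i) (1 : ℂ)))).det ≠ 0}

lemma exists_point (n r d u m t k0 : ℕ) (hn0 : 0 < n) (hr : 0 < r) (ht : t ≤ n)
    (hrd : (r + 1) * n ≤ (r + d).choose r)
    (hm : n * (n - t) ^ m < n ^ m) (hmu : m ≤ 2 ^ u) (X : ℝ) (hX : 1 ≤ X)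
    (hk0 : finrank ℚ K = k0) (f : AlgebraicClosure K →+* ℂ)
    (L : IntermediateField K (AlgebraicClosure K)) (hL : L ∈ FS K n X) :
    ∃ (s : (Fin n × (Fin r ⊕ Fin u)) → (Fin r ⊕ Fin u →₀ ℕ))
      (γ : (Fin n × (Fin r ⊕ Fin u)) → K) (z : Fin n × (Fin r ⊕ Fin u) → ℂ),
      (∀ i, s i ∈ Expo r u (d + 1) (2 * u + 1)) ∧ (∀ i, γ i ∈ Box K (Tb k0 n t r u d X)) ∧
      z ∈ Zset s (fun i => f (algebraMap K _ (γ i))) ∧
      IntermediateField.adjoin K {y | ∃ l, f y = z (⟨0, hn0⟩, l)} = L := by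
  classical
  obtain ⟨hn, hNF, hD⟩ := hL
  have hD' : |(discr L : ℝ)| ≤ X := by
    rw [← Int.cast_abs]; exact hD
  have : FiniteDimensional K L := Module.Finite.of_restrictScalars_finite ℚ K L
  -- an enumeration of the embeddings starting with the inclusion
  have hcard : Fintype.card (Fin n) = Fintype.card (L →ₐ[K] AlgebraicClosure K) := by
    rw [AlgHom.card, hn, Fintype.card_fin]
  obtain ⟨e, he⟩ : ∃ e : Fin n ≃ (L →ₐ[K] AlgebraicClosure K), e ⟨0, hn0⟩ = L.val := by
    set e0 := Fintype.equivOfCardEq hcard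
    refine ⟨(Equiv.swap ⟨0, hn0⟩ (e0.symm L.val)).trans e0, ?_⟩
    simp
  obtain ⟨α, s, hint, h1, h2, hs, hdet⟩ := exists_data (K := K) (L := L)
    (Ω := AlgebraicClosure K) (n := n) (k0 := k0) (t := t) (r := r) (d := d) (u := u) (m := m)
    hn hk0 ht e hrd hm hmu X hX hD'
  have hdist := dist_of_det L α e (Sum.inl ⟨0, hr⟩) s hdet
  have hadj := adjoin_eq L α e hdist
  set μ : Fin n × (Fin r ⊕ Fin u) → L := fun i => ∏ l, α l ^ s i l with hμ
  set z : Fin n × (Fin r ⊕ Fin u) → ℂ := fun p => f (e p.1 (α p.2)) with hz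
  have hμint : ∀ i, IsIntegral ℤ (μ i) := fun i => IsIntegral.prod _ fun l _ => (hint l).pow _
  refine ⟨s, fun i => Algebra.trace K L (μ i), z, hs, ?_, ⟨?_, ?_⟩, ?_⟩
  · intro i
    rw [mem_Box]
    constructor
    · have h3 : IsIntegral ℤ (μ i) := hμint i
      exact Algebra.isIntegral_trace h3
    · refine (house_trace_le _).trans ?_
      rw [hn, Tb]
      apply mul_le_mul_of_nonneg_left _ (Nat.cast_nonneg _)
      set B0 : ℕ := (n * (r + u)) * (d + 1 + (2 * u + 1)) with hB0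
      have hH1 := one_le_Hf k0 n (n + 1 - t) X hX
      have hH2 := one_le_Hf k0 n ((n + 1) / 2) X hX
      have hc : (1 : ℝ) ≤ ((n * B0 + 1 : ℕ) : ℝ) := by
        push_cast
        have : (0 : ℝ) ≤ (n : ℝ) * B0 := by positivity
        linarith
      have hct : ((t : ℝ) * (B0 : ℕ)) ≤ ((n * B0 + 1 : ℕ) : ℝ) := by
        push_cast
        have : (t : ℝ) ≤ n := by exact_mod_cast ht
        have h0 : (0 : ℝ) ≤ (B0 : ℝ) := Nat.cast_nonneg _
        nlinarith
      have hcn : ((n : ℝ) * (B0 : ℕ)) ≤ ((n * B0 + 1 : ℕ) : ℝ) := by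
        push_cast
        linarith
      apply house_mono_le α _ _ _ _ _ _ (s i) (hs i)
      · nlinarith
      · have : 1 ≤ Hf k0 n ((n + 1) / 2) X ^ 2 := one_le_pow₀ hH2
        nlinarith
      · intro l
        refine (h1 l).trans ?_
        exact mul_le_mul_of_nonneg_right hct (by linarith)
      · intro l
        refine (h2 l).trans ?_
        exact mul_le_mul_of_nonneg_right hcn (by positivity)
  · intro i
    have h3 : algebraMap K (AlgebraicClosure K) (Algebra.trace K L (μ i))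
        = ∑ a, e a (μ i) := by
      rw [trace_eq_sum_embeddings (AlgebraicClosure K)]
      exact (Equiv.sum_comp e (fun σ => σ (μ i))).symm
    beta_reduce
    rw [h3, map_sum]
    apply Finset.sum_congr rfl
    intro a _
    rw [eval_monomial, one_mul, Finsupp.prod_fintype _ _ (fun _ => pow_zero _)]
    simp only [hμ, hz, map_prod, map_pow]
  · have h4 : (Matrix.of fun (i j : Fin n × (Fin r ⊕ Fin u)) =>
          eval (fun l => z (j.1, l)) (pderiv j.2 (monomial (s i) (1 : ℂ))))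
        = f.mapMatrix (Matrix.of fun (i j : Fin n × (Fin r ⊕ Fin u)) =>
        eval (fun l => e j.1 (α l)) (pderiv j.2 (monomial (s i) (1 : AlgebraicClosure K)))) := by
      ext i j
      rw [RingHom.mapMatrix_apply, Matrix.map_apply, Matrix.of_apply, Matrix.of_apply,
        map_eval_pderiv]
    rw [h4, ← RingHom.map_det]
    exact (map_ne_zero f).2 hdet
  · rw [← hadj]
    congr 1
    ext y
    constructor
    · rintro ⟨l, hl⟩
      refine ⟨l, ?_⟩
      apply f.injective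
      rw [hl]
      simp only [hz, he]
      rfl
    · rintro ⟨l, rfl⟩
      refine ⟨l, ?_⟩
      simp only [hz, he]
      rfl

/-- the count in terms of the box -/
theorem card_FS_le (n r d u m t k0 : ℕ) (hn0 : 0 < n) (hr : 0 < r) (ht : t ≤ n)
    (hrd : (r + 1) * n ≤ (r + d).choose r)
    (hm : n * (n - t) ^ m < n ^ m) (hmu : m ≤ 2 ^ u) :
    ∃ C : ℕ, ∀ (K : Type) [Field K] [NumberField K], finrank ℚ K = k0 → ∀ X : ℝ, 1 ≤ X →
      (FS K n X).Finite ∧
      ((FS K n X).ncard : ℝ) ≤ C * ((2 * Tb k0 n t r u d X + 1) ^ k0) ^ (n * (r + u)) := by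
  classical
  set A : Finset (Fin r ⊕ Fin u →₀ ℕ) := (finite_Expo r u (d + 1) (2 * u + 1)).toFinset with hA
  obtain ⟨B, hB⟩ := exists_sel_bound n r u A
  refine ⟨Fintype.card ((Fin n × (Fin r ⊕ Fin u)) → A) * B, ?_⟩
  intro K _ _ hk0 X hX
  obtain ⟨f⟩ := exists_embedding K
  set Γ : Finset K := Box K (Tb k0 n t r u d X) with hΓ
  have hZfin : ∀ (s : (Fin n × (Fin r ⊕ Fin u)) → A) (c : Fin n × (Fin r ⊕ Fin u) → ℂ),
      (Zset (fun i => (s i : Fin r ⊕ Fin u →₀ ℕ)) c).Finite := by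
    intro s c
    by_contra hinf
    obtain ⟨S, hS, hSc⟩ := Set.Infinite.exists_subset_card_eq hinf (B + 1)
    have := hB (fun i => (s i : Fin r ⊕ Fin u →₀ ℕ)) (fun i => (s i).2) c S
      (fun z hz => hS hz)
    omega
  set Zf : ((Fin n × (Fin r ⊕ Fin u)) → A) → (Fin n × (Fin r ⊕ Fin u) → ℂ) →
    Finset (Fin n × (Fin r ⊕ Fin u) → ℂ) := fun s c => (hZfin s c).toFinset with hZf
  have hZc : ∀ s c, (Zf s c).card ≤ B := by
    intro s c
    apply hB (fun i => (s i : Fin r ⊕ Fin u →₀ ℕ)) (fun i => (s i).2) c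
    intro z hz
    rw [hZf, Set.Finite.mem_toFinset] at hz
    exact hz
  set Φ : (Fin n × (Fin r ⊕ Fin u) → ℂ) → IntermediateField K (AlgebraicClosure K) :=
    fun z => IntermediateField.adjoin K {y | ∃ l, f y = z (⟨0, hn0⟩, l)} with hΦ
  set W : Finset (IntermediateField K (AlgebraicClosure K)) :=
    (Finset.univ : Finset (((Fin n × (Fin r ⊕ Fin u)) → A) ×
      ((Fin n × (Fin r ⊕ Fin u)) → Γ))).biUnion
      (fun p => (Zf p.1 (fun i => f (algebraMap K _ (p.2 i : K)))).image Φ) with hW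
  have hsub : FS K n X ⊆ ↑W := by
    intro L hL
    obtain ⟨s, γ, z, hs, hγ, hz, hadj⟩ := exists_point n r d u m t k0 hn0 hr ht hrd hm hmu X hX
      hk0 f L hL
    rw [Finset.mem_coe, hW, Finset.mem_biUnion]
    refine ⟨(fun i => ⟨s i, ?_⟩, fun i => ⟨γ i, hγ i⟩), Finset.mem_univ _, ?_⟩
    · rw [hA, Set.Finite.mem_toFinset]
      exact hs i
    · rw [Finset.mem_image]
      refine ⟨z, ?_, hadj⟩
      rw [hZf, Set.Finite.mem_toFinset]
      exact hz
  have hWcard : W.card ≤ Fintype.card ((Fin n × (Fin r ⊕ Fin u)) → A)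
      * Γ.card ^ (n * (r + u)) * B := by
    calc W.card ≤ ∑ p : ((Fin n × (Fin r ⊕ Fin u)) → A) × ((Fin n × (Fin r ⊕ Fin u)) → Γ),
          ((Zf p.1 (fun i => f (algebraMap K _ (p.2 i : K)))).image Φ).card :=
            Finset.card_biUnion_le
      _ ≤ ∑ _p : ((Fin n × (Fin r ⊕ Fin u)) → A) × ((Fin n × (Fin r ⊕ Fin u)) → Γ), B :=
          Finset.sum_le_sum fun p _ => Finset.card_image_le.trans (hZc _ _)
      _ = Fintype.card ((Fin n × (Fin r ⊕ Fin u)) → A) * Γ.card ^ (n * (r + u)) * B := by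
          rw [Finset.sum_const, Finset.card_univ, Fintype.card_prod, smul_eq_mul]
          congr 2
          rw [Fintype.card_fun, Fintype.card_coe, Fintype.card_prod, Fintype.card_sum,
            Fintype.card_fin, Fintype.card_fin, Fintype.card_fin]
  have hfin : (FS K n X).Finite := (Finset.finite_toSet W).subset hsub
  refine ⟨hfin, ?_⟩
  have hTb : 0 ≤ Tb k0 n t r u d X := by
    have h1 := one_le_Hf k0 n (n + 1 - t) X hX
    have h2 := one_le_Hf k0 n ((n + 1) / 2) X hX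
    unfold Tb
    positivity
  have hΓc : (Γ.card : ℝ) ≤ (2 * Tb k0 n t r u d X + 1) ^ k0 := by
    have := card_Box K (Tb k0 n t r u d X) hTb
    rw [hk0] at this
    exact this
  calc ((FS K n X).ncard : ℝ) ≤ (W.card : ℝ) := by
        have := Set.ncard_le_ncard hsub (Finset.finite_toSet W)
        rw [Set.ncard_coe_finset] at this
        exact_mod_cast this
    _ ≤ (Fintype.card ((Fin n × (Fin r ⊕ Fin u)) → A) * Γ.card ^ (n * (r + u)) * B : ℕ) := by
        exact_mod_cast hWcard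
    _ = (Fintype.card ((Fin n × (Fin r ⊕ Fin u)) → A) * B : ℕ) * (Γ.card : ℝ) ^ (n * (r + u)) := by
        push_cast; ring
    _ ≤ (Fintype.card ((Fin n × (Fin r ⊕ Fin u)) → A) * B : ℕ)
        * ((2 * Tb k0 n t r u d X + 1) ^ k0) ^ (n * (r + u)) := by
        gcongr

end

end Pool.Agent.W301.Lin
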