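import Mathlib
import Pool.Agent.W301.LinH5

set_option autoImplicit false

namespace Pool.Agent.W301.Lin

open Module NumberField

/-- the exponent -/
noncomputable def Ex (n r d u t : ℕ) : ℝ :=
  (n * (r + u) : ℕ) * (((d + 1 : ℕ) : ℝ) / (2 * ((n + 1 - t : ℕ) : ℝ))
    + ((2 * u + 1 : ℕ) : ℝ) / (((n + 1) / 2 : ℕ) : ℝ))

lemma Tb_pow (k0 n t r u d : ℕ) (hk0 : 0 < k0) (hn0 : 0 < n) (ht : t ≤ n) :
    ∃ C : ℝ, 0 ≤ C ∧ ∀ X : ℝ, 1 ≤ X →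
      ((2 * Tb k0 n t r u d X + 1) ^ k0) ^ (n * (r + u)) ≤ C * X ^ Ex n r d u t := by
  set c0 : ℕ := n * ((n * (r + u)) * (d + 1 + (2 * u + 1))) + 1 with hc0
  set q1 : ℕ := n + 1 - t with hq1
  set q2 : ℕ := (n + 1) / 2 with hq2
  set M : ℕ := n * (r + u) with hM
  have hq1p : 0 < q1 := by omega
  have hq2p : 0 < q2 := by omega
  set θ : ℝ := M * (((d + 1 : ℕ) : ℝ) / q1 + 2 * ((2 * u + 1 : ℕ) : ℝ) / q2) with hθ
  refine ⟨(3 * n * (c0 : ℝ) ^ (d + 1) * (c0 : ℝ) ^ (2 * u + 1)) ^ (k0 * M)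
    * ((7 : ℝ) ^ (k0 * n)) ^ θ, by positivity, ?_⟩
  intro X hX
  set Y : ℝ := 7 ^ (k0 * n) * √X with hY
  have hXs : 1 ≤ √X := by rw [Real.one_le_sqrt]; exact hX
  have hYp : 0 < Y := by positivity
  set H1 := Hf k0 n q1 X with hH1
  set H2 := Hf k0 n q2 X with hH2
  have h1 : 1 ≤ H1 := one_le_Hf _ _ _ X hX
  have h2 : 1 ≤ H2 := one_le_Hf _ _ _ X hX
  have hc : (1 : ℝ) ≤ (c0 : ℝ) := by
    have : 1 ≤ c0 := by rw [hc0]; exact Nat.le_add_left 1 _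
    exact_mod_cast this
  have hn1 : (1 : ℝ) ≤ n := by exact_mod_cast hn0
  have hTb : Tb k0 n t r u d X = n * ((c0 * H1) ^ (d + 1) * (c0 * H2 ^ 2) ^ (2 * u + 1)) := rfl
  have hT1 : 1 ≤ Tb k0 n t r u d X := by
    rw [hTb]
    have e1 : 1 ≤ (c0 * H1) ^ (d + 1) := one_le_pow₀ (by nlinarith)
    have e2 : 1 ≤ (c0 * H2 ^ 2) ^ (2 * u + 1) := by
      apply one_le_pow₀
      have : 1 ≤ H2 ^ 2 := one_le_pow₀ h2
      nlinarith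
    have e3 : 1 ≤ (c0 * H1) ^ (d + 1) * (c0 * H2 ^ 2) ^ (2 * u + 1) := by nlinarith
    nlinarith
  have e4 : (2 * Tb k0 n t r u d X + 1) ≤ (3 * n * (c0 : ℝ) ^ (d + 1) * (c0 : ℝ) ^ (2 * u + 1))
      * (H1 ^ (d + 1) * (H2 ^ 2) ^ (2 * u + 1)) := by
    calc (2 * Tb k0 n t r u d X + 1) ≤ 3 * Tb k0 n t r u d X := by linarith
      _ = _ := by rw [hTb, mul_pow, mul_pow]; ring
  have e5 : (H1 ^ (d + 1) * (H2 ^ 2) ^ (2 * u + 1)) ^ (k0 * M) = Y ^ θ := by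
    have f1 : H1 = Y ^ ((1 : ℝ) / (k0 * q1 : ℕ)) := rfl
    have f2 : H2 = Y ^ ((1 : ℝ) / (k0 * q2 : ℕ)) := rfl
    rw [f1, f2, ← Real.rpow_natCast _ (d + 1), ← Real.rpow_mul hYp.le,
      ← Real.rpow_natCast _ 2, ← Real.rpow_mul hYp.le, ← Real.rpow_natCast _ (2 * u + 1),
      ← Real.rpow_mul hYp.le, ← Real.rpow_add hYp, ← Real.rpow_natCast _ (k0 * M),
      ← Real.rpow_mul hYp.le]
    congr 1
    rw [hθ]
    have g1 : (k0 : ℝ) ≠ 0 := by exact_mod_cast hk0.ne'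
    have g2 : (q1 : ℝ) ≠ 0 := by exact_mod_cast hq1p.ne'
    have g3 : (q2 : ℝ) ≠ 0 := by exact_mod_cast hq2p.ne'
    push_cast
    field_simp
  have e6 : Y ^ θ = ((7 : ℝ) ^ (k0 * n)) ^ θ * X ^ Ex n r d u t := by
    rw [hY, Real.mul_rpow (by positivity) (by positivity), Real.sqrt_eq_rpow, ← Real.rpow_mul
      (by linarith)]
    congr 2
    rw [hθ, Ex, ← hM, ← hq1, ← hq2]
    have g2 : (q1 : ℝ) ≠ 0 := by exact_mod_cast hq1p.ne'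
    have g3 : (q2 : ℝ) ≠ 0 := by exact_mod_cast hq2p.ne'
    field_simp
  calc ((2 * Tb k0 n t r u d X + 1) ^ k0) ^ M = (2 * Tb k0 n t r u d X + 1) ^ (k0 * M) := by
        rw [← pow_mul]
    _ ≤ ((3 * n * (c0 : ℝ) ^ (d + 1) * (c0 : ℝ) ^ (2 * u + 1))
      * (H1 ^ (d + 1) * (H2 ^ 2) ^ (2 * u + 1))) ^ (k0 * M) := by
        apply pow_le_pow_left₀ (by linarith) e4
    _ = _ := by rw [mul_pow, e5, e6]; ring

/-- the count with an exponent -/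
theorem card_FS_le_rpow (n r d u m t k0 : ℕ) (hn0 : 0 < n) (hr : 0 < r) (ht : t ≤ n)
    (hrd : (r + 1) * n ≤ (r + d).choose r)
    (hm : n * (n - t) ^ m < n ^ m) (hmu : m ≤ 2 ^ u) :
    ∃ C : ℝ, ∀ (K : Type) [Field K] [NumberField K], finrank ℚ K = k0 → ∀ X : ℝ, 1 ≤ X →
      (FS K n X).Finite ∧ ((FS K n X).ncard : ℝ) ≤ C * X ^ Ex n r d u t := by
  rcases Nat.eq_zero_or_pos k0 with rfl | hk0
  · refine ⟨0, fun K _ _ hK => ?_⟩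
    have : 0 < finrank ℚ K := Module.finrank_pos
    omega
  obtain ⟨C1, h1⟩ := card_FS_le n r d u m t k0 hn0 hr ht hrd hm hmu
  obtain ⟨C2, hC2, h2⟩ := Tb_pow k0 n t r u d hk0 hn0 ht
  refine ⟨C1 * C2, ?_⟩
  intro K _ _ hK X hX
  obtain ⟨h3, h4⟩ := h1 K hK X hX
  refine ⟨h3, h4.trans ?_⟩
  rw [mul_assoc]
  exact mul_le_mul_of_nonneg_left (h2 X hX) (Nat.cast_nonneg _)

end Pool.Agent.W301.Lin
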