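import Mathlib
import Pool.Agent.W301.LinI1

set_option autoImplicit false

namespace Pool.Agent.W301.Lin

open Filter Topology

/-- the number of the first coordinates -/
noncomputable def kk (η x : ℝ) : ℕ := ⌈(1 + η) / (2 * Real.log 2) * x⌉₊

/-- the number of the second coordinates -/
noncomputable def uu (x : ℝ) : ℕ := ⌈√x⌉₊

lemma tendsto_kk (η : ℝ) (hη : 0 < η) :
    Tendsto (fun x : ℝ => (kk η x : ℝ) / x) atTop (𝓝 ((1 + η) / (2 * Real.log 2))) := by
  have h2 : 0 < Real.log 2 := Real.log_pos (by norm_num)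
  exact tendsto_nat_ceil_mul_div_atTop (by positivity)

lemma tendsto_uu : Tendsto (fun x : ℝ => (uu x : ℝ) / x) atTop (𝓝 0) := by
  have h1 : Tendsto (fun x : ℝ => (√x + 1) / x) atTop (𝓝 0) := by
    have h2 : Tendsto (fun x : ℝ => 1 / √x + 1 / x) atTop (𝓝 (0 + 0)) := by
      apply Tendsto.add
      · exact tendsto_const_nhds.div_atTop Real.tendsto_sqrt_atTop
      · exact tendsto_const_nhds.div_atTop tendsto_id
    rw [add_zero] at h2
    apply h2.congr'
    filter_upwards [eventually_gt_atTop 0] with x hx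
    have h3 : 0 < √x := Real.sqrt_pos.2 hx
    have h4 : √x * √x = x := Real.mul_self_sqrt hx.le
    rw [add_div]
    congr 1
    rw [div_eq_div_iff h3.ne' hx.ne']
    linarith
  apply squeeze_zero' _ _ h1
  · filter_upwards [eventually_gt_atTop 0] with x hx
    positivity
  · filter_upwards [eventually_gt_atTop 0] with x hx
    have := (Nat.ceil_lt_add_one (Real.sqrt_nonneg x)).le
    unfold uu
    gcongr

/-- the upper bound for the exponent, divided by the square of the logarithm -/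
lemma tendsto_exponent (η : ℝ) (hη : 0 < η) (hη1 : η < 1) :
    Tendsto (fun x : ℝ => (((kk η x : ℝ) + uu x) * (((kk η x : ℝ) + 1) / (2 * (1 - η))
      + 2 * (2 * (uu x : ℝ) + 1))) / x ^ 2) atTop
      (𝓝 (((1 + η) / (2 * Real.log 2)) * (((1 + η) / (2 * Real.log 2)) / (2 * (1 - η))))) := by
  have hk := tendsto_kk η hη
  have hu := tendsto_uu
  have h1 : Tendsto (fun x : ℝ => 1 / x) atTop (𝓝 0) := tendsto_const_nhds.div_atTop tendsto_id
  have h2 : Tendsto (fun x : ℝ => ((kk η x : ℝ) / x + uu x / x)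
      * (((kk η x : ℝ) / x + 1 / x) / (2 * (1 - η)) + 2 * (2 * ((uu x : ℝ) / x) + 1 / x))) atTop
      (𝓝 ((((1 + η) / (2 * Real.log 2)) + 0) * ((((1 + η) / (2 * Real.log 2)) + 0) / (2 * (1 - η))
        + 2 * (2 * 0 + 0)))) := by
    apply Tendsto.mul
    · exact hk.add hu
    · apply Tendsto.add
      · exact (hk.add h1).div_const _
      · exact ((hu.const_mul 2).add h1).const_mul 2
  have e : ((((1 + η) / (2 * Real.log 2)) + 0) * ((((1 + η) / (2 * Real.log 2)) + 0) / (2 * (1 - η))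
        + 2 * (2 * 0 + 0))) = (((1 + η) / (2 * Real.log 2))
          * (((1 + η) / (2 * Real.log 2)) / (2 * (1 - η)))) := by ring
  rw [e] at h2
  apply h2.congr'
  filter_upwards [eventually_gt_atTop 0] with x hx
  have h3 : (1 - η) ≠ 0 := by linarith
  field_simp

/-- polynomial versus exponential, first condition -/
lemma eventually_kk (η : ℝ) (hη : 0 < η) :
    ∀ᶠ x : ℝ in atTop, 2 * (kk η x : ℝ) * (kk η x + 1) ≤ Real.exp (η * x) := by
  have h2 : 0 < Real.log 2 := Real.log_pos (by norm_num)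
  set a : ℝ := (1 + η) / (2 * Real.log 2) with ha
  have hapos : 0 < a := by positivity
  filter_upwards [eventually_ge_atTop 1, eventually_ge_atTop (12 * (a + 2) ^ 2 / η ^ 3)] with x hx1 hx2
  have h3 : (kk η x : ℝ) ≤ a * x + 1 := (Nat.ceil_lt_add_one (by positivity)).le
  have h4 : (0 : ℝ) ≤ kk η x := Nat.cast_nonneg _
  have h5 : (η * x) ^ 3 / (Nat.factorial 3 : ℕ) ≤ Real.exp (η * x) :=
    Real.pow_div_factorial_le_exp (η * x) (by positivity) 3
  have h6 : ((Nat.factorial 3 : ℕ) : ℝ) = 6 := by norm_num [Nat.factorial]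
  rw [h6] at h5
  rw [div_le_iff₀ (by positivity)] at hx2
  calc 2 * (kk η x : ℝ) * (kk η x + 1) ≤ 2 * ((a + 2) * x) * ((a + 2) * x) := by
        gcongr
        · nlinarith
        · nlinarith
    _ = 2 * (a + 2) ^ 2 * x ^ 2 := by ring
    _ ≤ (η * x) ^ 3 / 6 := by
      rw [le_div_iff₀ (by norm_num)]
      have : 0 ≤ x ^ 2 := by positivity
      nlinarith
    _ ≤ Real.exp (η * x) := h5

/-- polynomial versus exponential, second condition -/
lemma eventually_uu (η : ℝ) (hη : 0 < η) :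
    ∀ᶠ x : ℝ in atTop, x < η * ((2 ^ uu x : ℕ) : ℝ) := by
  have h2 : 0 < Real.log 2 := Real.log_pos (by norm_num)
  filter_upwards [eventually_gt_atTop 0, eventually_gt_atTop (24 / (η * (Real.log 2) ^ 4))]
    with x hx1 hx2
  have h3 : √x ≤ uu x := Nat.le_ceil _
  have h4 : Real.exp (√x * Real.log 2) ≤ ((2 ^ uu x : ℕ) : ℝ) := by
    push_cast
    rw [← Real.rpow_natCast, Real.rpow_def_of_pos (by norm_num)]
    apply Real.exp_le_exp.2
    rw [mul_comm]
    gcongr
  have h5 : (√x * Real.log 2) ^ 4 / (Nat.factorial 4 : ℕ) ≤ Real.exp (√x * Real.log 2) :=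
    Real.pow_div_factorial_le_exp _ (by positivity) 4
  have h6 : ((Nat.factorial 4 : ℕ) : ℝ) = 24 := by norm_num [Nat.factorial]
  rw [h6] at h5
  have h7 : (√x * Real.log 2) ^ 4 = x ^ 2 * (Real.log 2) ^ 4 := by
    rw [mul_pow]
    congr 1
    calc √x ^ 4 = (√x ^ 2) ^ 2 := by ring
      _ = x ^ 2 := by rw [Real.sq_sqrt hx1.le]
  rw [h7] at h5
  rw [div_lt_iff₀ (by positivity)] at hx2
  have h8 : x < η * (x ^ 2 * (Real.log 2) ^ 4 / 24) := by
    have : 24 * x < η * (x ^ 2 * (Real.log 2) ^ 4) := by nlinarith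
    linarith
  calc x < η * (x ^ 2 * (Real.log 2) ^ 4 / 24) := h8
    _ ≤ η * ((2 ^ uu x : ℕ) : ℝ) := by
      gcongr
      exact h5.trans h4

end Pool.Agent.W301.Lin
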