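import Mathlib
import Pool.Agent.W301.LinI2

set_option autoImplicit false

namespace Pool.Agent.W301.Lin

open Filter Topology

lemma exists_eta (c : ℝ) (hc : 1 / (8 * (Real.log 2) ^ 2) < c) :
    ∃ η : ℝ, 0 < η ∧ η < 1 ∧ ((1 + η) / (2 * Real.log 2)) *
      (((1 + η) / (2 * Real.log 2)) / (2 * (1 - η))) < c := by
  have h2 : 0 < Real.log 2 := Real.log_pos (by norm_num)
  have hcont : ContinuousAt (fun η : ℝ => ((1 + η) / (2 * Real.log 2)) *
      (((1 + η) / (2 * Real.log 2)) / (2 * (1 - η)))) 0 := by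
    apply ContinuousAt.mul
    · fun_prop
    · apply ContinuousAt.div
      · fun_prop
      · fun_prop
      · norm_num
  have h0 : (fun η : ℝ => ((1 + η) / (2 * Real.log 2)) *
      (((1 + η) / (2 * Real.log 2)) / (2 * (1 - η)))) 0 < c := by
    have : (fun η : ℝ => ((1 + η) / (2 * Real.log 2)) *
      (((1 + η) / (2 * Real.log 2)) / (2 * (1 - η)))) 0 = 1 / (8 * (Real.log 2) ^ 2) := by
      simp only []
      field_simp
      ring
    rw [this]
    exact hc
  have h1 : ∀ᶠ η in 𝓝 (0 : ℝ), ((1 + η) / (2 * Real.log 2)) *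
      (((1 + η) / (2 * Real.log 2)) / (2 * (1 - η))) < c :=
    hcont.eventually_lt continuousAt_const h0
  have h3 : ∀ᶠ η in 𝓝[>] (0 : ℝ), ((1 + η) / (2 * Real.log 2)) *
      (((1 + η) / (2 * Real.log 2)) / (2 * (1 - η))) < c := h1.filter_mono nhdsWithin_le_nhds
  have h4 : ∀ᶠ η in 𝓝[>] (0 : ℝ), η ∈ Set.Ioo (0 : ℝ) 1 := Ioo_mem_nhdsGT one_pos
  obtain ⟨η, hη1, hη2⟩ := (h3.and h4).exists
  exact ⟨η, hη2.1, hη2.2, hη1⟩

theorem eventually_good (c : ℝ) (hc : 1 / (8 * (Real.log 2) ^ 2) < c) :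
    ∀ᶠ n : ℕ in atTop, ∃ r d u m t : ℕ, 0 < r ∧ t ≤ n ∧ (r + 1) * n ≤ (r + d).choose r ∧
      n * (n - t) ^ m < n ^ m ∧ m ≤ 2 ^ u ∧ Ex n r d u t ≤ c * (Real.log n) ^ 2 := by
  have h2 : 0 < Real.log 2 := Real.log_pos (by norm_num)
  obtain ⟨η, hη0, hη1, hηc⟩ := exists_eta c hc
  have hlim := tendsto_exponent η hη0 hη1
  have hlog : Tendsto (fun n : ℕ => Real.log n) atTop atTop :=
    Real.tendsto_log_atTop.comp tendsto_natCast_atTop_atTop
  have e1 := hlog.eventually (hlim.eventually_lt_const hηc)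
  have e2 := hlog.eventually (eventually_kk η hη0)
  have e3 := hlog.eventually (eventually_uu η hη0)
  have e4 := hlog.eventually (eventually_gt_atTop (0 : ℝ))
  filter_upwards [e1, e2, e3, e4, eventually_ge_atTop 2] with n he1 he2 he3 he4 hn
  set x := Real.log n with hx
  set k := kk η x with hk
  set u := uu x with hu
  set t := ⌈η * n⌉₊ with ht
  have hn0 : (0 : ℝ) < n := by exact_mod_cast (by omega : 0 < n)
  have hexp : Real.exp x = n := Real.exp_log hn0
  have hkx : (1 + η) / (2 * Real.log 2) * x ≤ k := Nat.le_ceil _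
  have hk0 : 0 < k := by
    have : (0 : ℝ) < k := lt_of_lt_of_le (by positivity) hkx
    exact_mod_cast this
  have htn : t ≤ n := by
    rw [ht]
    apply Nat.ceil_le.2
    nlinarith
  have ht1 : η * n ≤ t := Nat.le_ceil _
  have ht2 : (t : ℝ) < η * n + 1 := Nat.ceil_lt_add_one (by positivity)
  refine ⟨k, k, u, 2 ^ u, t, hk0, htn, ?_, ?_, le_rfl, ?_⟩
  · -- the binomial coefficient
    have h3 := Nat.four_pow_le_two_mul_self_mul_centralBinom k hk0
    have h4 : (n : ℝ) * Real.exp (η * x) ≤ (4 : ℝ) ^ k := by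
      have h5 : (4 : ℝ) ^ k = Real.exp (2 * Real.log 2 * k) := by
        rw [← Real.rpow_natCast, Real.rpow_def_of_pos (by norm_num)]
        congr 1
        rw [show (4 : ℝ) = 2 ^ 2 by norm_num, Real.log_pow]
        push_cast; ring
      rw [h5, ← hexp, ← Real.exp_add]
      apply Real.exp_le_exp.2
      rw [div_mul_eq_mul_div, div_le_iff₀ (by positivity)] at hkx
      linarith
    have h6 : ((k + 1) * n : ℝ) * (2 * k) ≤ (4 : ℝ) ^ k := by
      calc ((k + 1) * n : ℝ) * (2 * k) = n * (2 * (k : ℝ) * (k + 1)) := by ring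
        _ ≤ n * Real.exp (η * x) := by gcongr
        _ ≤ (4 : ℝ) ^ k := h4
    have h7 : ((k + 1) * n) * (2 * k) ≤ 4 ^ k := by exact_mod_cast h6
    have h8 : ((k + 1) * n) * (2 * k) ≤ Nat.centralBinom k * (2 * k) := by
      calc ((k + 1) * n) * (2 * k) ≤ 4 ^ k := h7
        _ ≤ 2 * k * Nat.centralBinom k := h3
        _ = Nat.centralBinom k * (2 * k) := by ring
    have h9 := Nat.le_of_mul_le_mul_right h8 (by omega)
    rw [Nat.centralBinom_eq_two_mul_choose, two_mul] at h9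
    exact h9
  · -- the covering condition
    set m := 2 ^ u with hm
    have h3 : ((n - t : ℕ) : ℝ) ≤ n * Real.exp (-η) := by
      rw [Nat.cast_sub htn]
      have : 1 - η ≤ Real.exp (-η) := by
        have := Real.add_one_le_exp (-η)
        linarith
      nlinarith
    have h4 : (n : ℝ) * ((n - t : ℕ) : ℝ) ^ m < (n : ℝ) ^ m := by
      calc (n : ℝ) * ((n - t : ℕ) : ℝ) ^ m ≤ n * (n * Real.exp (-η)) ^ m := by gcongr
        _ = (n : ℝ) ^ m * (Real.exp x * Real.exp (-(η * m))) := by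
          rw [mul_pow, ← Real.exp_nat_mul, hexp]
          rw [show (m : ℝ) * -η = -(η * m) by ring]
          ring
        _ < (n : ℝ) ^ m * 1 := by
          apply mul_lt_mul_of_pos_left _ (by positivity)
          rw [← Real.exp_add, Real.exp_lt_one_iff]
          have : x < η * (m : ℕ) := by rw [hm]; exact he3
          linarith
        _ = (n : ℝ) ^ m := mul_one _
    exact_mod_cast h4
  · -- the exponent
    rw [div_lt_iff₀ (by positivity)] at he1
    refine le_trans ?_ he1.le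
    unfold Ex
    have hq1 : (n : ℝ) * (1 - η) ≤ ((n + 1 - t : ℕ) : ℝ) := by
      rw [Nat.cast_sub (by omega)]
      push_cast
      linarith
    have hq2 : (n : ℝ) / 2 ≤ (((n + 1) / 2 : ℕ) : ℝ) := by
      have : n ≤ 2 * ((n + 1) / 2) := by omega
      have : (n : ℝ) ≤ 2 * (((n + 1) / 2 : ℕ) : ℝ) := by exact_mod_cast this
      linarith
    have h1η : 0 < 1 - η := by linarith
    have hb1 : ((k + 1 : ℕ) : ℝ) / (2 * ((n + 1 - t : ℕ) : ℝ))
        ≤ ((k : ℝ) + 1) / (2 * (n * (1 - η))) := by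
      push_cast
      gcongr
    have hb2 : ((2 * u + 1 : ℕ) : ℝ) / (((n + 1) / 2 : ℕ) : ℝ) ≤ (2 * (u : ℝ) + 1) / (n / 2) := by
      push_cast
      gcongr
    calc ((n * (k + u) : ℕ) : ℝ) * (((k + 1 : ℕ) : ℝ) / (2 * ((n + 1 - t : ℕ) : ℝ))
          + ((2 * u + 1 : ℕ) : ℝ) / (((n + 1) / 2 : ℕ) : ℝ))
        ≤ ((n * (k + u) : ℕ) : ℝ) * (((k : ℝ) + 1) / (2 * (n * (1 - η)))
          + (2 * (u : ℝ) + 1) / (n / 2)) := by gcongr
      _ = ((k : ℝ) + u) * (((k : ℝ) + 1) / (2 * (1 - η)) + 2 * (2 * (u : ℝ) + 1)) := by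
        push_cast
        field_simp

end Pool.Agent.W301.Lin
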