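import Mathlib

set_option autoImplicit false

namespace Pool.Agent.W301.PS

open Finset

/-- sequences of natural numbers whose partial sums are bounded by `a + b k` -/
def S (n a b : ℕ) : Set (Fin n → ℕ) :=
  {z | ∀ k : Fin n, ∑ i ∈ Finset.Iic k, z i ≤ a + b * k}

lemma sum_Iic_eq {n : ℕ} (z : Fin n → ℕ) (k : Fin n) :
    ∑ i ∈ Finset.Iic k, z i = ∑ i, if i ≤ k then z i else 0 := by
  rw [← Finset.sum_filter]
  congr 1
  ext i
  simp

lemma mem_cons (n a b : ℕ) (y : ℕ) (z : Fin n → ℕ) :
    (Fin.cons y z : Fin (n + 1) → ℕ) ∈ S (n + 1) a b ↔ y ≤ a ∧ z ∈ S n (a - y + b) b := by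
  simp only [S, Set.mem_ofPred_eq, sum_Iic_eq]
  constructor
  · intro h
    have h0 : y ≤ a := by
      have := h 0
      rw [Fin.sum_univ_succ] at this
      simpa using this
    refine ⟨h0, fun k => ?_⟩
    have := h k.succ
    rw [Fin.sum_univ_succ] at this
    simp only [Fin.succ_le_succ_iff, Fin.cons_succ, Fin.cons_zero, Fin.zero_le, if_true,
      Fin.val_succ] at this
    have e : b * ((k : ℕ) + 1) = b * k + b := by ring
    omega
  · rintro ⟨h0, h⟩ k
    refine Fin.cases ?_ (fun k => ?_) k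
    · rw [Fin.sum_univ_succ]
      simpa using h0
    · rw [Fin.sum_univ_succ]
      have := h k
      simp only [Fin.succ_le_succ_iff, Fin.cons_succ, Fin.cons_zero, Fin.zero_le, if_true,
        Fin.val_succ]
      have e : b * ((k : ℕ) + 1) = b * k + b := by ring
      omega

lemma finite_S (n a b : ℕ) : (S n a b).Finite := by
  apply Set.Finite.subset (Set.Finite.pi' (t := fun _ => Set.Iic (a + b * n))
    (fun _ => Set.finite_Iic _))
  intro z hz k
  have h1 := hz k
  have h2 : z k ≤ ∑ i ∈ Finset.Iic k, z i :=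
    Finset.single_le_sum (f := z) (fun _ _ => Nat.zero_le _) (by simp)
  have h3 : b * (k : ℕ) ≤ b * n := Nat.mul_le_mul_left _ k.2.le
  simp only [Set.mem_Iic]
  omega

/-- the recursion over the first entry -/
lemma card_succ (n a b : ℕ) :
    Nat.card (S (n + 1) a b) = ∑ y ∈ range (a + 1), Nat.card (S n (a - y + b) b) := by
  have e : S (n + 1) a b ≃ Σ y : Fin (a + 1), S n (a - y + b) b :=
    { toFun := fun z => ⟨⟨z.1 0, by
          have := (mem_cons n a b (z.1 0) (Fin.tail z.1)).1 (by rw [Fin.cons_self_tail]; exact z.2)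
          omega⟩, ⟨Fin.tail z.1, ((mem_cons n a b (z.1 0) (Fin.tail z.1)).1
            (by rw [Fin.cons_self_tail]; exact z.2)).2⟩⟩
      invFun := fun p => ⟨Fin.cons (p.1 : ℕ) p.2.1,
        (mem_cons n a b _ _).2 ⟨Nat.lt_succ_iff.1 p.1.2, p.2.2⟩⟩
      left_inv := fun z => by
        apply Subtype.ext
        exact Fin.cons_self_tail z.1
      right_inv := fun p => by
        obtain ⟨⟨y, hy⟩, ⟨z, hz⟩⟩ := p
        simp only [Sigma.mk.injEq]
        refine ⟨rfl, heq_of_eq (Subtype.ext ?_)⟩
        exact Fin.tail_cons (α := fun _ => ℕ) y z }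
  have : ∀ n a b, Finite (S n a b) := fun n a b => finite_S n a b
  rw [Nat.card_congr e, Nat.card_sigma, Finset.sum_range]

/-- the closed form -/
def f (n a b : ℕ) : ℝ :=
  match n with
  | 0 => 1
  | m + 1 => (a + 1) * ∏ i ∈ range m, ((a : ℝ) + (m + 1) * (b + 1) - i)

lemma f_zero_step (m b : ℕ) : f (m + 2) 0 b = (m + 2) * f (m + 1) b b := by
  simp only [f]
  rw [Finset.prod_range_succ']
  push_cast
  have : ∀ i ∈ range m, ((0 : ℝ) + (m + 1 + 1) * (b + 1) - (i + 1))
      = (b : ℝ) + (m + 1) * (b + 1) - i := by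
    intro i _; ring
  rw [Finset.prod_congr rfl this]
  ring

lemma f_step (m a b : ℕ) : f (m + 2) (a + 1) b - f (m + 2) a b = (m + 2) * f (m + 1) (a + 1 + b) b := by
  simp only [f]
  rw [Finset.prod_range_succ' (fun i => (((a + 1 : ℕ) : ℝ) + ((m + 1 : ℕ) + 1) * (b + 1) - (i : ℕ)))]
  rw [Finset.prod_range_succ (fun i => (((a : ℕ) : ℝ) + ((m + 1 : ℕ) + 1) * (b + 1) - (i : ℕ)))]
  push_cast
  have h1 : ∀ i ∈ range m, ((a : ℝ) + 1 + (m + 1 + 1) * (b + 1) - (i + 1))
      = (a : ℝ) + (m + 1 + 1) * (b + 1) - i := by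
    intro i _; ring
  have h2 : ∀ i ∈ range m, ((a : ℝ) + 1 + b + (m + 1) * (b + 1) - i)
      = (a : ℝ) + (m + 1 + 1) * (b + 1) - i := by
    intro i _; ring
  rw [Finset.prod_congr rfl h1, Finset.prod_congr rfl h2]
  ring

lemma card_eq (n : ℕ) : ∀ a b : ℕ, (n.factorial : ℝ) * Nat.card (S n a b) = f n a b := by
  induction n with
  | zero =>
    intro a b
    have : Nat.card (S 0 a b) = 1 := by
      rw [Nat.card_eq_one_iff_unique]
      refine ⟨⟨fun x y => Subtype.ext (Subsingleton.elim _ _)⟩, ⟨⟨fun i => i.elim0, fun k => k.elim0⟩⟩⟩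
    rw [this]
    simp [f]
  | succ n ih =>
    intro a b
    rcases n with _ | m
    · rw [card_succ]
      have : ∀ y ∈ range (a + 1), Nat.card (S 0 (a - y + b) b) = 1 := by
        intro y _
        have := ih (a - y + b) b
        simpa [f] using this
      rw [Finset.sum_congr rfl this]
      simp [f]
    · have key : ∀ a, ((m + 1 + 1 : ℕ).factorial : ℝ) * Nat.card (S (m + 1 + 1) a b)
          = (m + 2) * ∑ c ∈ range (a + 1), f (m + 1) (c + b) b := by
        intro a
        rw [card_succ]
        push_cast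
        rw [Nat.factorial_succ (m + 1)]
        push_cast
        rw [mul_assoc, Finset.mul_sum]
        congr 1
        · ring
        · rw [← Finset.sum_range_reflect (fun c => f (m + 1) (c + b) b)]
          apply Finset.sum_congr rfl
          intro y hy
          rw [mem_range] at hy
          rw [ih]
          congr 1
      rw [key]
      induction a with
      | zero =>
        rw [f_zero_step]
        simp
      | succ a iha =>
        rw [Finset.sum_range_succ, mul_add, iha, ← f_step]
        ring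

end Pool.Agent.W301.PS
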