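import Mathlib

set_option autoImplicit false

namespace Pool.Agent.W301.PS

open Polynomial Finset

/-- `h = c ∏ (X - r_i)` with `c > 0` and `m` distinct negative numbers `r_0 > r_1 > ...` -/
def Good (m : ℕ) (h : ℝ[X]) : Prop :=
  ∃ c : ℝ, 0 < c ∧ ∃ r : ℕ → ℝ, (∀ i j, i < j → j < m → r j < r i) ∧ (∀ i, i < m → r i < 0) ∧
    h = C c * Lagrange.nodal (range m) r

/-- sign of the products of differences -/
lemma sign_prod (m k : ℕ) (hk : k < m) (r : ℕ → ℝ) (hr : ∀ i j, i < j → j < m → r j < r i) :
    0 < (-1 : ℝ) ^ k * ∏ i ∈ (range m).erase k, (r k - r i) := by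
  have h1 : (-1 : ℝ) ^ k = ∏ i ∈ (range m).erase k, (if i < k then (-1 : ℝ) else 1) := by
    rw [Finset.prod_ite]
    have : ((range m).erase k).filter (fun i => i < k) = range k := by
      ext i
      simp only [mem_filter, mem_erase, mem_range]
      omega
    rw [this]
    simp
  rw [h1, ← Finset.prod_mul_distrib]
  apply Finset.prod_pos
  intro i hi
  rw [mem_erase, mem_range] at hi
  split_ifs with hik
  · have := hr i k hik hk
    linarith
  · have := hr k i (by omega) hi.2
    linarith

/-- the step of the recursion -/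
noncomputable def step (d : ℕ) (θ : ℝ) (h : ℝ[X]) : ℝ[X] :=
  X * (1 - X) * derivative h + (C θ + C ((d : ℝ) - θ) * X) * h

lemma step_eval (d : ℕ) (θ : ℝ) (h : ℝ[X]) (x : ℝ) :
    (step d θ h).eval x = x * (1 - x) * (derivative h).eval x + (θ + (d - θ) * x) * h.eval x := by
  simp [step]

lemma nodal_monic (m : ℕ) (r : ℕ → ℝ) : (Lagrange.nodal (range m) r).Monic :=
  Lagrange.nodal_monic

lemma step_natDegree_le (m : ℕ) (d : ℕ) (θ : ℝ) (h : ℝ[X]) (hh : h.natDegree ≤ m) :
    (step d θ h).natDegree ≤ m + 1 := by
  unfold step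
  have h1 : (derivative h).natDegree ≤ m - 1 := (natDegree_derivative_le h).trans (by omega)
  have h2 : (X * (1 - X) * derivative h : ℝ[X]).natDegree ≤ m + 1 := by
    rcases Nat.eq_zero_or_pos m with rfl | hm
    · have : h.natDegree = 0 := by omega
      rw [natDegree_eq_zero.1 this |>.choose_spec.symm]
      simp
    · calc (X * (1 - X) * derivative h : ℝ[X]).natDegree
          ≤ (X * (1 - X) : ℝ[X]).natDegree + (derivative h).natDegree := natDegree_mul_le
        _ ≤ 2 + (m - 1) := by
          gcongr
          calc (X * (1 - X) : ℝ[X]).natDegree ≤ (X : ℝ[X]).natDegree + (1 - X : ℝ[X]).natDegree :=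
                natDegree_mul_le
            _ ≤ 1 + 1 := by
              gcongr
              · exact natDegree_X_le
              · exact (natDegree_sub_le _ _).trans (by simp)
        _ ≤ m + 1 := by omega
  have h3 : ((C θ + C ((d : ℝ) - θ) * X) * h : ℝ[X]).natDegree ≤ m + 1 := by
    calc ((C θ + C ((d : ℝ) - θ) * X) * h : ℝ[X]).natDegree
        ≤ (C θ + C ((d : ℝ) - θ) * X : ℝ[X]).natDegree + h.natDegree := natDegree_mul_le
      _ ≤ 1 + m := by
        gcongr
        refine (natDegree_add_le _ _).trans ?_
        simp only [natDegree_C, zero_le, sup_of_le_right]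
        refine natDegree_mul_le.trans ?_
        simp
      _ = m + 1 := by ring
  exact (natDegree_add_le _ _).trans (max_le h2 h3)

lemma step_coeff (m : ℕ) (d : ℕ) (θ : ℝ) (h : ℝ[X]) (hh : h.natDegree ≤ m) :
    (step d θ h).coeff (m + 1) = ((d : ℝ) - m - θ) * h.coeff m := by
  have h0 : h.coeff (m + 1) = 0 := coeff_eq_zero_of_natDegree_lt (by omega)
  have e : step d θ h = X * derivative h - X ^ 2 * derivative h + C θ * h
      + C ((d : ℝ) - θ) * (X * h) := by
    unfold step; ring
  rw [e]
  simp only [coeff_add, coeff_sub, coeff_C_mul, coeff_X_mul, h0]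
  have h1 : (X ^ 2 * derivative h : ℝ[X]).coeff (m + 1) = m * h.coeff m := by
    rcases m with _ | m
    · rw [show (X ^ 2 * derivative h : ℝ[X]) = X * (X * derivative h) by ring]
      simp
    · rw [show m + 1 + 1 = m + 2 by ring, show (X ^ 2 * derivative h : ℝ[X]) = derivative h * X ^ 2
        by ring, coeff_mul_X_pow, coeff_derivative]
      push_cast
      ring
  rw [h1, coeff_derivative, h0]
  ring

lemma exists_neg (g : ℝ[X]) (m : ℕ) (hg : g.natDegree = m + 1) (hc : 0 < g.leadingCoeff) (B : ℝ) :
    ∃ M : ℝ, M < B ∧ 0 < (-1 : ℝ) ^ (m + 1) * g.eval M := by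
  set P : ℝ[X] := C ((-1 : ℝ) ^ (m + 1)) * g.comp (-X) with hP
  have hdeg : (g.comp (-X)).natDegree = m + 1 := by
    rw [natDegree_comp]; simp [hg]
  have hlead : P.leadingCoeff = g.leadingCoeff := by
    rw [hP, leadingCoeff_mul, leadingCoeff_C, leadingCoeff_comp (by simp)]
    rw [leadingCoeff_neg, leadingCoeff_X, hg]
    have : ((-1 : ℝ) ^ (m + 1)) * ((-1) ^ (m + 1)) = 1 := by
      rw [← mul_pow]; simp
    linear_combination g.leadingCoeff * this
  have hne : ((-1 : ℝ) ^ (m + 1)) ≠ 0 := pow_ne_zero _ (by norm_num)
  have hPd : 0 < P.degree := by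
    apply natDegree_pos_iff_degree_pos.1
    rw [hP, natDegree_C_mul hne, hdeg]
    omega
  have ht := Polynomial.tendsto_atTop_of_leadingCoeff_nonneg P hPd (by rw [hlead]; exact hc.le)
  have h1 := ht.eventually_gt_atTop 0
  obtain ⟨x, hx1, hx2⟩ := (h1.and (Filter.eventually_gt_atTop (-B))).exists
  refine ⟨-x, by linarith, ?_⟩
  rw [hP] at hx1
  simpa using hx1

lemma good_step (m : ℕ) (h : ℝ[X]) (θ : ℝ) (h0 : 0 < θ) (h1 : θ < 1) (hh : Good m h) :
    Good (m + 1) (step (m + 2) θ h) := by
  obtain ⟨c, hc, r, hr, hneg, hprod⟩ := hh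
  have hdeg : h.natDegree = m := by
    rw [hprod, natDegree_C_mul hc.ne', Lagrange.natDegree_nodal, card_range]
  have hlead : h.coeff m = c := by
    rw [hprod, coeff_C_mul]
    have := (nodal_monic m r).coeff_natDegree
    rw [Lagrange.natDegree_nodal, card_range] at this
    rw [this, mul_one]
  set g := step (m + 2) θ h with hg
  have hgc : g.coeff (m + 1) = (2 - θ) * c := by
    rw [hg, step_coeff m (m + 2) θ h hdeg.le, hlead]
    push_cast; ring
  have hgpos : 0 < (2 - θ) * c := mul_pos (by linarith) hc
  have hgdeg : g.natDegree = m + 1 := by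
    apply le_antisymm (step_natDegree_le m _ _ _ hdeg.le)
    apply le_natDegree_of_ne_zero
    rw [hgc]; exact hgpos.ne'
  have hglead : g.leadingCoeff = (2 - θ) * c := by
    rw [leadingCoeff, hgdeg, hgc]
  -- the points where the signs alternate
  obtain ⟨M, hM1, hM2⟩ := exists_neg g m hgdeg (by rw [hglead]; exact hgpos)
    (if m = 0 then 0 else r (m - 1))
  set R : ℕ → ℝ := fun i => if i = 0 then 0 else if i = m + 1 then M else r (i - 1) with hR
  have hRdec : ∀ i, i < m + 1 → R (i + 1) < R i := by
    intro i hi
    simp only [hR]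
    rcases Nat.eq_zero_or_pos i with rfl | hi0
    · simp only [zero_add, one_ne_zero, if_false, if_true]
      split_ifs with h2
      · have : m = 0 := by omega
        rw [if_pos this] at hM1
        exact hM1
      · exact hneg 0 (by omega)
    · rw [if_neg (by omega), if_neg (by omega : ¬ i = 0), if_neg (by omega : ¬ i = m + 1)]
      split_ifs with h2
      · have : i = m := by omega
        subst this
        rw [if_neg (by omega)] at hM1
        exact hM1
      · rw [Nat.add_sub_cancel]
        exact hr (i - 1) i (by omega) (by omega)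
  have hRsign : ∀ i, i ≤ m + 1 → 0 < (-1 : ℝ) ^ i * g.eval (R i) := by
    intro i hi
    simp only [hR]
    rcases Nat.eq_zero_or_pos i with rfl | hi0
    · simp only [pow_zero, one_mul, if_true]
      rw [hg, step_eval]
      simp only [zero_mul, mul_zero, add_zero, zero_add]
      apply mul_pos h0
      rw [hprod, eval_mul, eval_C, Lagrange.eval_nodal]
      apply mul_pos hc
      apply Finset.prod_pos
      intro j hj
      have := hneg j (mem_range.1 hj)
      linarith
    · rw [if_neg (by omega)]
      split_ifs with h2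
      · rw [h2]; exact hM2
      · obtain ⟨k, rfl⟩ : ∃ k, i = k + 1 := ⟨i - 1, by omega⟩
        rw [Nat.add_sub_cancel]
        have hk : k < m := by omega
        have hroot : h.eval (r k) = 0 := by
          rw [hprod, eval_mul, Lagrange.eval_nodal]
          rw [Finset.prod_eq_zero (mem_range.2 hk) (sub_self _), mul_zero]
        have hder : (derivative h).eval (r k) = c * ∏ i ∈ (range m).erase k, (r k - r i) := by
          rw [hprod, derivative_C_mul, eval_mul, eval_C,
            Lagrange.eval_nodal_derivative_eval_node_eq (mem_range.2 hk), Lagrange.eval_nodal]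
        rw [hg, step_eval, hroot, hder, mul_zero, add_zero, pow_succ]
        have h3 := sign_prod m k hk r hr
        have h4 := hneg k hk
        have h5 : 0 < -(r k) * (1 - r k) * c := by
          apply mul_pos _ hc
          apply mul_pos <;> linarith
        have := mul_pos h5 h3
        linarith
  -- the roots
  have hex : ∀ i, ∃ x, i < m + 1 → R (i + 1) < x ∧ x < R i ∧ g.eval x = 0 := by
    intro i
    by_cases hi : i < m + 1
    · have s1 := hRsign i (by omega)
      have s2 := hRsign (i + 1) (by omega)
      have hcont : ContinuousOn (fun x => (-1 : ℝ) ^ i * g.eval x) (Set.Icc (R (i + 1)) (R i)) :=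
        (continuous_const.mul g.continuous).continuousOn
      have := intermediate_value_Ioo (hRdec i hi).le hcont
      have h0 : (0 : ℝ) ∈ Set.Ioo ((-1 : ℝ) ^ i * g.eval (R (i + 1))) ((-1 : ℝ) ^ i * g.eval (R i)) := by
        constructor
        · rw [pow_succ] at s2
          linarith
        · exact s1
      obtain ⟨x, hx, hx0⟩ := this h0
      refine ⟨x, fun _ => ⟨hx.1, hx.2, ?_⟩⟩
      have hne : ((-1 : ℝ) ^ i) ≠ 0 := pow_ne_zero _ (by norm_num)
      rcases mul_eq_zero.1 hx0 with h | h
      · exact absurd h hne
      · exact h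
    · exact ⟨0, fun h => absurd h hi⟩
  choose r' hr' using hex
  have hRanti : ∀ i j, i ≤ j → j ≤ m + 1 → R j ≤ R i := by
    intro i j hij hj
    induction j, hij using Nat.le_induction with
    | base => exact le_rfl
    | succ j hij ih => exact (hRdec j (by omega)).le.trans (ih (by omega))
  have hdec' : ∀ i j, i < j → j < m + 1 → r' j < r' i := by
    intro i j hij hj
    have h1 := (hr' j hj).2.1
    have h2 := (hr' i (by omega)).1
    have h3 := hRanti (i + 1) j hij (by omega)
    linarith
  refine ⟨(2 - θ) * c, hgpos, r', hdec', ?_, ?_⟩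
  · intro i hi
    have h1 := (hr' i hi).2.1
    have h2 := hRanti 0 i (by omega) (by omega)
    have h3 : R 0 = 0 := by simp [hR]
    linarith
  · -- the product form
    have hinj : Set.InjOn r' (range (m + 1) : Finset ℕ) := by
      intro i hi j hj hij
      rw [Finset.mem_coe, mem_range] at hi hj
      rcases lt_trichotomy i j with h | h | h
      · have := hdec' i j h hj; linarith
      · exact h
      · have := hdec' j i h hi; linarith
    have hPdeg : (C ((2 - θ) * c) * Lagrange.nodal (range (m + 1)) r').natDegree = m + 1 := by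
      rw [natDegree_C_mul hgpos.ne', Lagrange.natDegree_nodal, card_range]
    have hPlead : (C ((2 - θ) * c) * Lagrange.nodal (range (m + 1)) r').leadingCoeff
        = (2 - θ) * c := by
      rw [leadingCoeff_mul, leadingCoeff_C, (nodal_monic (m + 1) r').leadingCoeff, mul_one]
    have hlt : (g - C ((2 - θ) * c) * Lagrange.nodal (range (m + 1)) r').degree
        < ((range (m + 1)).card : WithBot ℕ) := by
      rw [card_range]
      have hg0 : g ≠ 0 := by
        rintro h
        rw [h] at hgdeg
        simp at hgdeg
      refine lt_of_lt_of_le (degree_sub_lt_left ?_ hg0 ?_) ?_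
      · rw [degree_eq_natDegree hg0, hgdeg, degree_eq_natDegree, hPdeg]
        intro h
        rw [h] at hPdeg
        simp at hPdeg
      · rw [hglead, hPlead]
      · rw [degree_eq_natDegree hg0, hgdeg]
    have := Polynomial.eq_of_degree_sub_lt_of_eval_index_eq (range (m + 1)) hinj hlt (by
      intro i hi
      rw [mem_range] at hi
      rw [(hr' i hi).2.2, eval_mul, Lagrange.eval_nodal_at_node (mem_range.2 hi), mul_zero])
    exact this

end Pool.Agent.W301.PS
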