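import Mathlib
import Pool.Agent.W301.Count
import Pool.Agent.W301.Roots

set_option autoImplicit false

namespace Pool.Agent.W301.PS

open Polynomial Finset

/-- passing from `a_t` to `(t + θ) a_t` -/
lemma series_step (a : ℕ → ℝ) (d : ℕ) (h : ℝ[X]) (θ : ℝ)
    (H : (PowerSeries.mk a) * (1 - PowerSeries.X) ^ (d + 1) = (h : PowerSeries ℝ)) :
    (PowerSeries.mk fun t => ((t : ℝ) + θ) * a t) * (1 - PowerSeries.X) ^ (d + 2)
      = (step (d + 1) θ h : PowerSeries ℝ) := by
  have e1 : (PowerSeries.mk fun t => ((t : ℝ) + θ) * a t)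
      = PowerSeries.X * PowerSeries.derivative ℝ (PowerSeries.mk a)
        + PowerSeries.C θ * PowerSeries.mk a := by
    ext t
    rcases t with _ | t
    · simp
    · rw [map_add, PowerSeries.coeff_succ_X_mul, PowerSeries.coeff_derivative]
      simp
      ring
  have e2 : PowerSeries.derivative ℝ (PowerSeries.mk a) * (1 - PowerSeries.X) ^ (d + 1)
      - ((d : PowerSeries ℝ) + 1) * (PowerSeries.mk a) * (1 - PowerSeries.X) ^ d
      = ((derivative h : ℝ[X]) : PowerSeries ℝ) := by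
    have := congrArg (PowerSeries.derivative ℝ) H
    rw [Derivation.leibniz, Derivation.leibniz_pow] at this
    simp only [map_sub, Derivation.map_one_eq_zero, PowerSeries.derivative_X, zero_sub,
      smul_eq_mul, nsmul_eq_mul, Nat.add_sub_cancel, PowerSeries.derivative_coe] at this
    rw [← this]
    push_cast
    ring
  have e3 : (step (d + 1) θ h : PowerSeries ℝ)
      = PowerSeries.X * (1 - PowerSeries.X) * ((derivative h : ℝ[X]) : PowerSeries ℝ)
        + (PowerSeries.C θ + PowerSeries.C (((d + 1 : ℕ) : ℝ) - θ) * PowerSeries.X)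
          * (h : PowerSeries ℝ) := by
    unfold step
    simp
    left
    exact map_natCast (Polynomial.coeToPowerSeries.ringHom (R := ℝ)) d
  rw [e3, ← H, ← e2, e1]
  simp only [map_sub, map_natCast]
  push_cast
  ring

/-- the product `(t + 1) ∏ (t + θ_i)` -/
lemma good_series (θ : ℕ → ℝ) (m : ℕ) (hθ : ∀ i, i < m → 0 < θ i ∧ θ i < 1) :
    ∃ h : ℝ[X], Good m h ∧
      (PowerSeries.mk fun t => ((t : ℝ) + 1) * ∏ i ∈ range m, ((t : ℝ) + θ i))
        * (1 - PowerSeries.X) ^ (m + 2) = (h : PowerSeries ℝ) := by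
  induction m with
  | zero =>
    refine ⟨1, ⟨1, one_pos, fun _ => 0, by simp, by simp, by simp⟩, ?_⟩
    have h1 : (PowerSeries.mk fun _ => (1 : ℝ)) * (1 - PowerSeries.X) ^ (0 + 1)
        = ((1 : ℝ[X]) : PowerSeries ℝ) := by
      rw [zero_add, pow_one, Polynomial.coe_one]
      exact PowerSeries.mk_one_mul_one_sub_eq_one ℝ
    have h2 := series_step (fun _ => 1) 0 1 1 h1
    simp only [Finset.range_zero, Finset.prod_empty]
    rw [h2]
    congr 1
    simp [step]
  | succ m ih =>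
    obtain ⟨h, hg, H⟩ := ih (fun i hi => hθ i (by omega))
    refine ⟨step (m + 2) (θ m) h, good_step m h (θ m) (hθ m (by omega)).1 (hθ m (by omega)).2 hg, ?_⟩
    have := series_step _ (m + 1) h (θ m) H
    rw [← this]
    congr 2
    ext t
    rw [Finset.prod_range_succ]
    ring

lemma good_smul (m : ℕ) (h : ℝ[X]) (hg : Good m h) (c : ℝ) (hc : 0 < c) : Good m (C c * h) := by
  obtain ⟨c', hc', r, h1, h2, h3⟩ := hg
  refine ⟨c * c', mul_pos hc hc', r, h1, h2, ?_⟩
  rw [h3, C_mul]
  ring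

/-- the closed form for `a = b = t` in linear factors -/
lemma f_diag (m t : ℕ) : f (m + 1) t t
    = ((m : ℝ) + 2) ^ m * (((t : ℝ) + 1) * ∏ i ∈ range m, ((t : ℝ) + (1 - (i + 1) / (m + 2)))) := by
  simp only [f]
  have h1 : ∀ i ∈ range m, ((t : ℝ) + (m + 1) * (t + 1) - i)
      = ((m : ℝ) + 2) * ((t : ℝ) + (1 - (i + 1) / (m + 2))) := by
    intro i _
    have : (m : ℝ) + 2 ≠ 0 := by positivity
    field_simp
    ring
  rw [Finset.prod_congr rfl h1, Finset.prod_mul_distrib]
  simp
  ring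

lemma series_S (m : ℕ) : ∃ h : ℝ[X], Good m h ∧
    (PowerSeries.mk fun t => (Nat.card (S (m + 1) t t) : ℝ)) * (1 - PowerSeries.X) ^ (m + 2)
      = (h : PowerSeries ℝ) := by
  obtain ⟨h, hg, H⟩ := good_series (fun i => 1 - ((i : ℝ) + 1) / (m + 2)) m (by
    intro i hi
    have h1 : (0 : ℝ) < (m : ℝ) + 2 := by positivity
    have h2 : (i : ℝ) + 1 < (m : ℝ) + 2 := by
      have : (i : ℝ) < m := by exact_mod_cast hi
      linarith
    have h3 : ((i : ℝ) + 1) / (m + 2) < 1 := (div_lt_one h1).2 h2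
    have h4 : (0 : ℝ) < ((i : ℝ) + 1) / (m + 2) := by positivity
    constructor <;> linarith)
  have hfac : (0 : ℝ) < ((m + 1).factorial : ℝ) := by exact_mod_cast Nat.factorial_pos _
  set c : ℝ := ((m : ℝ) + 2) ^ m / ((m + 1).factorial : ℝ) with hc
  have hcpos : 0 < c := by positivity
  refine ⟨C c * h, good_smul m h hg c hcpos, ?_⟩
  rw [Polynomial.coe_mul, ← H, ← mul_assoc]
  congr 1
  ext t
  rw [Polynomial.coe_C, PowerSeries.coeff_C_mul, PowerSeries.coeff_mk, PowerSeries.coeff_mk]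
  have h1 := card_eq (m + 1) t t
  rw [f_diag] at h1
  rw [hc, div_mul_eq_mul_div, ← h1]
  field_simp

end Pool.Agent.W301.PS
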